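import Pool.Agent.H37.Ledoux.Variance

set_option autoImplicit false
set_option linter.unusedSectionVars false

open MeasureTheory Real Filter Topology

namespace Pool.Agent.H37

/-! ### Sums of inverse eigenvalues -/

lemma lam_ge {k : ℕ × ℕ} (hk : k ≠ 0) : (1 + (k.1 : ℝ)) * (1 + k.2) ≤ lam k := by
  unfold lam
  have hpi : (9 : ℝ) ≤ π ^ 2 := by nlinarith [Real.pi_gt_three]
  have h1 : (k.1 : ℝ) ≤ (k.1 : ℝ) ^ 2 := by
    exact_mod_cast Nat.le_self_pow (by norm_num) k.1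
  have h2 : (k.2 : ℝ) ≤ (k.2 : ℝ) ^ 2 := by
    exact_mod_cast Nat.le_self_pow (by norm_num) k.2
  have h3 : (1 : ℝ) ≤ (k.1 : ℝ) ^ 2 + (k.2 : ℝ) ^ 2 := by
    have : 1 ≤ k.1 ^ 2 + k.2 ^ 2 := by
      by_contra hcon
      have h4 : k.1 ^ 2 + k.2 ^ 2 = 0 := by omega
      apply hk
      have h5 : k.1 ^ 2 = 0 := by omega
      have h6 : k.2 ^ 2 = 0 := by omega
      exact Prod.ext (pow_eq_zero_iff (by norm_num) |>.mp h5)
        (pow_eq_zero_iff (by norm_num) |>.mp h6)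
    exact_mod_cast this
  nlinarith [sq_nonneg ((k.1 : ℝ) - k.2)]

lemma lam_zero : lam 0 = 0 := by simp [lam]

lemma summable_inv_lam_sq : Summable fun k : ℕ × ℕ => 1 / lam k ^ 2 := by
  have h1 : Summable fun j : ℕ => 1 / (1 + (j : ℝ)) ^ 2 := by
    have := (summable_nat_add_iff 1).mpr (Real.summable_one_div_nat_pow.mpr (by norm_num : 1 < 2))
    refine this.congr fun j => ?_
    push_cast
    ring
  have h2 : Summable fun k : ℕ × ℕ => 1 / (1 + (k.1 : ℝ)) ^ 2 * (1 / (1 + (k.2 : ℝ)) ^ 2) :=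
    h1.mul_of_nonneg h1 (fun j => by simp only [Pi.zero_apply]; positivity)
      (fun j => by simp only [Pi.zero_apply]; positivity)
  apply Summable.of_nonneg_of_le (fun k => by positivity) _ h2
  intro k
  by_cases hk : k = 0
  · rw [hk, lam_zero]
    simp
  · have h3 := lam_ge hk
    have h4 : (0 : ℝ) < (1 + (k.1 : ℝ)) * (1 + k.2) := by positivity
    rw [one_div_mul_one_div, ← mul_pow]
    apply one_div_le_one_div_of_le (by positivity)
    exact pow_le_pow_left₀ h4.le h3 2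

/-- The tail of the series of inverse squared eigenvalues. -/
noncomputable def tail (K : Finset (ℕ × ℕ)) : ℝ :=
  ∑' k, 1 / lam k ^ 2 - ∑ k ∈ K, 1 / lam k ^ 2

lemma sum_le_tail (K s : Finset (ℕ × ℕ)) (h : Disjoint s K) :
    ∑ k ∈ s, 1 / lam k ^ 2 ≤ tail K := by
  classical
  unfold tail
  have h1 := summable_inv_lam_sq.sum_le_tsum (s ∪ K) (fun k _ => by positivity)
  rw [Finset.sum_union h] at h1
  linarith

lemma exists_tail_small (ε : ℝ) (hε : 0 < ε) : ∃ K : Finset (ℕ × ℕ), 0 ∉ K ∧ tail K < ε := by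
  have h1 := summable_inv_lam_sq.hasSum
  unfold HasSum at h1
  have h2 : ∀ᶠ K : Finset (ℕ × ℕ) in atTop, ∑' k, 1 / lam k ^ 2 - ε < ∑ k ∈ K, 1 / lam k ^ 2 :=
    h1.eventually_const_lt (by linarith)
  obtain ⟨K, hK⟩ := h2.exists
  refine ⟨K.erase 0, Finset.notMem_erase 0 K, ?_⟩
  unfold tail
  have h3 : ∑ k ∈ K.erase 0, 1 / lam k ^ 2 = ∑ k ∈ K, 1 / lam k ^ 2 := by
    apply Finset.sum_subset (Finset.erase_subset _ _)
    intro k hk hk'
    have : k = 0 := by
      by_contra h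
      exact hk' (Finset.mem_erase.mpr ⟨h, hk⟩)
    rw [this, lam_zero]
    simp
  rw [h3]
  linarith

lemma LL_box (N : ℕ) (hN : 0 < N) : LL ((box N).erase 0) ≤ (1 + log N) ^ 2 := by
  have h1 : LL ((box N).erase 0) ≤ ∑ k ∈ box N, (1 / ((k.1 : ℝ) + 1)) * (1 / ((k.2 : ℝ) + 1)) := by
    unfold LL
    refine le_trans ?_ (Finset.sum_le_sum_of_subset_of_nonneg (Finset.erase_subset 0 (box N))
      (fun k _ _ => by positivity))
    apply Finset.sum_le_sum
    intro k hk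
    rw [one_div_mul_one_div]
    apply one_div_le_one_div_of_le (by positivity)
    have := lam_ge (Finset.mem_erase.mp hk).1
    linarith
  have h2 : ∑ k ∈ box N, (1 / ((k.1 : ℝ) + 1)) * (1 / ((k.2 : ℝ) + 1)) =
      (∑ j ∈ Finset.range N, 1 / ((j : ℝ) + 1)) ^ 2 := by
    unfold box
    rw [pow_two, Finset.sum_mul_sum, Finset.sum_product]
  have h3 : ∑ j ∈ Finset.range N, 1 / ((j : ℝ) + 1) ≤ 1 + log N := by
    have := harmonic_le_one_add_log N
    unfold harmonic at this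
    push_cast at this
    refine le_trans (le_of_eq ?_) this
    apply Finset.sum_congr rfl
    intro j _
    rw [one_div]
  rw [h2] at h1
  refine h1.trans ?_
  apply pow_le_pow_left₀ _ h3
  exact Finset.sum_nonneg fun j _ => by positivity

/-! ### Choice of parameters -/

/-- The upper bound for the rescaled second moment. -/
noncomputable def uu (n : ℕ) : ℝ := 128 * (1 + 2 * log ((n : ℝ) + 1)) ^ 4 + 64

lemma uu_nonneg (n : ℕ) : 0 ≤ uu n := by unfold uu; positivity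

lemma int_TT_sq_le (n : ℕ) :
    ((n : ℝ) + 1) ^ 2 * ∫ X, TT (prs X) ^ 2 ∂(Pn P (n + 1)) ≤ uu n := by
  have h1 := int_TT_sq n ((n + 1) ^ 2) (by positivity)
  have h2 := LL_box ((n + 1) ^ 2) (by positivity)
  have h3 : log (((n + 1) ^ 2 : ℕ) : ℝ) = 2 * log ((n : ℝ) + 1) := by
    push_cast
    rw [Real.log_pow]
    push_cast
    ring
  rw [h3] at h2
  have h4 : LL ((box ((n + 1) ^ 2)).erase 0) ^ 2 ≤ ((1 + 2 * log ((n : ℝ) + 1)) ^ 2) ^ 2 :=
    pow_le_pow_left₀ (LL_nonneg _) h2 2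
  have hm : (0 : ℝ) < ((n : ℝ) + 1) ^ 2 := by positivity
  have h5 := mul_le_mul_of_nonneg_left h1 hm.le
  refine h5.trans ?_
  have h6 : ((n : ℝ) + 1) ^ 2 * (128 * LL ((box ((n + 1) ^ 2)).erase 0) ^ 2 / ((n : ℝ) + 1) ^ 2 +
      64 / (((n + 1) ^ 2 : ℕ) : ℝ)) = 128 * LL ((box ((n + 1) ^ 2)).erase 0) ^ 2 + 64 := by
    push_cast
    field_simp
  rw [h6]
  unfold uu
  nlinarith

/-- The vanishing error. -/
noncomputable def ww (n : ℕ) : ℝ := (1 + uu n) / √((n : ℝ) + 1)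

lemma tendsto_ww : Tendsto ww atTop (𝓝 0) := by
  have h1 : (fun x : ℝ => 1 + 2 * log x) =o[atTop] fun x => x ^ ((1 : ℝ) / 8) := by
    apply Asymptotics.IsLittleO.add
    · have : Tendsto (fun x : ℝ => x ^ ((1 : ℝ) / 8)) atTop atTop :=
        tendsto_rpow_atTop (by norm_num)
      exact (Asymptotics.isLittleO_const_left.mpr (Or.inr (tendsto_norm_atTop_atTop.comp this)))
    · exact (isLittleO_log_rpow_atTop (by norm_num)).const_mul_left 2
  have h2 := (h1.pow (by norm_num : 0 < 4)).const_mul_left 128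
  have h3 : (fun x : ℝ => (x ^ ((1 : ℝ) / 8)) ^ 4) =ᶠ[atTop] fun x => √x := by
    filter_upwards [eventually_ge_atTop 0] with x hx
    rw [← Real.rpow_natCast, ← Real.rpow_mul hx, Real.sqrt_eq_rpow]
    norm_num
  have h4 : (fun x : ℝ => 65 + 128 * (1 + 2 * log x) ^ 4) =o[atTop] fun x => √x := by
    apply Asymptotics.IsLittleO.add
    · exact (Asymptotics.isLittleO_const_left.mpr
        (Or.inr (tendsto_norm_atTop_atTop.comp Real.tendsto_sqrt_atTop)))
    · exact h2.congr' EventuallyEq.rfl h3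
  have h5 := h4.tendsto_div_nhds_zero
  have h6 : Tendsto (fun n : ℕ => (n : ℝ) + 1) atTop atTop :=
    tendsto_atTop_add_const_right _ _ tendsto_natCast_atTop_atTop
  refine (h5.comp h6).congr fun n => ?_
  unfold ww uu
  simp only [Function.comp]
  congr 1
  ring

/-- The variance bound with the chosen parameters. -/
lemma var_final (n : ℕ) (K : Finset (ℕ × ℕ)) (hK : 0 ∉ K)
    (hKM : K ⊆ box (Nat.sqrt (Nat.sqrt (n + 1)))) :
    VK n K ≤ 240 * tail K + (5484 + 3840 * SK K + 1032 * K.card + 288 * K.card * LL K ^ 2 +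
      3 * CK K ^ 2) * ww n := by
  set M := Nat.sqrt (Nat.sqrt (n + 1)) with hMdef
  have hM : 0 < M := by
    rw [hMdef, Nat.sqrt_pos, Nat.sqrt_pos]; omega
  have hMN : M ≤ (n + 1) ^ 2 := by
    have h1 : M ≤ Nat.sqrt (n + 1) := Nat.sqrt_le_self _
    have h2 : Nat.sqrt (n + 1) ≤ n + 1 := Nat.sqrt_le_self _
    have h3 : n + 1 ≤ (n + 1) ^ 2 := Nat.le_self_pow (by norm_num) _
    omega
  set m : ℝ := (n : ℝ) + 1 with hm
  set T := ∫ X, TT (prs X) ^ 2 ∂(Pn P (n + 1)) with hT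
  set u : ℝ := m ^ 2 * T with hu
  have hm1 : 1 ≤ m := by rw [hm]; linarith [(Nat.cast_nonneg n : (0 : ℝ) ≤ n)]
  have hm0 : 0 < m := by linarith
  have hT0 : 0 ≤ T := integral_nonneg fun X => sq_nonneg _
  have hu0 : 0 ≤ u := by positivity
  have huu : u ≤ uu n := int_TT_sq_le n
  have h1 := var_bound n K hK M ((n + 1) ^ 2) hM hMN hKM m u hm hu
  set q : ℝ := 1 / √m with hq
  have hs0 : 0 < √m := Real.sqrt_pos.mpr hm0
  have hs1 : 1 ≤ √m := by rw [Real.one_le_sqrt]; exact hm1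
  have hss : √m ^ 2 = m := Real.sq_sqrt hm0.le
  have hq0 : 0 < q := by positivity
  have hq1 : q ≤ 1 := by rw [hq, div_le_one hs0]; exact hs1
  have hqm : 1 / m = q ^ 2 := by rw [hq, div_pow, hss, one_pow]
  have hqm' : 1 / m ≤ q := by rw [hqm]; nlinarith
  -- bounds on M
  have hcast : √(((n + 1 : ℕ) : ℝ)) = √m := by rw [hm]; push_cast; rfl
  have hMup : (M : ℝ) ^ 2 ≤ √m := by
    have h2 : M ^ 2 ≤ Nat.sqrt (n + 1) := Nat.sqrt_le' _
    have h3 : ((M ^ 2 : ℕ) : ℝ) ≤ (Nat.sqrt (n + 1) : ℝ) := by exact_mod_cast h2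
    have h4 : (Nat.sqrt (n + 1) : ℝ) ≤ √(((n + 1 : ℕ) : ℝ)) := Real.nat_sqrt_le_real_sqrt
    rw [hcast] at h4
    push_cast at h3
    linarith
  have hMlow : √m ≤ 4 * (M : ℝ) ^ 2 := by
    have h2 : Nat.sqrt (n + 1) < (M + 1) ^ 2 := Nat.lt_succ_sqrt' _
    have h3 : ((Nat.sqrt (n + 1) : ℕ) : ℝ) + 1 ≤ ((M : ℝ) + 1) ^ 2 := by
      have : Nat.sqrt (n + 1) + 1 ≤ (M + 1) ^ 2 := h2
      exact_mod_cast this
    have h4 : √(((n + 1 : ℕ) : ℝ)) < (Nat.sqrt (n + 1) : ℝ) + 1 := Real.real_sqrt_lt_nat_sqrt_succ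
    rw [hcast] at h4
    have h5 : (1 : ℝ) ≤ M := by exact_mod_cast hM
    nlinarith
  have hM0 : (0 : ℝ) < (M : ℝ) ^ 2 := by
    have : (0 : ℝ) < M := by exact_mod_cast hM
    positivity
  have hM1 : (M : ℝ) ^ 2 / m ≤ q := by
    rw [hq, div_le_div_iff₀ hm0 hs0]
    calc (M : ℝ) ^ 2 * √m ≤ √m * √m := mul_le_mul_of_nonneg_right hMup hs0.le
      _ = 1 * m := by rw [← pow_two, hss, one_mul]
  have hM2 : 1 / (M : ℝ) ^ 2 ≤ 4 * q := by
    rw [hq, mul_one_div, div_le_div_iff₀ hM0 hs0]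
    linarith
  -- the comparison quantity
  set w := (1 + u) * q with hw
  have hww : w ≤ ww n := by
    unfold ww
    rw [hw, hq, ← hm, mul_one_div]
    exact div_le_div_of_nonneg_right (by linarith) hs0.le
  have hw0 : 0 ≤ w := by positivity
  have hqw : q ≤ w := by rw [hw]; nlinarith
  have huw : u * q ≤ w := by rw [hw]; nlinarith
  have t1 : 15 * (m * (16 / (((n + 1) ^ 2 : ℕ) : ℝ) + 256 * SK K / (((n + 1) ^ 2 : ℕ) : ℝ) ^ 2)) ≤
      240 * w + 3840 * SK K * w := by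
    have e1 : 15 * (m * (16 / (((n + 1) ^ 2 : ℕ) : ℝ) + 256 * SK K / (((n + 1) ^ 2 : ℕ) : ℝ) ^ 2)) =
        240 * (1 / m) + 3840 * SK K * ((1 / m) ^ 3) := by
      push_cast
      rw [← hm]
      field_simp
      ring
    rw [e1]
    have h2 : (1 / m) ^ 3 ≤ 1 / m := by
      have h3 : 1 / m ≤ 1 := hqm'.trans hq1
      have h4 : 0 ≤ 1 / m := by positivity
      calc (1 / m) ^ 3 = (1 / m) ^ 2 * (1 / m) := by ring
        _ ≤ 1 * (1 / m) := by
          apply mul_le_mul_of_nonneg_right _ h4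
          nlinarith
        _ = 1 / m := one_mul _
    have h5 : (1 / m) ^ 3 ≤ w := h2.trans (hqm'.trans hqw)
    have h6 := mul_le_mul_of_nonneg_left h5 (by have := SK_nonneg K; positivity :
      0 ≤ 3840 * SK K)
    linarith
  have t2 : (960 * K.card / m + 960 * M ^ 2 / m + 72 * K.card / m) * u ≤
      (1032 * K.card + 960) * w := by
    have e1 : (960 * K.card / m + 960 * (M : ℝ) ^ 2 / m + 72 * K.card / m) * u =
        1032 * K.card * ((1 / m) * u) + 960 * ((M ^ 2 / m) * u) := by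
      field_simp
      ring
    rw [e1]
    have h2 : (1 / m) * u ≤ w := by
      have := mul_le_mul_of_nonneg_right hqm' hu0
      linarith
    have h3 : ((M : ℝ) ^ 2 / m) * u ≤ w := by
      have := mul_le_mul_of_nonneg_right hM1 hu0
      linarith
    have h4 := mul_le_mul_of_nonneg_left h2 (by positivity : (0 : ℝ) ≤ 1032 * K.card)
    linarith
  have t3 : (15 / (M : ℝ) ^ 2 + 4224 / √m) * (1 + u) ≤ 4284 * w := by
    have e1 : 15 / (M : ℝ) ^ 2 + 4224 / √m = 15 * (1 / (M : ℝ) ^ 2) + 4224 * q := by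
      rw [hq]; ring
    rw [e1]
    have h2 : 15 * (1 / (M : ℝ) ^ 2) + 4224 * q ≤ 4284 * q := by linarith
    have h3 := mul_le_mul_of_nonneg_right h2 (by linarith : 0 ≤ 1 + u)
    rw [hw]
    linarith
  have t4 : 288 * K.card * LL K ^ 2 / m ≤ 288 * K.card * LL K ^ 2 * w := by
    rw [div_eq_mul_one_div]
    exact mul_le_mul_of_nonneg_left (hqm'.trans hqw) (by positivity)
  have t5 : 3 * CK K ^ 2 / m ≤ 3 * CK K ^ 2 * w := by
    rw [div_eq_mul_one_div]
    exact mul_le_mul_of_nonneg_left (hqm'.trans hqw) (by positivity)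
  have t6 : ∑ k ∈ (box M \ K).erase 0, 1 / lam k ^ 2 ≤ tail K := by
    apply sum_le_tail
    apply Finset.disjoint_left.mpr
    intro k hk hk'
    exact (Finset.mem_sdiff.mp (Finset.mem_erase.mp hk).2).2 hk'
  have h7 : VK n K ≤ 240 * tail K + (5484 + 3840 * SK K + 1032 * K.card +
      288 * K.card * LL K ^ 2 + 3 * CK K ^ 2) * w := by linarith
  refine h7.trans ?_
  have h8 : 0 ≤ 5484 + 3840 * SK K + 1032 * K.card + 288 * K.card * LL K ^ 2 + 3 * CK K ^ 2 := by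
    have := SK_nonneg K
    positivity
  have := mul_le_mul_of_nonneg_left hww h8
  linarith

lemma tendsto_M : Tendsto (fun n : ℕ => Nat.sqrt (Nat.sqrt (n + 1))) atTop atTop := by
  have h1 : Tendsto Nat.sqrt atTop atTop := by
    rw [tendsto_atTop_atTop]
    intro b
    exact ⟨b ^ 2, fun a ha => by rw [Nat.le_sqrt']; exact ha⟩
  exact h1.comp (h1.comp (tendsto_add_atTop_nat 1))

lemma eventually_subset_box (K : Finset (ℕ × ℕ)) :
    ∀ᶠ n : ℕ in atTop, K ⊆ box (Nat.sqrt (Nat.sqrt (n + 1))) := by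
  have h1 : ∀ k ∈ K, ∀ᶠ n : ℕ in atTop, k ∈ box (Nat.sqrt (Nat.sqrt (n + 1))) := by
    intro k _
    filter_upwards [tendsto_M.eventually_gt_atTop k.1, tendsto_M.eventually_gt_atTop k.2] with n h2 h3
    unfold box
    rw [Finset.mem_product, Finset.mem_range, Finset.mem_range]
    exact ⟨h2, h3⟩
  have h2 := (Finset.eventually_all K).mpr h1
  filter_upwards [h2] with n hn k hk
  exact hn k hk

/-- The variance with modes removed is eventually at most `ε`. -/
theorem var_small (ε : ℝ) (hε : 0 < ε) :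
    ∃ K : Finset (ℕ × ℕ), 0 ∉ K ∧ ∀ᶠ n in atTop, VK n K ≤ ε := by
  obtain ⟨K, hK, ht⟩ := exists_tail_small (ε / 480) (by linarith)
  refine ⟨K, hK, ?_⟩
  have h1 := tendsto_ww.const_mul (5484 + 3840 * SK K + 1032 * K.card +
      288 * K.card * LL K ^ 2 + 3 * CK K ^ 2)
  rw [mul_zero] at h1
  filter_upwards [eventually_subset_box K, h1.eventually_le_const (by linarith : 0 < ε / 2)]
    with n h2 h3
  have h4 := var_final n K hK h2
  linarith

/-- The full variance is bounded. -/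
theorem var_bounded : ∃ c : ℝ, ∀ᶠ n in atTop, VK n ∅ ≤ c := by
  have h1 := tendsto_ww.const_mul (5484 + 3840 * SK ∅ + 1032 * ((∅ : Finset (ℕ × ℕ)).card : ℝ) +
      288 * ((∅ : Finset (ℕ × ℕ)).card : ℝ) * LL ∅ ^ 2 + 3 * CK ∅ ^ 2)
  rw [mul_zero] at h1
  refine ⟨240 * tail ∅ + 1, ?_⟩
  filter_upwards [eventually_subset_box ∅, h1.eventually_le_const (by norm_num : (0 : ℝ) < 1)]
    with n h2 h3
  have h4 := var_final n ∅ (Finset.notMem_empty 0) h2
  linarith

end Pool.Agent.H37
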