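import Mathlib

set_option autoImplicit false

open MeasureTheory

namespace Pool.Agent.H37

/-- The plane. -/
abbrev E : Type := ℝ × ℝ

/-- The squared Euclidean distance in the plane. -/
def sqd (x y : E) : ℝ := (x.1 - y.1) ^ 2 + (x.2 - y.2) ^ 2

/-- The closed unit square. -/
def Q : Set E := Set.Icc 0 1 ×ˢ Set.Icc 0 1

/-- The uniform probability measure on the unit square. -/
noncomputable def P : Measure E := volume.restrict Q

/-- The uniform probability measure on the unit interval. -/
noncomputable def nu : Measure ℝ := volume.restrict (Set.Icc 0 1)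

instance : IsProbabilityMeasure nu := ⟨by simp [nu]⟩

lemma P_eq_prod : P = nu.prod nu := by
  unfold P nu Q
  rw [Measure.prod_restrict, Measure.volume_eq_prod]

instance : IsProbabilityMeasure P := by
  rw [P_eq_prod]; infer_instance

lemma measurableSet_Q : MeasurableSet Q := measurableSet_Icc.prod measurableSet_Icc

lemma isCompact_Q : IsCompact Q := isCompact_Icc.prod isCompact_Icc

lemma isClosed_Q : IsClosed Q := isCompact_Q.isClosed

lemma Q_nonempty : Q.Nonempty := ⟨(0, 0), by simp [Q]⟩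

lemma mem_Q (x : E) : x ∈ Q ↔ (0 ≤ x.1 ∧ x.1 ≤ 1) ∧ (0 ≤ x.2 ∧ x.2 ≤ 1) := Iff.rfl

lemma ae_mem_Q : ∀ᵐ x ∂P, x ∈ Q := by
  unfold P
  exact ae_restrict_mem measurableSet_Q

lemma sqd_nonneg (x y : E) : 0 ≤ sqd x y := by unfold sqd; positivity

lemma sqd_comm (x y : E) : sqd x y = sqd y x := by unfold sqd; ring

lemma sqd_self (x : E) : sqd x x = 0 := by unfold sqd; ring

lemma sqd_le_two {x y : E} (hx : x ∈ Q) (hy : y ∈ Q) : sqd x y ≤ 2 := by
  rw [mem_Q] at hx hy
  unfold sqd
  have h1 : (x.1 - y.1) ^ 2 ≤ 1 := by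
    rw [sq_le_one_iff_abs_le_one, abs_le]; constructor <;> linarith [hx.1.1, hx.1.2, hy.1.1, hy.1.2]
  have h2 : (x.2 - y.2) ^ 2 ≤ 1 := by
    rw [sq_le_one_iff_abs_le_one, abs_le]; constructor <;> linarith [hx.2.1, hx.2.2, hy.2.1, hy.2.2]
  linarith

@[fun_prop]
lemma continuous_sqd {α : Type*} [TopologicalSpace α] {f g : α → E} (hf : Continuous f)
    (hg : Continuous g) : Continuous fun a => sqd (f a) (g a) := by
  unfold sqd; fun_prop

@[fun_prop]
lemma measurable_sqd {α : Type*} [MeasurableSpace α] {f g : α → E} (hf : Measurable f)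
    (hg : Measurable g) : Measurable fun a => sqd (f a) (g a) := by
  unfold sqd; fun_prop

/-- A measurable function which is bounded on the square is integrable. -/
lemma integrable_of_bound {f : E → ℝ} (hf : Measurable f) (C : ℝ) (h : ∀ x ∈ Q, |f x| ≤ C) :
    Integrable f P := by
  apply Integrable.of_bound hf.aestronglyMeasurable C
  filter_upwards [ae_mem_Q] with x hx
  rw [Real.norm_eq_abs]; exact h x hx

lemma integral_mono_Q {f g : E → ℝ} (hf : Integrable f P) (hg : Integrable g P)
    (h : ∀ x ∈ Q, f x ≤ g x) : ∫ x, f x ∂P ≤ ∫ x, g x ∂P := by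
  apply integral_mono_ae hf hg
  filter_upwards [ae_mem_Q] with x hx using h x hx

lemma integral_congr_Q {f g : E → ℝ} (h : ∀ x ∈ Q, f x = g x) : ∫ x, f x ∂P = ∫ x, g x ∂P := by
  apply integral_congr_ae
  filter_upwards [ae_mem_Q] with x hx using h x hx

end Pool.Agent.H37
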