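import Pool.Agent.H37.Ledoux.Linearise

set_option autoImplicit false
set_option linter.unusedSectionVars false

open MeasureTheory Real

namespace Pool.Agent.H37

variable {ι : Type} [Fintype ι] [Nonempty ι]

lemma Opt.TT_eq {X : ι → E} (o : Opt X) (hX : ∀ i, X i ∈ Q) :
    TT X = -((∑ i, o.b i) / Fintype.card ι) := by
  rw [o.cost', ← o.push]
  have h : ∫ y, psi X o.b y ∂P = ∫ y, sqd y (o.T y) ∂P + ∫ y, o.b (o.idx y) ∂P := by
    rw [← integral_add (o.bdd_sqd hX).integrable (o.bdd_comp o.b).integrable]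
    congr 1
    funext y
    exact o.argmin y
  rw [o.mean] at h
  linarith

lemma Opt.psi_self_le {X : ι → E} (o : Opt X) (i : ι) : psi X o.b (X i) ≤ o.b i := by
  have := psi_le X o.b (X i) i
  rw [sqd_self] at this
  linarith

/-- The weighted energy of the empirical averages. -/
noncomputable def Xi (X : ι → E) (s : Finset (ℕ × ℕ)) : ℝ := ∑ k ∈ s, av X k ^ 2 / lam k

lemma Xi_nonneg (X : ι → E) (s : Finset (ℕ × ℕ)) : 0 ≤ Xi X s :=
  Finset.sum_nonneg fun k _ => div_nonneg (sq_nonneg _) (lam_nonneg k)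

/-- The Ajtai-Komlos-Tusnady type upper bound. -/
lemma Opt.akt {X : ι → E} (o : Opt X) (hX : ∀ i, X i ∈ Q) (N : ℕ) (hN : 0 < N) :
    TT X ≤ 4 * Xi X ((box N).erase 0) + 8 / √(2 * N) := by
  have hn := card_pos' (ι := ι)
  have h1 : TT X ≤ (∑ i, -(psi X o.b (X i))) / Fintype.card ι := by
    rw [o.TT_eq hX, ← neg_div, ← Finset.sum_neg_distrib]
    apply div_le_div_of_nonneg_right _ hn.le
    apply Finset.sum_le_sum
    intro i _
    have := o.psi_self_le i
    linarith
  have h2 : (∑ i, -(psi X o.b (X i))) / Fintype.card ι ≤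
      (∑ i, (-(fejer N (psi X o.b) (X i)) + 4 / √(2 * N))) / Fintype.card ι := by
    apply div_le_div_of_nonneg_right _ hn.le
    apply Finset.sum_le_sum
    intro i _
    have := fejer_error N hN (psi X o.b) (bdd_psi X o.b) (fun x hx y hy => o.lip_abs hX x y hx hy)
      (X i) (hX i)
    have := (abs_le.mp this).2
    linarith
  have h3 : (∑ i, (-(fejer N (psi X o.b) (X i)) + 4 / √(2 * N))) / Fintype.card ι =
      ∑ k ∈ box N, -(mult N k * o.c k * av X k) + 4 / √(2 * N) := by
    rw [Finset.sum_add_distrib]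
    simp only [Finset.sum_const, Finset.card_univ, nsmul_eq_mul]
    rw [add_div, mul_div_assoc, mul_div_cancel₀ _ hn.ne']
    congr 1
    unfold fejer
    simp_rw [Finset.sum_neg_distrib]
    rw [Finset.sum_comm, neg_div, Finset.sum_div]
    congr 1
    apply Finset.sum_congr rfl
    intro k _
    rw [← Finset.mul_sum, mul_div_assoc]
    rfl
  have h4 : ∑ k ∈ box N, -(mult N k * o.c k * av X k) ≤
      ∑ k ∈ (box N).erase 0, (lam k * o.c k ^ 2 / 8 + 2 * (av X k ^ 2 / lam k)) := by
    have e0 : ∑ k ∈ box N, -(mult N k * o.c k * av X k) =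
        ∑ k ∈ (box N).erase 0, -(mult N k * o.c k * av X k) := by
      symm
      apply Finset.sum_subset (Finset.erase_subset _ _)
      intro k hk hk'
      have : k = 0 := by
        by_contra h
        exact hk' (Finset.mem_erase.mpr ⟨h, hk⟩)
      rw [this, o.c_zero]
      simp
    rw [e0]
    apply Finset.sum_le_sum
    intro k hk
    rw [Finset.mem_erase] at hk
    have hl := lam_pos hk.1
    have m0 := mult_nonneg hk.2
    have m1 := mult_le_one hk.2
    have a1 : -(mult N k * o.c k * av X k) ≤ |o.c k| * |av X k| := by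
      calc -(mult N k * o.c k * av X k) ≤ |mult N k * o.c k * av X k| := neg_le_abs _
        _ = mult N k * (|o.c k| * |av X k|) := by
          rw [abs_mul, abs_mul, abs_of_nonneg m0]; ring
        _ ≤ 1 * (|o.c k| * |av X k|) :=
          mul_le_mul_of_nonneg_right m1 (mul_nonneg (abs_nonneg _) (abs_nonneg _))
        _ = |o.c k| * |av X k| := one_mul _
    refine a1.trans ?_
    have a2 : 0 ≤ (lam k * |o.c k| / 2 - 2 * |av X k|) ^ 2 / (2 * lam k) := by positivity
    have a3 : (lam k * |o.c k| / 2 - 2 * |av X k|) ^ 2 / (2 * lam k) =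
        lam k * |o.c k| ^ 2 / 8 + 2 * (|av X k| ^ 2 / lam k) - |o.c k| * |av X k| := by
      field_simp
      ring
    rw [a3, sq_abs, sq_abs] at a2
    linarith
  have h5 : ∑ k ∈ (box N).erase 0, (lam k * o.c k ^ 2 / 8 + 2 * (av X k ^ 2 / lam k)) ≤
      TT X / 2 + 2 * Xi X ((box N).erase 0) := by
    rw [Finset.sum_add_distrib, ← Finset.mul_sum, ← Finset.sum_div]
    have := o.energy hX ((box N).erase 0)
    unfold Xi
    linarith
  have h6 : 8 / √(2 * (N : ℝ)) = 2 * (4 / √(2 * N)) := by ring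
  rw [h6]
  linarith

/-! ### Replacement of one sample point -/

lemma Opt.replace [DecidableEq ι] {X : ι → E} (o : Opt X) (hX : ∀ i, X i ∈ Q) (i : ι) (x : E)
    (hx : x ∈ Q) : (Fintype.card ι : ℝ) * (TT X - TT (Function.update X i x)) ≤
      psi X o.b x + o.D x - o.b i := by
  have hn := card_pos' (ι := ι)
  have h1 := G_le_TT (Function.update X i x) (Function.update o.b i (psi X o.b x + o.D x))
  have h2 : ∀ y ∈ Q, psi X o.b y ≤
      psi (Function.update X i x) (Function.update o.b i (psi X o.b x + o.D x)) y := by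
    intro y hy
    apply le_psi
    intro j
    by_cases hj : j = i
    · subst hj
      rw [Function.update_self, Function.update_self]
      have := o.dev hX x hx y hy
      rw [sqd_comm x y] at this
      linarith
    · rw [Function.update_of_ne hj, Function.update_of_ne hj]
      exact psi_le X o.b y j
  have h3 : 0 ≤ ∫ y, psi (Function.update X i x)
      (Function.update o.b i (psi X o.b x + o.D x)) y ∂P := by
    rw [← o.mean]
    exact integral_mono_Q (integrable_psi _ _) (integrable_psi _ _) h2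
  have h4 : ∑ j, Function.update o.b i (psi X o.b x + o.D x) j =
      ∑ j, o.b j - o.b i + (psi X o.b x + o.D x) := by
    rw [Finset.sum_update_of_mem (Finset.mem_univ i)]
    have := Finset.sum_erase_add Finset.univ o.b (Finset.mem_univ i)
    rw [Finset.sdiff_singleton_eq_erase]
    linarith
  unfold G at h1
  rw [h4] at h1
  rw [o.TT_eq hX]
  have h5 : -((∑ j, o.b j - o.b i + (psi X o.b x + o.D x)) / Fintype.card ι) ≤
      TT (Function.update X i x) := by linarith
  have h6 := mul_le_mul_of_nonneg_left h5 hn.le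
  have h7 : (Fintype.card ι : ℝ) * -((∑ j, o.b j - o.b i + (psi X o.b x + o.D x)) /
      Fintype.card ι) = -(∑ j, o.b j - o.b i + (psi X o.b x + o.D x)) := by
    field_simp
  have h8 : (Fintype.card ι : ℝ) * -((∑ j, o.b j) / Fintype.card ι) = -(∑ j, o.b j) := by
    field_simp
  rw [mul_sub, h8]
  linarith

/-- The functional with finitely many quadratic modes removed. -/
noncomputable def FK (K : Finset (ℕ × ℕ)) (X : ι → E) : ℝ := Fintype.card ι * (TT X - Xi X K)

/-- The finite linear approximation of the potential. -/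
noncomputable def PsiK (K : Finset (ℕ × ℕ)) (X : ι → E) (x : E) : ℝ :=
  ∑ k ∈ K, (-(2 * av X k / lam k)) * e k x

/-- A constant. -/
noncomputable def CK (K : Finset (ℕ × ℕ)) : ℝ := ∑ k ∈ K, 16 / lam k

lemma CK_nonneg (K : Finset (ℕ × ℕ)) : 0 ≤ CK K :=
  Finset.sum_nonneg fun k _ => div_nonneg (by norm_num) (lam_nonneg k)

lemma av_update [DecidableEq ι] (X : ι → E) (i : ι) (x : E) (k : ℕ × ℕ) :
    av (Function.update X i x) k = av X k + (e k x - e k (X i)) / Fintype.card ι := by
  unfold av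
  rw [← add_div]
  congr 1
  have h1 : ∀ j, e k (Function.update X i x j) = Function.update (fun j => e k (X j)) i (e k x) j := by
    intro j
    by_cases hj : j = i
    · subst hj; simp
    · simp [hj]
  simp_rw [h1]
  rw [Finset.sum_update_of_mem (Finset.mem_univ i), Finset.sdiff_singleton_eq_erase]
  have := Finset.sum_erase_add Finset.univ (fun j => e k (X j)) (Finset.mem_univ i)
  linarith

lemma Opt.FK_replace [DecidableEq ι] {X : ι → E} (o : Opt X) (hX : ∀ i, X i ∈ Q)
    (K : Finset (ℕ × ℕ)) (i : ι) (x : E) (hx : x ∈ Q) :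
    FK K X - FK K (Function.update X i x) ≤
      (psi X o.b x + o.D x - PsiK K X x) - (o.b i - PsiK K X (X i)) + CK K / Fintype.card ι := by
  have hn := card_pos' (ι := ι)
  set n : ℝ := (Fintype.card ι : ℝ) with hndef
  have h1 := o.replace hX i x hx
  have h2 : n * (Xi (Function.update X i x) K - Xi X K) ≤
      PsiK K X (X i) - PsiK K X x + CK K / n := by
    unfold Xi PsiK CK
    rw [← Finset.sum_sub_distrib, ← Finset.sum_sub_distrib, Finset.mul_sum, Finset.sum_div,
      ← Finset.sum_add_distrib]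
    apply Finset.sum_le_sum
    intro k _
    rw [av_update]
    set d := e k x - e k (X i) with hd
    have hd2 : d ^ 2 ≤ 16 := by
      have a1 := abs_e_le k x
      have a2 := abs_e_le k (X i)
      have a3 : |d| ≤ 4 := (abs_sub _ _).trans (by linarith)
      have := pow_le_pow_left₀ (abs_nonneg d) a3 2
      rw [sq_abs] at this
      linarith
    by_cases hl : lam k = 0
    · rw [hl]; simp
    · have hl' : 0 < lam k := lt_of_le_of_ne (lam_nonneg k) (Ne.symm hl)
      have e1 : n * ((av X k + d / Fintype.card ι) ^ 2 / lam k - av X k ^ 2 / lam k) =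
          2 * av X k / lam k * d + d ^ 2 / (n * lam k) := by
        rw [← hndef]
        field_simp
        ring
      have e2 : -(2 * av X k / lam k) * e k (X i) - -(2 * av X k / lam k) * e k x =
          2 * av X k / lam k * d := by rw [hd]; ring
      rw [e1, e2]
      have e3 : (16 : ℝ) / lam k / n = 16 / (n * lam k) := by field_simp
      rw [e3]
      have : d ^ 2 / (n * lam k) ≤ 16 / (n * lam k) := div_le_div_of_nonneg_right hd2 (by positivity)
      linarith
  unfold FK
  rw [← hndef]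
  have e4 : n * (TT X - Xi X K) - n * (TT (Function.update X i x) - Xi (Function.update X i x) K) =
      n * (TT X - TT (Function.update X i x)) + n * (Xi (Function.update X i x) K - Xi X K) := by
    ring
  rw [e4]
  linarith

lemma bdd_PsiK (K : Finset (ℕ × ℕ)) (X : ι → E) : Bdd (PsiK K X) :=
  Bdd.sum K fun k _ => (bdd_e k).const_mul _

lemma Opt.bdd_D {X : ι → E} (o : Opt X) (hX : ∀ i, X i ∈ Q) : Bdd o.D := by
  refine ⟨o.measurable_D, √(512 * √(TT X) * 2), fun y hy => ?_⟩
  rw [abs_of_nonneg (o.D_nonneg y)]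
  unfold Opt.D
  apply Real.sqrt_le_sqrt
  apply mul_le_mul_of_nonneg_left (sqd_le_two hy (hX _))
  positivity

lemma PsiK_sub_sq {X : ι → E} (K : Finset (ℕ × ℕ)) (x y : E) :
    (PsiK K X x - PsiK K X y) ^ 2 ≤ 16 * K.card * Xi X K * sqd x y := by
  unfold PsiK Xi
  rw [← Finset.sum_sub_distrib]
  have h1 := sq_sum_le_card_mul_sum_sq (s := K)
    (f := fun k => -(2 * av X k / lam k) * e k x - -(2 * av X k / lam k) * e k y)
  refine h1.trans ?_
  have h2 : ∑ k ∈ K, (-(2 * av X k / lam k) * e k x - -(2 * av X k / lam k) * e k y) ^ 2 ≤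
      ∑ k ∈ K, 16 * (av X k ^ 2 / lam k) * sqd x y := by
    apply Finset.sum_le_sum
    intro k _
    by_cases hl : lam k = 0
    · rw [hl]; simp
    · have hl' : 0 < lam k := lt_of_le_of_ne (lam_nonneg k) (Ne.symm hl)
      have h3 := e_sub_sq_le k x y
      have e1 : (-(2 * av X k / lam k) * e k x - -(2 * av X k / lam k) * e k y) ^ 2 =
          (2 * av X k / lam k) ^ 2 * (e k x - e k y) ^ 2 := by ring
      rw [e1]
      calc (2 * av X k / lam k) ^ 2 * (e k x - e k y) ^ 2 ≤
            (2 * av X k / lam k) ^ 2 * (4 * lam k * sqd x y) :=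
            mul_le_mul_of_nonneg_left h3 (sq_nonneg _)
        _ = 16 * (av X k ^ 2 / lam k) * sqd x y := by field_simp; ring
  calc (K.card : ℝ) * ∑ k ∈ K, (-(2 * av X k / lam k) * e k x - -(2 * av X k / lam k) * e k y) ^ 2 ≤
        K.card * ∑ k ∈ K, 16 * (av X k ^ 2 / lam k) * sqd x y :=
        mul_le_mul_of_nonneg_left h2 (Nat.cast_nonneg _)
    _ = 16 * K.card * (∑ k ∈ K, av X k ^ 2 / lam k) * sqd x y := by
        rw [← Finset.sum_mul, ← Finset.mul_sum]; ring

/-- The conditional Efron-Stein sum is controlled by the squared distance of the potential to the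
span of the removed modes, up to lower order terms. -/
lemma Opt.es_bound [DecidableEq ι] {X : ι → E} (o : Opt X) (hX : ∀ i, X i ∈ Q)
    (K : Finset (ℕ × ℕ)) :
    ∑ i, ∫ x, (max (FK K X - FK K (Function.update X i x)) 0) ^ 2 ∂P ≤
      Fintype.card ι * (15 * ∫ y, (psi X o.b y - PsiK K X y) ^ 2 ∂P +
        4224 * (TT X * √(TT X)) + 144 * K.card * Xi X K * TT X) +
        3 * CK K ^ 2 / Fintype.card ι := by
  have hn := card_pos' (ι := ι)
  have bpsi := bdd_psi X o.b
  have bD := o.bdd_D hX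
  have bP := bdd_PsiK K X
  have bS := o.bdd_sqd hX
  set A : E → ℝ := fun x => psi X o.b x + o.D x - PsiK K X x with hA
  have bA : Bdd A := (bpsi.add bD).sub bP
  set B : ι → ℝ := fun i => o.b i - PsiK K X (X i) with hB
  set γ : ℝ := CK K / Fintype.card ι with hγ
  -- each term
  have h1 : ∀ i, ∫ x, (max (FK K X - FK K (Function.update X i x)) 0) ^ 2 ∂P ≤
      3 * ∫ x, A x ^ 2 ∂P + 3 * B i ^ 2 + 3 * γ ^ 2 := by
    intro i
    have h2 : ∫ x, (max (FK K X - FK K (Function.update X i x)) 0) ^ 2 ∂P ≤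
        ∫ x, (3 * A x ^ 2 + (3 * B i ^ 2 + 3 * γ ^ 2)) ∂P := by
      apply integral_mono_of_nonneg
      · exact Filter.Eventually.of_forall fun x => sq_nonneg _
      · exact ((bA.sq.const_mul 3).add (Bdd.const _)).integrable
      · filter_upwards [ae_mem_Q] with x hx
        have h3 := o.FK_replace hX K i x hx
        have h4 : max (FK K X - FK K (Function.update X i x)) 0 ≤ |A x - B i + γ| := by
          apply max_le _ (abs_nonneg _)
          exact h3.trans (le_abs_self _)
        have h5 := pow_le_pow_left₀ (le_max_right _ _) h4 2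
        rw [sq_abs] at h5
        refine h5.trans ?_
        nlinarith [sq_nonneg (A x + B i), sq_nonneg (A x - γ), sq_nonneg (B i + γ)]
    rw [integral_add (bA.sq.const_mul 3).integrable (integrable_const _), integral_const_mul] at h2
    simp only [integral_const, probReal_univ, smul_eq_mul, one_mul] at h2
    linarith
  -- the sum over i of B i ^ 2
  have h2 : ∑ i, B i ^ 2 = Fintype.card ι * ∫ y, B (o.idx y) ^ 2 ∂P := by
    rw [o.push fun i => B i ^ 2]
    field_simp
  have hBidx : ∀ y, B (o.idx y) = (psi X o.b y - PsiK K X y) - sqd y (o.T y) +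
      (PsiK K X y - PsiK K X (o.T y)) := by
    intro y
    have := o.argmin y
    simp only [hB]
    unfold Opt.T
    linarith
  have bPT : Bdd fun y => PsiK K X (o.T y) := o.bdd_comp fun i => PsiK K X (X i)
  have h3 : ∫ y, B (o.idx y) ^ 2 ∂P ≤ 3 * ∫ y, (psi X o.b y - PsiK K X y) ^ 2 ∂P +
      3 * (128 * (TT X * √(TT X))) + 3 * (16 * K.card * Xi X K * TT X) := by
    have i1 : Bdd fun y => (psi X o.b y - PsiK K X y) ^ 2 := (bpsi.sub bP).sq
    have i2 : Integrable (fun y => 3 * (psi X o.b y - PsiK K X y) ^ 2 +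
        (3 * (128 * √(TT X)) + 3 * (16 * K.card * Xi X K)) * sqd y (o.T y)) P :=
      ((i1.const_mul 3).add (bS.const_mul _)).integrable
    have h4 : ∫ y, B (o.idx y) ^ 2 ∂P ≤ ∫ y, (3 * (psi X o.b y - PsiK K X y) ^ 2 +
        (3 * (128 * √(TT X)) + 3 * (16 * K.card * Xi X K)) * sqd y (o.T y)) ∂P := by
      apply integral_mono_Q (o.bdd_comp fun i => B i ^ 2).integrable i2
      intro y hy
      rw [hBidx y]
      have h5 : (psi X o.b y - PsiK K X y - sqd y (o.T y) + (PsiK K X y - PsiK K X (o.T y))) ^ 2 ≤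
          3 * (psi X o.b y - PsiK K X y) ^ 2 + 3 * sqd y (o.T y) ^ 2 +
            3 * (PsiK K X y - PsiK K X (o.T y)) ^ 2 := by
        nlinarith [sq_nonneg (psi X o.b y - PsiK K X y + sqd y (o.T y)),
          sq_nonneg (psi X o.b y - PsiK K X y - (PsiK K X y - PsiK K X (o.T y))),
          sq_nonneg (sqd y (o.T y) + (PsiK K X y - PsiK K X (o.T y)))]
      have h6 := PsiK_sub_sq (X := X) K y (o.T y)
      have h7 : sqd y (o.T y) ^ 2 ≤ 128 * √(TT X) * sqd y (o.T y) := by
        rw [pow_two]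
        exact mul_le_mul_of_nonneg_right (o.sqd_T_le hX y hy) (sqd_nonneg _ _)
      linarith
    rw [integral_add (i1.const_mul 3).integrable (bS.const_mul _).integrable, integral_const_mul,
      integral_const_mul, ← o.cost'] at h4
    linarith
  -- the integral of A ^ 2
  have h4 : ∫ x, A x ^ 2 ∂P ≤ 2 * ∫ y, (psi X o.b y - PsiK K X y) ^ 2 ∂P +
      2 * (512 * (TT X * √(TT X))) := by
    have i1 : Bdd fun y => (psi X o.b y - PsiK K X y) ^ 2 := (bpsi.sub bP).sq
    have h5 : ∫ x, A x ^ 2 ∂P ≤ ∫ y, (2 * (psi X o.b y - PsiK K X y) ^ 2 +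
        (2 * (512 * √(TT X))) * sqd y (o.T y)) ∂P := by
      apply integral_mono_Q bA.sq.integrable ((i1.const_mul 2).add (bS.const_mul _)).integrable
      intro y _
      have h6 := o.D_sq y
      have h7 : A y ^ 2 ≤ 2 * (psi X o.b y - PsiK K X y) ^ 2 + 2 * o.D y ^ 2 := by
        simp only [hA]
        nlinarith [sq_nonneg (psi X o.b y - PsiK K X y - o.D y)]
      linarith
    rw [integral_add (i1.const_mul 2).integrable (bS.const_mul _).integrable, integral_const_mul,
      integral_const_mul, ← o.cost'] at h5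
    linarith
  have h5 : ∑ i, ∫ x, (max (FK K X - FK K (Function.update X i x)) 0) ^ 2 ∂P ≤
      ∑ i, (3 * ∫ x, A x ^ 2 ∂P + 3 * B i ^ 2 + 3 * γ ^ 2) := Finset.sum_le_sum fun i _ => h1 i
  have h51 : ∑ i, (3 * ∫ x, A x ^ 2 ∂P + 3 * B i ^ 2 + 3 * γ ^ 2) =
      Fintype.card ι * (3 * ∫ x, A x ^ 2 ∂P) + 3 * (Fintype.card ι * ∫ y, B (o.idx y) ^ 2 ∂P) +
        Fintype.card ι * (3 * γ ^ 2) := by
    rw [Finset.sum_add_distrib, Finset.sum_add_distrib, Finset.sum_const, Finset.sum_const,
      ← Finset.mul_sum Finset.univ (fun i => B i ^ 2), h2]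
    simp only [Finset.card_univ, nsmul_eq_mul]
  rw [h51] at h5
  have h6 : (Fintype.card ι : ℝ) * (3 * γ ^ 2) = 3 * CK K ^ 2 / Fintype.card ι := by
    rw [hγ]; field_simp
  rw [h6] at h5
  refine h5.trans ?_
  have h7 : (Fintype.card ι : ℝ) * (3 * ∫ x, A x ^ 2 ∂P) + 3 * (Fintype.card ι * ∫ y, B (o.idx y) ^ 2 ∂P) =
      Fintype.card ι * (3 * ∫ x, A x ^ 2 ∂P + 3 * ∫ y, B (o.idx y) ^ 2 ∂P) := by ring
  rw [h7]
  have h8 : 3 * ∫ x, A x ^ 2 ∂P + 3 * ∫ y, B (o.idx y) ^ 2 ∂P ≤
      15 * ∫ y, (psi X o.b y - PsiK K X y) ^ 2 ∂P +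
        4224 * (TT X * √(TT X)) + 144 * K.card * Xi X K * TT X := by linarith
  have := mul_le_mul_of_nonneg_left h8 hn.le
  linarith

/-- The distance of the potential to its finite linear approximation. -/
lemma Opt.R_bound {X : ι → E} (o : Opt X) (hX : ∀ i, X i ∈ Q) (K : Finset (ℕ × ℕ)) (hK : 0 ∉ K)
    (M N : ℕ) (hM : 0 < M) (hMN : M ≤ N) (hKM : K ⊆ box M) :
    ∫ y, (psi X o.b y - PsiK K X y) ^ 2 ∂P ≤
      16 / N + 64 * K.card * TT X ^ 2 + 256 * (∑ k ∈ K, ((k.1 : ℝ) + k.2) ^ 2) / N ^ 2 +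
      16 * ∑ k ∈ (box M \ K).erase 0, av X k ^ 2 / lam k ^ 2 + 64 * M ^ 2 * TT X ^ 2 +
      8 * TT X / (π ^ 2 * M ^ 2) := by
  classical
  have hN : 0 < N := lt_of_lt_of_le hM hMN
  have hN' : (0 : ℝ) < N := by exact_mod_cast hN
  have hM' : (0 : ℝ) < M := by exact_mod_cast hM
  have hsub : box M ⊆ box N := by
    unfold box
    exact Finset.product_subset_product (Finset.range_mono hMN) (Finset.range_mono hMN)
  have hKN : K ⊆ box N := hKM.trans hsub
  have bpsi := bdd_psi X o.b
  have bP := bdd_PsiK K X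
  set a : ℕ × ℕ → ℝ := fun k => mult N k * o.c k + (if k ∈ K then 2 * av X k / lam k else 0) with ha
  have hfe : ∀ y, fejer N (psi X o.b) y - PsiK K X y = ∑ k ∈ box N, a k * e k y := by
    intro y
    unfold fejer PsiK
    have h1 : ∑ k ∈ K, -(2 * av X k / lam k) * e k y =
        ∑ k ∈ box N, (if k ∈ K then -(2 * av X k / lam k) else 0) * e k y := by
      rw [← Finset.sum_subset hKN]
      · apply Finset.sum_congr rfl
        intro k hk
        rw [if_pos hk]
      · intro k _ hk
        rw [if_neg hk, zero_mul]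
    rw [h1, ← Finset.sum_sub_distrib]
    apply Finset.sum_congr rfl
    intro k _
    simp only [ha]
    have : ∫ y, psi X o.b y * e k y ∂P = o.c k := rfl
    rw [this]
    split_ifs <;> ring
  have bfe : Bdd fun y => ∑ k ∈ box N, a k * e k y := Bdd.sum _ fun k _ => (bdd_e k).const_mul _
  -- step one
  have h1 : ∫ y, (psi X o.b y - PsiK K X y) ^ 2 ∂P ≤ 16 / N + 2 * ∑ k ∈ box N, a k ^ 2 := by
    have hp := integral_sq_sub_sum (box N) e (fun k _ => bdd_e k) (fun k _ l _ => int_e_mul_e k l) a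
    rw [← hp, ← integral_const_mul]
    have h2 : ∫ y, (psi X o.b y - PsiK K X y) ^ 2 ∂P ≤
        ∫ y, (16 / N + 2 * (∑ k ∈ box N, a k * e k y) ^ 2) ∂P := by
      apply integral_mono_Q (bpsi.sub bP).sq.integrable
        ((Bdd.const _).add (bfe.sq.const_mul 2)).integrable
      intro y hy
      have h3 := fejer_error N hN (psi X o.b) bpsi (fun x hx y hy => o.lip_abs hX x y hx hy) y hy
      have h4 : (fejer N (psi X o.b) y - psi X o.b y) ^ 2 ≤ 8 / N := by
        have := pow_le_pow_left₀ (abs_nonneg _) h3 2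
        rw [sq_abs, div_pow, Real.sq_sqrt (by positivity)] at this
        refine this.trans (le_of_eq ?_)
        field_simp
        norm_num
      rw [← hfe y]
      have e1 : (16 : ℝ) / N = 2 * (8 / N) := by ring
      rw [e1]
      nlinarith [sq_nonneg ((psi X o.b y - fejer N (psi X o.b) y) -
        (fejer N (psi X o.b) y - PsiK K X y))]
    rw [integral_add (integrable_const _) (bfe.sq.const_mul 2).integrable] at h2
    simpa using h2
  -- split the sum
  have h2 : ∑ k ∈ box N, a k ^ 2 = ∑ k ∈ K, a k ^ 2 + ∑ k ∈ (box M \ K).erase 0, a k ^ 2 +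
      ∑ k ∈ box N \ box M, a k ^ 2 := by
    have e1 : ∑ k ∈ box N, a k ^ 2 = ∑ k ∈ box N \ box M, a k ^ 2 + ∑ k ∈ box M, a k ^ 2 :=
      (Finset.sum_sdiff hsub).symm
    have e2 : ∑ k ∈ box M, a k ^ 2 = ∑ k ∈ box M \ K, a k ^ 2 + ∑ k ∈ K, a k ^ 2 :=
      (Finset.sum_sdiff hKM).symm
    have e3 : ∑ k ∈ (box M \ K).erase 0, a k ^ 2 = ∑ k ∈ box M \ K, a k ^ 2 := by
      apply Finset.sum_subset (Finset.erase_subset _ _)
      intro k hk hk'
      have : k = 0 := by
        by_contra h
        exact hk' (Finset.mem_erase.mpr ⟨h, hk⟩)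
      rw [this]
      simp only [ha, if_neg hK, o.c_zero]
      simp
    rw [e1, e2, e3]
    ring
  have h3 : ∑ k ∈ K, a k ^ 2 ≤ 32 * K.card * TT X ^ 2 +
      128 * (∑ k ∈ K, ((k.1 : ℝ) + k.2) ^ 2) / N ^ 2 := by
    have e1 : 32 * (K.card : ℝ) * TT X ^ 2 + 128 * (∑ k ∈ K, ((k.1 : ℝ) + k.2) ^ 2) / N ^ 2 =
        ∑ k ∈ K, (32 * TT X ^ 2 + 128 * (((k.1 : ℝ) + k.2) ^ 2 / N ^ 2)) := by
      rw [Finset.sum_add_distrib, ← Finset.mul_sum K (fun k => ((k.1 : ℝ) + k.2) ^ 2 / (N : ℝ) ^ 2),
        ← Finset.sum_div, Finset.sum_const, nsmul_eq_mul]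
      ring
    rw [e1]
    apply Finset.sum_le_sum
    intro k hk
    have hk0 : k ≠ 0 := fun h => hK (h ▸ hk)
    have f1 := o.lin hX k hk0
    have f2 := o.abs_c_le hX k
    have f3 := one_sub_mult_le (hKN hk)
    have f4 := mult_le_one (hKN hk)
    have f5 : |a k| ≤ 4 * TT X + 8 * (((k.1 : ℝ) + k.2) / N) := by
      have : a k = (o.c k + 2 * av X k / lam k) - (1 - mult N k) * o.c k := by
        simp only [ha, if_pos hk]; ring
      rw [this]
      refine (abs_sub _ _).trans ?_
      have g1 : |(1 - mult N k) * o.c k| ≤ (((k.1 : ℝ) + k.2) / N) * 8 := by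
        rw [abs_mul, abs_of_nonneg (by linarith : 0 ≤ 1 - mult N k)]
        exact mul_le_mul f3 f2 (abs_nonneg _) (by positivity)
      linarith
    have f6 := pow_le_pow_left₀ (abs_nonneg _) f5 2
    rw [sq_abs] at f6
    refine f6.trans ?_
    rw [← div_pow]
    nlinarith [sq_nonneg (4 * TT X - 8 * (((k.1 : ℝ) + k.2) / N))]
  have h4 : ∑ k ∈ (box M \ K).erase 0, a k ^ 2 ≤
      8 * ∑ k ∈ (box M \ K).erase 0, av X k ^ 2 / lam k ^ 2 + 32 * M ^ 2 * TT X ^ 2 := by
    have g1 : ∑ k ∈ (box M \ K).erase 0, a k ^ 2 ≤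
        ∑ k ∈ (box M \ K).erase 0, (8 * (av X k ^ 2 / lam k ^ 2) + 32 * TT X ^ 2) := by
      apply Finset.sum_le_sum
      intro k hk
      rw [Finset.mem_erase, Finset.mem_sdiff] at hk
      obtain ⟨hk0, hkM, hkK⟩ := hk
      have f1 := o.lin hX k hk0
      have f4 := mult_le_one (hsub hkM)
      have f5 := mult_nonneg (hsub hkM)
      have f6 : a k ^ 2 ≤ o.c k ^ 2 := by
        simp only [ha, if_neg hkK, add_zero, mul_pow]
        have : mult N k ^ 2 ≤ 1 := pow_le_one₀ f5 f4
        nlinarith [sq_nonneg (o.c k)]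
      refine f6.trans ?_
      have f7 := pow_le_pow_left₀ (abs_nonneg _) f1 2
      rw [sq_abs] at f7
      have f8 : (2 * av X k / lam k) ^ 2 = 4 * (av X k ^ 2 / lam k ^ 2) := by
        rw [div_pow]; ring
      nlinarith [sq_nonneg (o.c k + 2 * av X k / lam k + 2 * av X k / lam k)]
    rw [Finset.sum_add_distrib, ← Finset.mul_sum, Finset.sum_const, nsmul_eq_mul] at g1
    refine g1.trans ?_
    have g2 : (((box M \ K).erase 0).card : ℝ) ≤ M ^ 2 := by
      have : ((box M \ K).erase 0).card ≤ (box M).card :=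
        Finset.card_le_card ((Finset.erase_subset _ _).trans Finset.sdiff_subset)
      have h5 : (box M).card = M * M := by simp [box]
      rw [h5] at this
      have : (((box M \ K).erase 0).card : ℝ) ≤ ((M * M : ℕ) : ℝ) := by exact_mod_cast this
      rw [pow_two]
      push_cast at this
      exact this
    have g3 := mul_le_mul_of_nonneg_right g2 (by positivity : (0 : ℝ) ≤ 32 * TT X ^ 2)
    linarith
  have h5 : ∑ k ∈ box N \ box M, a k ^ 2 ≤ 4 * TT X / (π ^ 2 * M ^ 2) := by
    rw [le_div_iff₀ (by positivity), Finset.sum_mul]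
    refine le_trans ?_ (o.energy hX (box N \ box M))
    apply Finset.sum_le_sum
    intro k hk
    rw [Finset.mem_sdiff] at hk
    obtain ⟨hkN, hkM⟩ := hk
    have hkK : k ∉ K := fun h => hkM (hKM h)
    have f4 := mult_le_one hkN
    have f5 := mult_nonneg hkN
    have f6 : a k ^ 2 ≤ o.c k ^ 2 := by
      simp only [ha, if_neg hkK, add_zero, mul_pow]
      have : mult N k ^ 2 ≤ 1 := pow_le_one₀ f5 f4
      nlinarith [sq_nonneg (o.c k)]
    have f7 : π ^ 2 * M ^ 2 ≤ lam k := by
      unfold lam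
      apply mul_le_mul_of_nonneg_left _ (by positivity)
      have : M ≤ k.1 ∨ M ≤ k.2 := by
        by_contra hcon
        push Not at hcon
        apply hkM
        unfold box
        rw [Finset.mem_product, Finset.mem_range, Finset.mem_range]
        exact hcon
      rcases this with h | h
      · have : (M : ℝ) ≤ k.1 := by exact_mod_cast h
        have := pow_le_pow_left₀ hM'.le this 2
        nlinarith [sq_nonneg (k.2 : ℝ)]
      · have : (M : ℝ) ≤ k.2 := by exact_mod_cast h
        have := pow_le_pow_left₀ hM'.le this 2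
        nlinarith [sq_nonneg (k.1 : ℝ)]
    calc a k ^ 2 * (π ^ 2 * M ^ 2) ≤ o.c k ^ 2 * lam k :=
          mul_le_mul f6 f7 (by positivity) (sq_nonneg _)
      _ = lam k * o.c k ^ 2 := mul_comm _ _
  rw [h2] at h1
  have e5 : 8 * TT X / (π ^ 2 * M ^ 2) = 2 * (4 * TT X / (π ^ 2 * M ^ 2)) := by ring
  have e6 : 256 * (∑ k ∈ K, ((k.1 : ℝ) + k.2) ^ 2) / N ^ 2 =
    2 * (128 * (∑ k ∈ K, ((k.1 : ℝ) + k.2) ^ 2) / N ^ 2) := by ring
  rw [e5, e6]
  linarith

end Pool.Agent.H37
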