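import Pool.Agent.H37.Ledoux.Moments

set_option autoImplicit false
set_option linter.unusedSectionVars false

open MeasureTheory ProbabilityTheory Real Filter Topology

namespace Pool.Agent.H37

/-! ### Linear statistics -/

/-- The linear combination of the basis functions. -/
noncomputable def hl (K : Finset (ℕ × ℕ)) (t : EuclideanSpace ℝ K) (x : E) : ℝ :=
  ∑ k : K, t k * e k x

lemma BM_hl (K : Finset (ℕ × ℕ)) (t : EuclideanSpace ℝ K) : BM (hl K t) :=
  BM.sum _ fun k _ => (BM_e k).const_mul _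

lemma int_hl (K : Finset (ℕ × ℕ)) (hK : 0 ∉ K) (t : EuclideanSpace ℝ K) :
    ∫ x, hl K t x ∂P = 0 := by
  unfold hl
  rw [integral_finsetSum]
  · apply Finset.sum_eq_zero
    intro k _
    rw [integral_const_mul, int_e' (fun h => hK (h ▸ k.2)), mul_zero]
  · intro k _
    exact ((BM_e k).const_mul _).integrable _

lemma int_hl_sq (K : Finset (ℕ × ℕ)) (t : EuclideanSpace ℝ K) :
    ∫ x, hl K t x ^ 2 ∂P = ‖t‖ ^ 2 := by
  have h := integral_sq_sub_sum (Finset.univ : Finset K) (fun k => e k) (fun k _ => bdd_e k)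
    (fun k _ l _ => by
      rw [int_e_mul_e]
      by_cases h : k = l
      · simp [h]
      · rw [if_neg h, if_neg (fun h' => h (Subtype.ext h'))]) (fun k => t k)
  unfold hl
  rw [h, EuclideanSpace.real_norm_sq_eq]

/-- The vector of normalised empirical coefficients. -/
noncomputable def Zv (n : ℕ) (K : Finset (ℕ × ℕ)) (X : Fin (n + 1) → E) : EuclideanSpace ℝ K :=
  WithLp.toLp 2 fun k => √((n : ℝ) + 1) * av X k

lemma measurable_Zv (n : ℕ) (K : Finset (ℕ × ℕ)) : Measurable (Zv n K) := by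
  unfold Zv
  apply (WithLp.measurable_toLp 2 _).comp
  rw [measurable_pi_iff]
  intro k
  exact ((BM_av n k).const_mul _).1

lemma inner_Zv (n : ℕ) (K : Finset (ℕ × ℕ)) (X : Fin (n + 1) → E) (t : EuclideanSpace ℝ K) :
    inner ℝ (Zv n K X) t = ∑ i, (√((n : ℝ) + 1))⁻¹ * hl K t (X i) := by
  have hm : (0 : ℝ) < (n : ℝ) + 1 := by positivity
  have hs : 0 < √((n : ℝ) + 1) := Real.sqrt_pos.mpr hm
  have hss : √((n : ℝ) + 1) ^ 2 = (n : ℝ) + 1 := Real.sq_sqrt hm.le
  rw [PiLp.inner_apply]
  unfold Zv hl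
  simp only [RCLike.inner_apply, conj_trivial]
  simp_rw [Finset.mul_sum]
  rw [Finset.sum_comm]
  apply Finset.sum_congr rfl
  intro k _
  rw [av_eq]
  unfold Sm
  rw [← Finset.mul_sum, ← Finset.mul_sum]
  have : √((n : ℝ) + 1) * ((∑ i, e k (X i)) / ((n : ℝ) + 1)) =
      (√((n : ℝ) + 1))⁻¹ * ∑ i, e k (X i) := by
    nth_rw 2 [← hss]
    field_simp
  rw [this]
  ring

lemma charFun_Zv (n : ℕ) (K : Finset (ℕ × ℕ)) (t : EuclideanSpace ℝ K) :
    charFun ((Pn P (n + 1)).map (Zv n K)) t =
      (charFun (P.map (hl K t)) (√((n : ℝ) + 1))⁻¹) ^ (n + 1) := by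
  rw [charFun_apply, integral_map (measurable_Zv n K).aemeasurable (by fun_prop), charFun_apply_real,
    integral_map (BM_hl K t).1.aemeasurable (by fun_prop)]
  have h1 : ∀ X : Fin (n + 1) → E, Complex.exp ((inner ℝ (Zv n K X) t : ℝ) * Complex.I) =
      ∏ i, Complex.exp (((√((n : ℝ) + 1))⁻¹ : ℝ) * (hl K t (X i) : ℝ) * Complex.I) := by
    intro X
    rw [← Complex.exp_sum, inner_Zv]
    congr 1
    push_cast
    rw [Finset.sum_mul]
  simp_rw [h1]
  have h2 := integral_fintype_prod_eq_pow (ι := Fin (n + 1)) (𝕜 := ℂ) (μ := P)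
    (fun x : E => Complex.exp (((√((n : ℝ) + 1))⁻¹ : ℝ) * (hl K t x : ℝ) * Complex.I))
  rw [Fintype.card_fin] at h2
  exact h2

lemma tendsto_charFun_Zv (K : Finset (ℕ × ℕ)) (hK : 0 ∉ K) (t : EuclideanSpace ℝ K) :
    Tendsto (fun n => charFun ((Pn P (n + 1)).map (Zv n K)) t) atTop
      (𝓝 (charFun (stdGaussian (EuclideanSpace ℝ K)) t)) := by
  rw [charFun_stdGaussian]
  simp_rw [charFun_Zv]
  set r := ‖t‖ with hr
  by_cases hr0 : r = 0
  · have ht : t = 0 := norm_eq_zero.mp hr0
    have h1 : hl K t = fun _ => 0 := by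
      funext x
      unfold hl
      rw [ht]
      simp
    have h2 : ∀ s : ℝ, charFun (P.map (hl K t)) s = 1 := by
      intro s
      rw [h1, charFun_apply_real, integral_map (by fun_prop) (by fun_prop)]
      simp
    simp_rw [h2]
    rw [hr0]
    simp
  · have hrpos : 0 < r := lt_of_le_of_ne (norm_nonneg t) (Ne.symm hr0)
    have h1 := tendsto_charFun_inv_sqrt_mul_pow (P := P) (X := fun x => r⁻¹ * hl K t x)
      (by have := (BM_hl K t).1; fun_prop) (by
        rw [integral_const_mul, int_hl K hK, mul_zero]) (by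
        have : ((fun x => r⁻¹ * hl K t x) ^ 2) = fun x => (r⁻¹) ^ 2 * hl K t x ^ 2 := by
          funext x
          simp only [Pi.pow_apply]
          ring
        rw [this, integral_const_mul, int_hl_sq, ← hr]
        field_simp) r
    have h2 := h1.comp (tendsto_add_atTop_nat 1)
    refine h2.congr fun n => ?_
    simp only [Function.comp]
    rw [charFun_map_mul_comp (BM_hl K t).1.aemeasurable]
    congr 2
    push_cast
    field_simp

/-- Weak convergence of the normalised empirical coefficients. -/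
lemma tendsto_Zv (K : Finset (ℕ × ℕ)) (hK : 0 ∉ K)
    (f : BoundedContinuousFunction (EuclideanSpace ℝ K) ℂ) :
    Tendsto (fun n => ∫ X, f (Zv n K X) ∂(Pn P (n + 1))) atTop
      (𝓝 (∫ z, f z ∂(stdGaussian (EuclideanSpace ℝ K)))) := by
  have hp : ∀ n, IsProbabilityMeasure ((Pn P (n + 1)).map (Zv n K)) := fun n =>
    Measure.isProbabilityMeasure_map (measurable_Zv n K).aemeasurable
  let pm : ℕ → ProbabilityMeasure (EuclideanSpace ℝ K) := fun n =>
    ⟨(Pn P (n + 1)).map (Zv n K), hp n⟩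
  let p0 : ProbabilityMeasure (EuclideanSpace ℝ K) :=
    ⟨stdGaussian (EuclideanSpace ℝ K), inferInstance⟩
  have h1 : Tendsto pm atTop (𝓝 p0) :=
    ProbabilityMeasure.tendsto_iff_tendsto_charFun.mpr fun t => tendsto_charFun_Zv K hK t
  rw [ProbabilityMeasure.tendsto_iff_forall_integral_rclike_tendsto ℂ] at h1
  refine (h1 f).congr fun n => ?_
  exact integral_map (measurable_Zv n K).aemeasurable (by fun_prop)

/-! ### Quadratic statistics -/

/-- The quadratic statistic. -/
noncomputable def WK (n : ℕ) (K : Finset (ℕ × ℕ)) (X : Fin (n + 1) → E) : ℝ :=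
  ∑ k ∈ K, (((n : ℝ) + 1) * av X k ^ 2 - 1) / lam k

/-- The quadratic form. -/
noncomputable def qK (K : Finset (ℕ × ℕ)) (z : K → ℝ) : ℝ := ∑ k : K, (z k ^ 2 - 1) / lam k

lemma continuous_qK (K : Finset (ℕ × ℕ)) : Continuous (qK K) := by
  unfold qK
  fun_prop

lemma WK_eq (n : ℕ) (K : Finset (ℕ × ℕ)) (X : Fin (n + 1) → E) :
    WK n K X = qK K (Zv n K X).ofLp := by
  unfold WK qK Zv
  rw [← Finset.sum_coe_sort]
  apply Finset.sum_congr rfl
  intro k _
  simp only
  rw [mul_pow, Real.sq_sqrt (by positivity)]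

/-- The law of the finite Gaussian chaos. -/
noncomputable def gK (K : Finset (ℕ × ℕ)) : Measure ℝ :=
  (Measure.pi fun _ : K => gaussianReal 0 1).map (qK K)

instance (K : Finset (ℕ × ℕ)) : IsProbabilityMeasure (gK K) :=
  Measure.isProbabilityMeasure_map (continuous_qK K).measurable.aemeasurable

/-- The central limit theorem for the quadratic statistics. -/
theorem tendsto_WK (K : Finset (ℕ × ℕ)) (hK : 0 ∉ K) (s : ℝ) :
    Tendsto (fun n => ∫ X, Complex.exp (s * WK n K X * Complex.I) ∂(Pn P (n + 1))) atTop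
      (𝓝 (charFun (gK K) s)) := by
  have hc : Continuous fun z : EuclideanSpace ℝ K => Complex.exp (s * qK K z.ofLp * Complex.I) := by
    have h1 := (continuous_qK K).comp (PiLp.continuous_ofLp 2 fun _ : K => ℝ)
    have h2 : Continuous fun z : EuclideanSpace ℝ K => qK K z.ofLp := h1
    fun_prop
  set f : BoundedContinuousFunction (EuclideanSpace ℝ K) ℂ :=
    BoundedContinuousFunction.ofNormedAddCommGroup _ hc 1 (fun z => by
      have : (s * qK K z.ofLp * Complex.I : ℂ) = ((s * qK K z.ofLp : ℝ) : ℂ) * Complex.I := by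
        push_cast; ring
      rw [this, Complex.norm_exp_ofReal_mul_I]) with hf
  have h1 := tendsto_Zv K hK f
  have h2 : ∫ z, f z ∂(stdGaussian (EuclideanSpace ℝ K)) = charFun (gK K) s := by
    rw [charFun_apply_real]
    unfold gK
    rw [integral_map (continuous_qK K).measurable.aemeasurable (by fun_prop),
      ← map_pi_eq_stdGaussian, integral_map (WithLp.measurable_toLp 2 _).aemeasurable (by fun_prop)]
    rfl
  rw [← h2]
  refine h1.congr fun n => ?_
  congr 1
  funext X
  rw [WK_eq]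
  rfl

end Pool.Agent.H37
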