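import Pool.Agent.H37.Ledoux.Basic

set_option autoImplicit false

open MeasureTheory Real

namespace Pool.Agent.H37

/-! ### One-dimensional cosine system -/

/-- The normalised cosines on the unit interval. -/
noncomputable def C (j : ℕ) (t : ℝ) : ℝ := if j = 0 then 1 else √2 * cos (π * j * t)

/-- The normalised sines on the unit interval. -/
noncomputable def S (j : ℕ) (t : ℝ) : ℝ := √2 * sin (π * j * t)

lemma sqrt_two_mul_self : √2 * √2 = 2 := Real.mul_self_sqrt (by norm_num)

@[fun_prop]
lemma continuous_C (j : ℕ) : Continuous (C j) := by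
  unfold C
  by_cases h : j = 0
  · simp only [h, if_true]; fun_prop
  · simp only [h, if_false]; fun_prop

@[fun_prop]
lemma continuous_S (j : ℕ) : Continuous (S j) := by unfold S; fun_prop

lemma abs_C_le (j : ℕ) (t : ℝ) : |C j t| ≤ √2 := by
  unfold C
  by_cases h : j = 0
  · simp only [h, if_true, abs_one]
    exact Real.one_le_sqrt.mpr (by norm_num)
  · simp only [h, if_false]
    rw [abs_mul, abs_of_nonneg (Real.sqrt_nonneg 2)]
    calc √2 * |cos (π * j * t)| ≤ √2 * 1 :=
          mul_le_mul_of_nonneg_left (abs_cos_le_one _) (Real.sqrt_nonneg 2)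
      _ = √2 := mul_one _

lemma abs_S_le (j : ℕ) (t : ℝ) : |S j t| ≤ √2 := by
  unfold S
  rw [abs_mul, abs_of_nonneg (Real.sqrt_nonneg 2)]
  calc √2 * |sin (π * j * t)| ≤ √2 * 1 :=
        mul_le_mul_of_nonneg_left (abs_sin_le_one _) (Real.sqrt_nonneg 2)
    _ = √2 := mul_one _

lemma hasDerivAt_C (j : ℕ) (t : ℝ) : HasDerivAt (C j) (-(π * j) * S j t) t := by
  unfold C S
  by_cases h : j = 0
  · subst h
    simp only [if_true, Nat.cast_zero, mul_zero, neg_zero, zero_mul]
    exact hasDerivAt_const t 1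
  · simp only [h, if_false]
    have h1 : HasDerivAt (fun t : ℝ => π * j * t) (π * j) t := by
      simpa using (hasDerivAt_id t).const_mul (π * j)
    exact ((h1.cos).const_mul (√2)).congr_deriv (by ring)

lemma hasDerivAt_S (j : ℕ) (t : ℝ) : HasDerivAt (S j) (π * j * (√2 * cos (π * j * t))) t := by
  unfold S
  have h1 : HasDerivAt (fun t : ℝ => π * j * t) (π * j) t := by
    simpa using (hasDerivAt_id t).const_mul (π * j)
  exact ((h1.sin).const_mul (√2)).congr_deriv (by ring)

lemma S_zero_right (j : ℕ) : S j 0 = 0 := by simp [S]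

lemma S_one_right (j : ℕ) : S j 1 = 0 := by
  unfold S
  rw [mul_one, mul_comm π, sin_nat_mul_pi, mul_zero]

lemma nu_integral (f : ℝ → ℝ) : ∫ t, f t ∂nu = ∫ t in (0 : ℝ)..1, f t := by
  unfold nu
  rw [integral_Icc_eq_integral_Ioc, intervalIntegral.integral_of_le zero_le_one]

lemma nu_integrable {f : ℝ → ℝ} (hf : Continuous f) : Integrable f nu :=
  hf.integrableOn_Icc

lemma int_cos (m : ℤ) : ∫ t, cos (π * m * t) ∂nu = if m = 0 then 1 else 0 := by
  by_cases h : m = 0
  · simp [h]
  · simp only [h, if_false]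
    rw [nu_integral]
    have hm : (π * m : ℝ) ≠ 0 := mul_ne_zero pi_ne_zero (by exact_mod_cast h)
    rw [intervalIntegral.integral_comp_mul_left (fun x => cos x) hm]
    rw [integral_cos, mul_one, mul_zero, sin_zero, sub_zero, mul_comm π, sin_int_mul_pi]
    simp

lemma cos_mul_cos' (a b : ℝ) : cos a * cos b = (cos (a - b) + cos (a + b)) / 2 := by
  rw [cos_sub, cos_add]; ring

lemma sin_mul_sin' (a b : ℝ) : sin a * sin b = (cos (a - b) - cos (a + b)) / 2 := by
  rw [cos_sub, cos_add]; ring

lemma int_cos_mul_cos (i j : ℕ) : ∫ t, cos (π * i * t) * cos (π * j * t) ∂nu =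
    ((if (i : ℤ) - j = 0 then 1 else 0) + (if (i : ℤ) + j = 0 then 1 else 0)) / 2 := by
  rw [← int_cos, ← int_cos, ← integral_add, ← integral_div]
  · congr 1
    funext t
    rw [cos_mul_cos']
    push_cast
    ring_nf
  · exact nu_integrable (by fun_prop)
  · exact nu_integrable (by fun_prop)

lemma int_sin_mul_sin (i j : ℕ) : ∫ t, sin (π * i * t) * sin (π * j * t) ∂nu =
    ((if (i : ℤ) - j = 0 then 1 else 0) - (if (i : ℤ) + j = 0 then 1 else 0)) / 2 := by
  rw [← int_cos, ← int_cos, ← integral_sub, ← integral_div]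
  · congr 1
    funext t
    rw [sin_mul_sin']
    push_cast
    ring_nf
  · exact nu_integrable (by fun_prop)
  · exact nu_integrable (by fun_prop)

lemma int_C_mul_C (i j : ℕ) : ∫ t, C i t * C j t ∂nu = if i = j then 1 else 0 := by
  unfold C
  by_cases hi : i = 0
  · by_cases hj : j = 0
    · simp [hi, hj]
    · have hj' : ¬ (0 = j) := fun h => hj h.symm
      simp only [hi, hj, hj', if_true, if_false, one_mul]
      rw [integral_const_mul]
      have := int_cos (j : ℤ)
      simp only [Int.cast_natCast, Nat.cast_eq_zero, hj, if_false] at this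
      rw [this, mul_zero]
  · by_cases hj : j = 0
    · simp only [hi, hj, if_true, if_false, mul_one]
      rw [integral_const_mul]
      have := int_cos (i : ℤ)
      simp only [Int.cast_natCast, Nat.cast_eq_zero, hi, if_false] at this
      rw [this, mul_zero]
    · simp only [hi, hj, if_false]
      have h1 : (fun t : ℝ => √2 * cos (π * i * t) * (√2 * cos (π * j * t))) =
          fun t => 2 * (cos (π * i * t) * cos (π * j * t)) := by
        funext t
        linear_combination (cos (π * i * t) * cos (π * j * t)) * sqrt_two_mul_self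
      rw [h1, integral_const_mul, int_cos_mul_cos]
      have h2 : (i : ℤ) + j ≠ 0 := by omega
      rw [if_neg h2]
      by_cases hij : i = j
      · simp [hij]
      · have h3 : (i : ℤ) - j ≠ 0 := by omega
        rw [if_neg h3, if_neg hij]
        simp

lemma int_S_mul_S (i j : ℕ) (hi : i ≠ 0) : ∫ t, S i t * S j t ∂nu = if i = j then 1 else 0 := by
  unfold S
  have h1 : (fun t : ℝ => √2 * sin (π * i * t) * (√2 * sin (π * j * t))) =
      fun t => 2 * (sin (π * i * t) * sin (π * j * t)) := by
    funext t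
    linear_combination (sin (π * i * t) * sin (π * j * t)) * sqrt_two_mul_self
  rw [h1, integral_const_mul, int_sin_mul_sin]
  have h2 : (i : ℤ) + j ≠ 0 := by omega
  rw [if_neg h2]
  by_cases hij : i = j
  · simp [hij]
  · have h3 : (i : ℤ) - j ≠ 0 := by omega
    rw [if_neg h3, if_neg hij]
    simp

/-! ### The Fejer kernel -/

lemma double_sum_even (g : ℤ → ℝ) (hg : ∀ m, g (-m) = g m) (N : ℕ) :
    ∑ i ∈ Finset.range N, ∑ j ∈ Finset.range N, g ((i : ℤ) - j) =
      ∑ d ∈ Finset.range N, ((N : ℝ) - d) * (if d = 0 then 1 else 2) * g d := by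
  induction N with
  | zero => simp
  | succ N ih =>
    have h1 : ∑ i ∈ Finset.range (N + 1), ∑ j ∈ Finset.range (N + 1), g ((i : ℤ) - j) =
        ∑ i ∈ Finset.range N, ∑ j ∈ Finset.range N, g ((i : ℤ) - j) +
        2 * ∑ i ∈ Finset.range N, g ((N : ℤ) - i) + g 0 := by
      rw [Finset.sum_range_succ]
      simp_rw [Finset.sum_range_succ]
      rw [Finset.sum_add_distrib]
      have h2 : ∑ i ∈ Finset.range N, g ((i : ℤ) - N) = ∑ i ∈ Finset.range N, g ((N : ℤ) - i) := by
        apply Finset.sum_congr rfl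
        intro i _
        rw [← hg]
        congr 1
        ring
      rw [h2]
      simp only [sub_self]
      ring
    have h3 : ∑ i ∈ Finset.range N, g ((N : ℤ) - i) = ∑ d ∈ Finset.range N, g ((d : ℤ) + 1) := by
      rw [← Finset.sum_range_reflect]
      apply Finset.sum_congr rfl
      intro d hd
      rw [Finset.mem_range] at hd
      congr 1
      push_cast [Nat.cast_sub (show d ≤ N - 1 by omega), Nat.cast_sub (show 1 ≤ N by omega)]
      ring
    have h4 : ∑ d ∈ Finset.range (N + 1), (((N + 1 : ℕ) : ℝ) - d) * (if d = 0 then 1 else 2) * g d =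
        ∑ d ∈ Finset.range N, ((N : ℝ) - d) * (if d = 0 then 1 else 2) * g d +
        ∑ d ∈ Finset.range (N + 1), (if d = 0 then 1 else 2) * g d := by
      have h5 : ∀ d : ℕ, (((N + 1 : ℕ) : ℝ) - d) * (if d = 0 then 1 else 2) * g d =
        ((N : ℝ) - d) * (if d = 0 then 1 else 2) * g d + (if d = 0 then 1 else 2) * g d := by
        intro d; push_cast; ring
      simp_rw [h5]
      rw [Finset.sum_add_distrib]
      congr 1
      rw [Finset.sum_range_succ]
      simp
    rw [h1, h3, h4, ih, Finset.sum_range_succ']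
    simp only [Nat.cast_add, Nat.cast_one, Nat.cast_zero, Nat.succ_ne_zero, if_false, if_true,
      one_mul]
    rw [Finset.mul_sum]
    ring

/-- The weights of the Fejer kernel. -/
noncomputable def fw (N d : ℕ) : ℝ := 1 - d / N

/-- The Fejer kernel. -/
noncomputable def F (N : ℕ) (u : ℝ) : ℝ :=
  ∑ d ∈ Finset.range N, fw N d * (if d = 0 then 1 else 2) * cos (π * d * u)

@[fun_prop]
lemma continuous_F (N : ℕ) : Continuous (F N) := by unfold F; fun_prop

lemma F_nonneg (N : ℕ) (hN : 0 < N) (u : ℝ) : 0 ≤ F N u := by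
  have hN' : (0 : ℝ) < N := by exact_mod_cast hN
  have h1 : (N : ℝ) * F N u = ∑ i ∈ Finset.range N, ∑ j ∈ Finset.range N,
      cos (π * ((i : ℤ) - j : ℤ) * u) := by
    rw [double_sum_even (fun m : ℤ => cos (π * m * u)) (by
      intro m
      push_cast
      rw [← cos_neg]
      congr 1
      ring)]
    unfold F fw
    rw [Finset.mul_sum]
    apply Finset.sum_congr rfl
    intro d _
    push_cast
    field_simp
  have h2 : ∑ i ∈ Finset.range N, ∑ j ∈ Finset.range N, cos (π * ((i : ℤ) - j : ℤ) * u) =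
      (∑ i ∈ Finset.range N, cos (π * i * u)) ^ 2 + (∑ i ∈ Finset.range N, sin (π * i * u)) ^ 2 := by
    rw [sq, sq, Finset.sum_mul_sum, Finset.sum_mul_sum, ← Finset.sum_add_distrib]
    apply Finset.sum_congr rfl
    intro i _
    rw [← Finset.sum_add_distrib]
    apply Finset.sum_congr rfl
    intro j _
    push_cast
    rw [← cos_sub]
    congr 1
    ring
  have h3 : 0 ≤ (N : ℝ) * F N u := by rw [h1, h2]; positivity
  exact nonneg_of_mul_nonneg_right h3 hN'

/-- The reflected Fejer kernel. -/
noncomputable def KN (N : ℕ) (s t : ℝ) : ℝ := ∑ d ∈ Finset.range N, fw N d * (C d s * C d t)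

lemma KN_eq (N : ℕ) (s t : ℝ) : KN N s t = (F N (s - t) + F N (s + t)) / 2 := by
  unfold KN F
  rw [← Finset.sum_add_distrib, Finset.sum_div]
  apply Finset.sum_congr rfl
  intro d _
  unfold C
  by_cases h : d = 0
  · simp [h]
  · simp only [h, if_false]
    have h1 : cos (π * d * (s - t)) + cos (π * d * (s + t)) = 2 * (cos (π * d * s) * cos (π * d * t)) := by
      rw [cos_mul_cos']
      ring_nf
    linear_combination (fw N d * cos (π * d * s) * cos (π * d * t)) * sqrt_two_mul_self
      - fw N d * h1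

lemma KN_nonneg (N : ℕ) (hN : 0 < N) (s t : ℝ) : 0 ≤ KN N s t := by
  rw [KN_eq]
  have := F_nonneg N hN (s - t)
  have := F_nonneg N hN (s + t)
  linarith

@[fun_prop]
lemma continuous_KN (N : ℕ) (s : ℝ) : Continuous (KN N s) := by unfold KN; fun_prop

lemma int_KN (N : ℕ) (hN : 0 < N) (s : ℝ) : ∫ t, KN N s t ∂nu = 1 := by
  unfold KN
  rw [integral_finsetSum]
  · have h1 : ∀ d ∈ Finset.range N, ∫ t, fw N d * (C d s * C d t) ∂nu = if d = 0 then 1 else 0 := by
      intro d _
      rw [integral_const_mul, integral_const_mul]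
      have h2 : ∫ t, C d t ∂nu = if d = 0 then 1 else 0 := by
        have := int_C_mul_C 0 d
        simp only [C, if_true, one_mul] at this ⊢
        rw [this]
        simp [eq_comm]
      rw [h2]
      by_cases h : d = 0
      · simp [h, fw, C]
      · simp [h]
    rw [Finset.sum_congr rfl h1, Finset.sum_ite_eq']
    simp [hN]
  · intro d _
    exact nu_integrable (by fun_prop)

/-- The reflected average of a function. -/
lemma avg_cos (m : ℤ) (s : ℝ) :
    ∫ t, (cos (π * m * (s - t)) + cos (π * m * (s + t))) / 2 ∂nu = if m = 0 then 1 else 0 := by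
  have h1 : (fun t : ℝ => (cos (π * m * (s - t)) + cos (π * m * (s + t))) / 2) =
      fun t => cos (π * m * s) * cos (π * m * t) := by
    funext t
    rw [cos_mul_cos']
    ring_nf
  rw [h1, integral_const_mul, int_cos]
  by_cases h : m = 0
  · simp [h]
  · simp [h]

lemma one_sub_cos_ge (u : ℝ) (h : |u| ≤ 1) : 2 * u ^ 2 ≤ 1 - cos (π * u) := by
  have h1 : cos (π * u) = 1 - 2 * sin (π * u / 2) ^ 2 := by
    have := cos_two_mul' (π * u / 2)
    have h2 := cos_sq_add_sin_sq (π * u / 2)
    have h3 : 2 * (π * u / 2) = π * u := by ring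
    rw [h3] at this
    linarith
  rw [h1]
  have h2 : u ^ 2 ≤ sin (π * u / 2) ^ 2 := by
    have h3 : |u| ≤ |sin (π * u / 2)| := by
      have h4 : |sin (π * u / 2)| = sin (π * |u| / 2) := by
        rcases abs_cases u with ⟨h5, h6⟩ | ⟨h5, h6⟩
        · rw [h5, abs_of_nonneg]
          apply sin_nonneg_of_nonneg_of_le_pi
          · positivity
          · rw [h5] at h
            nlinarith [pi_pos]
        · rw [h5]
          have : π * -u / 2 = -(π * u / 2) := by ring
          rw [this, sin_neg, abs_of_nonpos]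
          apply sin_nonpos_of_nonpos_of_neg_pi_le
          · nlinarith [pi_pos]
          · rw [h5] at h
            nlinarith [pi_pos]
      rw [h4]
      have h5 := mul_le_sin (x := π * |u| / 2) (by positivity) (by nlinarith [pi_pos, abs_nonneg u])
      calc |u| = 2 / π * (π * |u| / 2) := by field_simp
        _ ≤ _ := h5
    exact sq_le_sq.mpr h3
  linarith

lemma avg_H (N : ℕ) (hN : 0 < N) (s : ℝ) :
    ∫ t, ((1 - cos (π * (s - t))) * F N (s - t) + (1 - cos (π * (s + t))) * F N (s + t)) / 2 ∂nu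
      = 1 / N := by
  have hN' : (0 : ℝ) < N := by exact_mod_cast hN
  -- the product of the two cosines
  have h1 : ∀ u : ℝ, (1 - cos (π * u)) * F N u = ∑ d ∈ Finset.range N,
      fw N d * (if d = 0 then 1 else 2) * (cos (π * (d : ℤ) * u) -
        (cos (π * ((d : ℤ) - 1 : ℤ) * u) + cos (π * ((d : ℤ) + 1 : ℤ) * u)) / 2) := by
    intro u
    unfold F
    rw [Finset.mul_sum]
    apply Finset.sum_congr rfl
    intro d _
    have h2 : cos (π * d * u) * cos (π * u) =
        (cos (π * ((d : ℤ) - 1 : ℤ) * u) + cos (π * ((d : ℤ) + 1 : ℤ) * u)) / 2 := by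
      rw [cos_mul_cos']
      push_cast
      ring_nf
    rw [← h2]
    push_cast
    ring
  obtain ⟨A, hA⟩ : ∃ A : ℤ → ℝ → ℝ, ∀ m t, A m t =
      (cos (π * m * (s - t)) + cos (π * m * (s + t))) / 2 := ⟨_, fun _ _ => rfl⟩
  have hAc : ∀ m, Integrable (A m) nu := by
    intro m
    apply nu_integrable
    have : A m = fun t => (cos (π * m * (s - t)) + cos (π * m * (s + t))) / 2 := by
      funext t; exact hA m t
    rw [this]
    fun_prop
  have hAi : ∀ m, ∫ t, A m t ∂nu = if m = 0 then 1 else 0 := by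
    intro m
    rw [← avg_cos m s]
    congr 1
    funext t
    exact hA m t
  have h3 : (fun t : ℝ => ((1 - cos (π * (s - t))) * F N (s - t) +
      (1 - cos (π * (s + t))) * F N (s + t)) / 2) = fun t => ∑ d ∈ Finset.range N,
      (fw N d * (if d = 0 then 1 else 2)) * (A d t - (A ((d : ℤ) - 1) t + A ((d : ℤ) + 1) t) / 2) := by
    funext t
    rw [h1, h1, ← Finset.sum_add_distrib, Finset.sum_div]
    apply Finset.sum_congr rfl
    intro d _
    rw [hA, hA, hA]
    ring
  rw [h3, integral_finsetSum]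
  · have h4 : ∀ d ∈ Finset.range N, ∫ t, (fw N d * (if d = 0 then 1 else 2)) *
        (A d t - (A ((d : ℤ) - 1) t + A ((d : ℤ) + 1) t) / 2) ∂nu =
          (if d = 0 then 1 else 0) - (if d = 1 then 1 - 1 / (N : ℝ) else 0) := by
      intro d _
      have e1 : Integrable (fun t => (A ((d : ℤ) - 1) t + A ((d : ℤ) + 1) t) / 2) nu :=
        ((hAc _).add (hAc _)).div_const 2
      rw [integral_const_mul, integral_sub (hAc _) e1,
        integral_div, integral_add (hAc _) (hAc _), hAi, hAi, hAi]
      by_cases h0 : d = 0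
      · subst h0
        simp [fw]
      · have h0' : (d : ℤ) ≠ 0 := by exact_mod_cast h0
        have h0'' : (d : ℤ) + 1 ≠ 0 := by omega
        by_cases h5 : d = 1
        · subst h5
          simp [fw]
        · have h5' : (d : ℤ) - 1 ≠ 0 := by omega
          simp only [h0, h5, h0', h0'', h5', if_false]
          ring
    rw [Finset.sum_congr rfl h4, Finset.sum_sub_distrib, Finset.sum_ite_eq', Finset.sum_ite_eq']
    simp only [Finset.mem_range, hN, if_true]
    by_cases h1N : 1 < N
    · simp [h1N]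
    · have : N = 1 := by omega
      subst this
      simp
  · intro d _
    exact ((hAc _).sub (((hAc _).add (hAc _)).div_const 2)).const_mul _

lemma second_moment (N : ℕ) (hN : 0 < N) (s : ℝ) (hs : s ∈ Set.Icc (0 : ℝ) 1) :
    ∫ t, (s - t) ^ 2 * KN N s t ∂nu ≤ 1 / (2 * N) := by
  have h1 : ∫ t, (s - t) ^ 2 * KN N s t ∂nu ≤ ∫ t, ((1 - cos (π * (s - t))) * F N (s - t) +
      (1 - cos (π * (s + t))) * F N (s + t)) / 2 * (1 / 2) ∂nu := by
    apply integral_mono_ae (nu_integrable (by fun_prop)) (nu_integrable (by fun_prop))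
    have : ∀ᵐ t ∂nu, t ∈ Set.Icc (0 : ℝ) 1 := by unfold nu; exact ae_restrict_mem measurableSet_Icc
    filter_upwards [this] with t ht
    rw [KN_eq]
    have h2 : 2 * (s - t) ^ 2 ≤ 1 - cos (π * (s - t)) := by
      apply one_sub_cos_ge
      rw [abs_le]
      constructor <;> linarith [hs.1, hs.2, ht.1, ht.2]
    have h3 : 2 * (s - t) ^ 2 ≤ 1 - cos (π * (s + t)) := by
      by_cases h : s + t ≤ 1
      · have h4 := one_sub_cos_ge (s + t) (by rw [abs_le]; constructor <;> linarith [hs.1, ht.1])
        have h5 : (s - t) ^ 2 ≤ (s + t) ^ 2 := by nlinarith [mul_nonneg hs.1 ht.1]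
        linarith
      · push Not at h
        have h4 := one_sub_cos_ge (2 - (s + t)) (by
          rw [abs_le]; constructor <;> linarith [hs.2, ht.2])
        have h5 : cos (π * (2 - (s + t))) = cos (π * (s + t)) := by
          have : π * (2 - (s + t)) = 2 * π - π * (s + t) := by ring
          rw [this, cos_two_pi_sub]
        rw [h5] at h4
        have h6 : (s - t) ^ 2 ≤ (2 - (s + t)) ^ 2 := by
          nlinarith [mul_nonneg (sub_nonneg.mpr hs.2) (sub_nonneg.mpr ht.2)]
        linarith
    have h4 := mul_le_mul_of_nonneg_right h2 (F_nonneg N hN (s - t))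
    have h5 := mul_le_mul_of_nonneg_right h3 (F_nonneg N hN (s + t))
    nlinarith
  refine h1.trans (le_of_eq ?_)
  rw [integral_mul_const, avg_H N hN s]
  field_simp

lemma first_moment (N : ℕ) (hN : 0 < N) (s : ℝ) (hs : s ∈ Set.Icc (0 : ℝ) 1) :
    ∫ t, |t - s| * KN N s t ∂nu ≤ 1 / √(2 * N) := by
  have hN' : (0 : ℝ) < N := by exact_mod_cast hN
  set ε : ℝ := 1 / √(2 * N) with hε
  have hs0 : 0 < √(2 * (N : ℝ)) := Real.sqrt_pos.mpr (by positivity)
  have hε0 : 0 < ε := by positivity
  have hε2 : ε ^ 2 = 1 / (2 * N) := by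
    rw [hε, div_pow, one_pow, Real.sq_sqrt (by positivity)]
  have h1 : ∫ t, |t - s| * KN N s t ∂nu ≤
      ∫ t, (ε / 2 * KN N s t + 1 / (2 * ε) * ((s - t) ^ 2 * KN N s t)) ∂nu := by
    apply integral_mono (nu_integrable (by fun_prop)) (nu_integrable (by fun_prop))
    intro t
    have h2 : |t - s| ≤ ε / 2 + 1 / (2 * ε) * (s - t) ^ 2 := by
      have h3 : (s - t) ^ 2 = |t - s| ^ 2 := by rw [sq_abs]; ring
      rw [h3]
      have h4 : 0 ≤ (|t - s| - ε) ^ 2 := sq_nonneg _
      have h5 : ε / 2 + 1 / (2 * ε) * |t - s| ^ 2 - |t - s| = (|t - s| - ε) ^ 2 / (2 * ε) := by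
        field_simp
        ring
      have h6 : 0 ≤ (|t - s| - ε) ^ 2 / (2 * ε) := by positivity
      linarith
    have h3 := mul_le_mul_of_nonneg_right h2 (KN_nonneg N hN s t)
    show |t - s| * KN N s t ≤ ε / 2 * KN N s t + 1 / (2 * ε) * ((s - t) ^ 2 * KN N s t)
    linarith
  rw [integral_add (nu_integrable (by fun_prop)) (nu_integrable (by fun_prop)),
    integral_const_mul, integral_const_mul, int_KN N hN s] at h1
  have h2 := second_moment N hN s hs
  rw [← hε2] at h2
  have h3 : 1 / (2 * ε) * ∫ t, (s - t) ^ 2 * KN N s t ∂nu ≤ 1 / (2 * ε) * ε ^ 2 :=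
    mul_le_mul_of_nonneg_left h2 (by positivity)
  have h4 : 1 / (2 * ε) * ε ^ 2 = ε / 2 := by field_simp
  linarith

end Pool.Agent.H37
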