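import Pool.Agent.H37.Ledoux.SemiDiscrete

set_option autoImplicit false
set_option linter.unusedSectionVars false

open MeasureTheory

namespace Pool.Agent.H37

variable {ι : Type} [Fintype ι] [Nonempty ι]

/-- The optimal map. -/
def Opt.T {X : ι → E} (o : Opt X) (y : E) : E := X (o.idx y)

lemma Opt.measurable_comp {X : ι → E} (o : Opt X) {α : Type} [MeasurableSpace α] (F : ι → α) :
    Measurable fun y => F (o.idx y) := (@measurable_from_top ι α _ F).comp o.meas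

lemma Opt.measurable_T {X : ι → E} (o : Opt X) : Measurable o.T := o.measurable_comp X

lemma Opt.T_mem {X : ι → E} (o : Opt X) (hX : ∀ i, X i ∈ Q) (y : E) : o.T y ∈ Q := hX _

lemma Opt.cost' {X : ι → E} (o : Opt X) : TT X = ∫ y, sqd y (o.T y) ∂P := o.cost

lemma Opt.integrable_sqd {X : ι → E} (o : Opt X) (hX : ∀ i, X i ∈ Q) :
    Integrable (fun y => sqd y (o.T y)) P := by
  apply integrable_of_bound (measurable_sqd measurable_id o.measurable_T) 2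
  intro y hy
  rw [abs_of_nonneg (sqd_nonneg _ _)]
  exact sqd_le_two hy (hX _)

/-- Contact inequality: monotonicity of the optimal plan. -/
lemma Opt.contact {X : ι → E} (o : Opt X) (x p : E)
    (h : ∀ y ∈ Q, psi X o.b y - sqd x y ≤ psi X o.b p - sqd x p) (y : E) (hy : y ∈ Q) :
    0 ≤ ((o.T y).1 - x.1) * (y.1 - p.1) + ((o.T y).2 - x.2) * (y.2 - p.2) := by
  have h1 := h y hy
  have h2 := o.argmin y
  have h3 := psi_le X o.b p (o.idx y)
  have h4 : sqd y (o.T y) + sqd x p ≤ sqd p (o.T y) + sqd x y := by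
    unfold Opt.T
    linarith
  unfold sqd at h4
  linarith

lemma Opt.contact_self {X : ι → E} (o : Opt X) (p y : E) :
    0 ≤ ((o.T y).1 - (o.T p).1) * (y.1 - p.1) + ((o.T y).2 - (o.T p).2) * (y.2 - p.2) := by
  have h1 := o.argmin y
  have h2 := o.argmin p
  have h3 := psi_le X o.b p (o.idx y)
  have h4 := psi_le X o.b y (o.idx p)
  have h5 : sqd y (o.T y) + sqd p (o.T p) ≤ sqd p (o.T y) + sqd y (o.T p) := by
    unfold Opt.T
    linarith
  unfold sqd at h5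
  linarith

/-- One-dimensional geometry: an interval of length `ρ / 8` inside the unit interval next to `p`. -/
lemma exists_side (p ρ : ℝ) (hp0 : 0 ≤ p) (hp1 : p ≤ 1) (hρ0 : 0 ≤ ρ) (hρ1 : ρ ≤ 1) :
    ∃ a, Set.Icc a (a + ρ / 8) ⊆ Set.Icc 0 1 ∧ ∀ z ∈ Set.Icc a (a + ρ / 8), |z - p| ≤ ρ / 8 := by
  by_cases h : p ≤ 1 / 2
  · refine ⟨p, fun z hz => ⟨by linarith [hz.1], by linarith [hz.2]⟩, fun z hz => ?_⟩
    rw [abs_le]
    constructor <;> linarith [hz.1, hz.2]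
  · push Not at h
    refine ⟨p - ρ / 8, fun z hz => ⟨by linarith [hz.1], by linarith [hz.2]⟩, fun z hz => ?_⟩
    rw [abs_le]
    constructor <;> linarith [hz.1, hz.2]

/-- One-dimensional geometry: an interval of length `|v| / 4` between `p + v/4` and `p + v/2`. -/
lemma exists_mid (p v : ℝ) (hp0 : 0 ≤ p) (hp1 : p ≤ 1) (hq0 : 0 ≤ p + v) (hq1 : p + v ≤ 1) :
    ∃ a, Set.Icc a (a + |v| / 4) ⊆ Set.Icc 0 1 ∧
      ∀ z ∈ Set.Icc a (a + |v| / 4), ∃ θ : ℝ, 1 / 4 ≤ θ ∧ θ ≤ 1 / 2 ∧ z - p = θ * v := by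
  rcases lt_trichotomy v 0 with hv | hv | hv
  · refine ⟨p + v / 2, fun z hz => ?_, fun z hz => ⟨(z - p) / v, ?_, ?_, ?_⟩⟩
    · rw [abs_of_neg hv] at hz
      constructor <;> linarith [hz.1, hz.2]
    · rw [abs_of_neg hv] at hz
      rw [le_div_iff_of_neg hv]
      linarith [hz.1, hz.2]
    · rw [abs_of_neg hv] at hz
      rw [div_le_iff_of_neg hv]
      linarith [hz.1, hz.2]
    · have := hv.ne
      field_simp
  · subst hv
    refine ⟨p, fun z hz => ?_, fun z hz => ⟨1 / 4, le_refl _, by norm_num, ?_⟩⟩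
    · simp only [abs_zero, zero_div, add_zero] at hz
      constructor <;> linarith [hz.1, hz.2]
    · simp only [abs_zero, zero_div, add_zero] at hz
      linarith [hz.1, hz.2]
  · refine ⟨p + v / 4, fun z hz => ?_, fun z hz => ⟨(z - p) / v, ?_, ?_, ?_⟩⟩
    · rw [abs_of_pos hv] at hz
      constructor <;> linarith [hz.1, hz.2]
    · rw [abs_of_pos hv] at hz
      rw [le_div_iff₀ hv]
      linarith [hz.1, hz.2]
    · rw [abs_of_pos hv] at hz
      rw [div_le_iff₀ hv]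
      linarith [hz.1, hz.2]
    · field_simp

/-- The algebraic core of the displacement estimate. -/
lemma disp_core (D1 D2 v1 v2 θ z2 ρ : ℝ) (hρ : 0 ≤ ρ) (hv1 : |v1| = ρ) (hv2 : |v2| ≤ ρ)
    (hθ0 : 1 / 4 ≤ θ) (hθ1 : θ ≤ 1 / 2) (hz2 : |z2| ≤ ρ / 8)
    (h : 0 ≤ (D1 + θ * v1 - v1) * (θ * v1) + (D2 + z2 - v2) * z2) :
    ρ ^ 2 / 128 ≤ D1 ^ 2 + D2 ^ 2 := by
  have h1 : v1 ^ 2 = ρ ^ 2 := by rw [← hv1, sq_abs]
  have h2 : z2 ^ 2 ≤ (ρ / 8) ^ 2 := by rw [← sq_abs]; exact pow_le_pow_left₀ (abs_nonneg _) hz2 2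
  have h3 : -(ρ * (ρ / 8)) ≤ v2 * z2 := by
    have : |v2 * z2| ≤ ρ * (ρ / 8) := by
      rw [abs_mul]; exact mul_le_mul hv2 hz2 (abs_nonneg _) hρ
    linarith [neg_abs_le (v2 * z2)]
  -- D . z ≥ (3/64) ρ²
  have h4 : 3 / 64 * ρ ^ 2 ≤ D1 * (θ * v1) + D2 * z2 := by
    have e : (D1 + θ * v1 - v1) * (θ * v1) + (D2 + z2 - v2) * z2 =
      (D1 * (θ * v1) + D2 * z2) + (θ ^ 2 - θ) * v1 ^ 2 + z2 ^ 2 - v2 * z2 := by ring
    rw [e, h1] at h
    have h5 : (θ ^ 2 - θ) * ρ ^ 2 ≤ -(3 / 16) * ρ ^ 2 := by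
      apply mul_le_mul_of_nonneg_right _ (sq_nonneg _)
      nlinarith
    nlinarith
  -- |z|² ≤ (17/64) ρ²
  have h6 : (θ * v1) ^ 2 + z2 ^ 2 ≤ 17 / 64 * ρ ^ 2 := by
    rw [mul_pow, h1]
    have : θ ^ 2 * ρ ^ 2 ≤ 1 / 4 * ρ ^ 2 := by
      apply mul_le_mul_of_nonneg_right _ (sq_nonneg _)
      nlinarith
    nlinarith
  -- Cauchy-Schwarz
  have h7 : (D1 * (θ * v1) + D2 * z2) ^ 2 ≤ (D1 ^ 2 + D2 ^ 2) * ((θ * v1) ^ 2 + z2 ^ 2) := by
    nlinarith [sq_nonneg (D1 * z2 - D2 * (θ * v1))]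
  by_cases hρ0 : ρ = 0
  · rw [hρ0]; nlinarith [sq_nonneg D1, sq_nonneg D2]
  · have hρpos : 0 < ρ := lt_of_le_of_ne hρ (Ne.symm hρ0)
    have h8 : (3 / 64 * ρ ^ 2) ^ 2 ≤ (D1 ^ 2 + D2 ^ 2) * (17 / 64 * ρ ^ 2) := by
      calc (3 / 64 * ρ ^ 2) ^ 2 ≤ (D1 * (θ * v1) + D2 * z2) ^ 2 :=
            pow_le_pow_left₀ (by positivity) h4 2
        _ ≤ (D1 ^ 2 + D2 ^ 2) * ((θ * v1) ^ 2 + z2 ^ 2) := h7
        _ ≤ (D1 ^ 2 + D2 ^ 2) * (17 / 64 * ρ ^ 2) :=
            mul_le_mul_of_nonneg_left h6 (by positivity)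
    have h9 : 0 < ρ ^ 2 := by positivity
    have h10 : 9 / 4096 * ρ ^ 2 ≤ (D1 ^ 2 + D2 ^ 2) * (17 / 64) := by
      have : (9 / 4096 * ρ ^ 2) * ρ ^ 2 ≤ ((D1 ^ 2 + D2 ^ 2) * (17 / 64)) * ρ ^ 2 := by nlinarith
      exact le_of_mul_le_mul_right this h9
    nlinarith

lemma P_real_rect (a b l m : ℝ) (hl : 0 ≤ l) (hm : 0 ≤ m) (h1 : Set.Icc a (a + l) ⊆ Set.Icc 0 1)
    (h2 : Set.Icc b (b + m) ⊆ Set.Icc 0 1) :
    P.real (Set.Icc a (a + l) ×ˢ Set.Icc b (b + m)) = l * m := by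
  unfold P
  rw [measureReal_restrict_apply (measurableSet_Icc.prod measurableSet_Icc)]
  have : Set.Icc a (a + l) ×ˢ Set.Icc b (b + m) ∩ Q = Set.Icc a (a + l) ×ˢ Set.Icc b (b + m) := by
    apply Set.inter_eq_left.mpr
    exact Set.prod_mono h1 h2
  rw [this, Measure.volume_eq_prod, measureReal_prod_prod]
  simp [Measure.real, Real.volume_Icc, hl, hm]

/-- Displacement estimate: if `(q, p)` is monotone with respect to the optimal plan, then
`|q - p| ^ 4 ≤ 16384 * TT X`. -/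
lemma Opt.displacement {X : ι → E} (o : Opt X) (hX : ∀ i, X i ∈ Q) (p q : E) (hp : p ∈ Q)
    (hq : q ∈ Q) (h : ∀ y ∈ Q, 0 ≤ ((o.T y).1 - q.1) * (y.1 - p.1) +
      ((o.T y).2 - q.2) * (y.2 - p.2)) :
    (sqd q p) ^ 2 ≤ 16384 * TT X := by
  have hp' := (mem_Q p).mp hp
  have hq' := (mem_Q q).mp hq
  -- reduction to a rectangle on which the displacement is large
  have key : ∀ (ρ : ℝ), 0 ≤ ρ → ρ ≤ 1 → sqd q p ≤ 2 * ρ ^ 2 →
      (∃ a b l m, l * m = ρ ^ 2 / 32 ∧ 0 ≤ l ∧ 0 ≤ m ∧ Set.Icc a (a + l) ⊆ Set.Icc (0:ℝ) 1 ∧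
        Set.Icc b (b + m) ⊆ Set.Icc (0:ℝ) 1 ∧
        ∀ y : E, y.1 ∈ Set.Icc a (a + l) → y.2 ∈ Set.Icc b (b + m) →
          ρ ^ 2 / 128 ≤ sqd y (o.T y)) →
      (sqd q p) ^ 2 ≤ 16384 * TT X := by
    intro ρ hρ0 hρ1 hle hrect
    obtain ⟨a, b, l, m, hlm, hl, hm, ha, hb, hbd⟩ := hrect
    set R : Set E := Set.Icc a (a + l) ×ˢ Set.Icc b (b + m) with hR
    have hRm : MeasurableSet R := measurableSet_Icc.prod measurableSet_Icc
    have h1 : ∫ y, R.indicator (fun _ => ρ ^ 2 / 128) y ∂P ≤ ∫ y, sqd y (o.T y) ∂P := by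
      apply integral_mono ((integrable_const _).indicator hRm) (o.integrable_sqd hX)
      intro y
      by_cases hy : y ∈ R
      · rw [Set.indicator_of_mem hy]
        exact hbd y hy.1 hy.2
      · rw [Set.indicator_of_notMem hy]
        exact sqd_nonneg _ _
    rw [integral_indicator_const _ hRm, P_real_rect a b l m hl hm ha hb, hlm, ← o.cost',
      smul_eq_mul] at h1
    have h2 : (sqd q p) ^ 2 ≤ (2 * ρ ^ 2) ^ 2 := pow_le_pow_left₀ (sqd_nonneg _ _) hle 2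
    nlinarith
  set v1 := q.1 - p.1 with hv1
  set v2 := q.2 - p.2 with hv2
  have hsq : sqd q p = v1 ^ 2 + v2 ^ 2 := rfl
  rcases le_total |v2| |v1| with hdom | hdom
  · -- first coordinate dominates
    have hρ1 : |v1| ≤ 1 := by
      rw [abs_le]; constructor <;> linarith [hp'.1.1, hp'.1.2, hq'.1.1, hq'.1.2]
    apply key |v1| (abs_nonneg _) hρ1
    · rw [hsq]
      have : v2 ^ 2 ≤ |v1| ^ 2 := by
        rw [← sq_abs v2]; exact pow_le_pow_left₀ (abs_nonneg _) hdom 2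
      rw [← sq_abs v1]
      linarith
    · obtain ⟨a, ha1, ha2⟩ := exists_mid p.1 v1 hp'.1.1 hp'.1.2 (by linarith [hq'.1.1])
        (by linarith [hq'.1.2])
      obtain ⟨b, hb1, hb2⟩ := exists_side p.2 |v1| hp'.2.1 hp'.2.2 (abs_nonneg _) hρ1
      refine ⟨a, b, |v1| / 4, |v1| / 8, by ring, by positivity, by positivity, ha1, hb1, ?_⟩
      intro y hy1 hy2
      obtain ⟨θ, hθ0, hθ1, hθ⟩ := ha2 _ hy1
      have hz2 := hb2 _ hy2
      have hyQ : y ∈ Q := ⟨ha1 hy1, hb1 hy2⟩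
      have h3 := h y hyQ
      have h4 := disp_core ((o.T y).1 - y.1) ((o.T y).2 - y.2) v1 v2 θ (y.2 - p.2) |v1|
        (abs_nonneg _) rfl hdom hθ0 hθ1 hz2 (by
          rw [← hθ]
          have e1 : (o.T y).1 - y.1 + (y.1 - p.1) - v1 = (o.T y).1 - q.1 := by rw [hv1]; ring
          have e2 : (o.T y).2 - y.2 + (y.2 - p.2) - v2 = (o.T y).2 - q.2 := by rw [hv2]; ring
          rw [e1, e2]
          exact h3)
      rw [sqd_comm]
      exact h4
  · -- second coordinate dominates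
    have hρ1 : |v2| ≤ 1 := by
      rw [abs_le]; constructor <;> linarith [hp'.2.1, hp'.2.2, hq'.2.1, hq'.2.2]
    apply key |v2| (abs_nonneg _) hρ1
    · rw [hsq]
      have : v1 ^ 2 ≤ |v2| ^ 2 := by
        rw [← sq_abs v1]; exact pow_le_pow_left₀ (abs_nonneg _) hdom 2
      rw [← sq_abs v2]
      linarith
    · obtain ⟨b, hb1, hb2⟩ := exists_mid p.2 v2 hp'.2.1 hp'.2.2 (by linarith [hq'.2.1])
        (by linarith [hq'.2.2])
      obtain ⟨a, ha1, ha2⟩ := exists_side p.1 |v2| hp'.1.1 hp'.1.2 (abs_nonneg _) hρ1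
      refine ⟨a, b, |v2| / 8, |v2| / 4, by ring, by positivity, by positivity, ha1, hb1, ?_⟩
      intro y hy1 hy2
      obtain ⟨θ, hθ0, hθ1, hθ⟩ := hb2 _ hy2
      have hz2 := ha2 _ hy1
      have hyQ : y ∈ Q := ⟨ha1 hy1, hb1 hy2⟩
      have h3 := h y hyQ
      have h4 := disp_core ((o.T y).2 - y.2) ((o.T y).1 - y.1) v2 v1 θ (y.1 - p.1) |v2|
        (abs_nonneg _) rfl hdom hθ0 hθ1 hz2 (by
          rw [← hθ]
          have e1 : (o.T y).1 - y.1 + (y.1 - p.1) - v1 = (o.T y).1 - q.1 := by rw [hv1]; ring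
          have e2 : (o.T y).2 - y.2 + (y.2 - p.2) - v2 = (o.T y).2 - q.2 := by rw [hv2]; ring
          rw [e1, e2]
          linarith)
      rw [sqd_comm]
      unfold sqd
      linarith

/-- Squared displacement bound. -/
lemma Opt.sqd_le_sqrt {X : ι → E} (o : Opt X) (hX : ∀ i, X i ∈ Q) (p q : E) (hp : p ∈ Q)
    (hq : q ∈ Q) (h : ∀ y ∈ Q, 0 ≤ ((o.T y).1 - q.1) * (y.1 - p.1) +
      ((o.T y).2 - q.2) * (y.2 - p.2)) :
    sqd q p ≤ 128 * √(TT X) := by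
  have h1 := o.displacement hX p q hp hq h
  have h2 := TT_nonneg X
  apply le_of_sq_le_sq _ (by positivity)
  rw [mul_pow, Real.sq_sqrt h2]
  linarith

lemma Opt.sqd_T_le {X : ι → E} (o : Opt X) (hX : ∀ i, X i ∈ Q) (y : E) (hy : y ∈ Q) :
    sqd y (o.T y) ≤ 128 * √(TT X) := by
  rw [sqd_comm]
  exact o.sqd_le_sqrt hX y (o.T y) hy (hX _) (fun z _ => o.contact_self y z)

/-- The deviation bound between the potential and its double transform. -/
noncomputable def Opt.D {X : ι → E} (o : Opt X) (x : E) : ℝ := √(512 * √(TT X) * sqd x (o.T x))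

lemma Opt.measurable_D {X : ι → E} (o : Opt X) : Measurable o.D := by
  unfold Opt.D
  have h : Measurable fun x => sqd x (o.T x) := measurable_sqd measurable_id o.measurable_T
  fun_prop

lemma Opt.D_sq {X : ι → E} (o : Opt X) (x : E) : o.D x ^ 2 = 512 * √(TT X) * sqd x (o.T x) := by
  unfold Opt.D
  rw [Real.sq_sqrt]
  have := sqd_nonneg x (o.T x)
  positivity

lemma Opt.D_nonneg {X : ι → E} (o : Opt X) (x : E) : 0 ≤ o.D x := Real.sqrt_nonneg _

/-- The double transform of the potential exceeds it by at most `D`. -/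
lemma Opt.dev {X : ι → E} (o : Opt X) (hX : ∀ i, X i ∈ Q) (x : E) (hx : x ∈ Q) (y : E)
    (hy : y ∈ Q) : psi X o.b y - sqd x y ≤ psi X o.b x + o.D x := by
  obtain ⟨p, hp, hmax⟩ := isCompact_Q.exists_isMaxOn Q_nonempty
    (f := fun y => psi X o.b y - sqd x y)
    ((continuous_psi X o.b).sub (by fun_prop)).continuousOn
  have hmax' : ∀ y ∈ Q, psi X o.b y - sqd x y ≤ psi X o.b p - sqd x p := fun y hy => hmax hy
  have h1 := o.sqd_le_sqrt hX p x hp hx (fun y hy => o.contact x p hmax' y hy)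
  have h2 := o.argmin x
  have h3 := psi_le X o.b p (o.idx x)
  have h4 : psi X o.b p - sqd x p - psi X o.b x ≤
      2 * ((p.1 - x.1) * (x.1 - (o.T x).1) + (p.2 - x.2) * (x.2 - (o.T x).2)) := by
    have e : sqd p (o.T x) - sqd x p - sqd x (o.T x) =
      2 * ((p.1 - x.1) * (x.1 - (o.T x).1) + (p.2 - x.2) * (x.2 - (o.T x).2)) := by
      unfold sqd; ring
    rw [← e]
    unfold Opt.T
    linarith
  have h5 : (2 * ((p.1 - x.1) * (x.1 - (o.T x).1) + (p.2 - x.2) * (x.2 - (o.T x).2))) ^ 2 ≤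
      4 * (sqd x p * sqd x (o.T x)) := by
    unfold sqd
    nlinarith [sq_nonneg ((p.1 - x.1) * (x.2 - (o.T x).2) - (p.2 - x.2) * (x.1 - (o.T x).1))]
  have h6 : 4 * (sqd x p * sqd x (o.T x)) ≤ 512 * √(TT X) * sqd x (o.T x) := by
    have := mul_le_mul_of_nonneg_right h1 (sqd_nonneg x (o.T x))
    linarith
  have h7 : 2 * ((p.1 - x.1) * (x.1 - (o.T x).1) + (p.2 - x.2) * (x.2 - (o.T x).2)) ≤ o.D x := by
    apply Real.le_sqrt_of_sq_le
    linarith
  have h8 := hmax' y hy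
  linarith

/-- Lipschitz bound for the potential. -/
lemma Opt.lip {X : ι → E} (o : Opt X) (hX : ∀ i, X i ∈ Q) (x y : E) (hx : x ∈ Q) (hy : y ∈ Q) :
    psi X o.b y - psi X o.b x ≤ 2 * (|y.1 - x.1| + |y.2 - x.2|) := by
  have h1 := o.argmin x
  have h2 := psi_le X o.b y (o.idx x)
  have h3 : psi X o.b y - psi X o.b x ≤ sqd y (o.T x) - sqd x (o.T x) := by
    unfold Opt.T; linarith
  have h4 : sqd y (o.T x) - sqd x (o.T x) = (y.1 - x.1) * (y.1 + x.1 - 2 * (o.T x).1) +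
      (y.2 - x.2) * (y.2 + x.2 - 2 * (o.T x).2) := by unfold sqd; ring
  have hT := (mem_Q _).mp (o.T_mem hX x)
  rw [mem_Q] at hx hy
  have h5 : (y.1 - x.1) * (y.1 + x.1 - 2 * (o.T x).1) ≤ 2 * |y.1 - x.1| := by
    calc (y.1 - x.1) * (y.1 + x.1 - 2 * (o.T x).1) ≤ |(y.1 - x.1) * (y.1 + x.1 - 2 * (o.T x).1)| :=
          le_abs_self _
      _ = |y.1 - x.1| * |y.1 + x.1 - 2 * (o.T x).1| := abs_mul _ _
      _ ≤ |y.1 - x.1| * 2 := by
          apply mul_le_mul_of_nonneg_left _ (abs_nonneg _)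
          rw [abs_le]
          constructor <;> linarith [hx.1.1, hx.1.2, hy.1.1, hy.1.2, hT.1.1, hT.1.2]
      _ = 2 * |y.1 - x.1| := by ring
  have h6 : (y.2 - x.2) * (y.2 + x.2 - 2 * (o.T x).2) ≤ 2 * |y.2 - x.2| := by
    calc (y.2 - x.2) * (y.2 + x.2 - 2 * (o.T x).2) ≤ |(y.2 - x.2) * (y.2 + x.2 - 2 * (o.T x).2)| :=
          le_abs_self _
      _ = |y.2 - x.2| * |y.2 + x.2 - 2 * (o.T x).2| := abs_mul _ _
      _ ≤ |y.2 - x.2| * 2 := by
          apply mul_le_mul_of_nonneg_left _ (abs_nonneg _)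
          rw [abs_le]
          constructor <;> linarith [hx.2.1, hx.2.2, hy.2.1, hy.2.2, hT.2.1, hT.2.2]
      _ = 2 * |y.2 - x.2| := by ring
  linarith

lemma Opt.lip_abs {X : ι → E} (o : Opt X) (hX : ∀ i, X i ∈ Q) (x y : E) (hx : x ∈ Q)
    (hy : y ∈ Q) : |psi X o.b y - psi X o.b x| ≤ 2 * (|y.1 - x.1| + |y.2 - x.2|) := by
  rw [abs_le]
  constructor
  · have := o.lip hX y x hy hx
    rw [abs_sub_comm x.1, abs_sub_comm x.2] at this
    linarith
  · exact o.lip hX x y hx hy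

/-- The potential is bounded by four on the square. -/
lemma Opt.psi_bound {X : ι → E} (o : Opt X) (hX : ∀ i, X i ∈ Q) (x : E) (hx : x ∈ Q) :
    |psi X o.b x| ≤ 4 := by
  have h : ∀ y ∈ Q, |psi X o.b y - psi X o.b x| ≤ 4 := by
    intro y hy
    refine (o.lip_abs hX x y hx hy).trans ?_
    rw [mem_Q] at hx hy
    have h1 : |y.1 - x.1| ≤ 1 := by
      rw [abs_le]; constructor <;> linarith [hx.1.1, hx.1.2, hy.1.1, hy.1.2]
    have h2 : |y.2 - x.2| ≤ 1 := by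
      rw [abs_le]; constructor <;> linarith [hx.2.1, hx.2.2, hy.2.1, hy.2.2]
    linarith
  have h1 : ∫ y, psi X o.b y ∂P ≤ ∫ _y, (psi X o.b x + 4) ∂P := by
    apply integral_mono_Q (integrable_psi X _) (integrable_const _)
    intro y hy
    have := (abs_le.mp (h y hy)).2
    linarith
  have h2 : ∫ _y, (psi X o.b x - 4) ∂P ≤ ∫ y, psi X o.b y ∂P := by
    apply integral_mono_Q (integrable_const _) (integrable_psi X _)
    intro y hy
    have := (abs_le.mp (h y hy)).1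
    linarith
  rw [o.mean] at h1 h2
  simp only [integral_const, probReal_univ, smul_eq_mul, one_mul] at h1 h2
  rw [abs_le]
  constructor <;> linarith

end Pool.Agent.H37
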