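import Mathlib

set_option autoImplicit false

open MeasureTheory

namespace Pool.Agent.H37

/-! ### Bounded measurable functions -/

/-- Measurable and bounded. -/
def BM {β : Type*} [MeasurableSpace β] (f : β → ℝ) : Prop := Measurable f ∧ ∃ c, ∀ x, |f x| ≤ c

section BM

variable {β γ : Type*} [MeasurableSpace β] [MeasurableSpace γ]

lemma BM.integrable {f : β → ℝ} (h : BM f) (ν : Measure β) [IsFiniteMeasure ν] :
    Integrable f ν := by
  obtain ⟨c, hc⟩ := h.2
  exact Integrable.of_bound h.1.aestronglyMeasurable c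
    (Filter.Eventually.of_forall fun x => by rw [Real.norm_eq_abs]; exact hc x)

lemma BM.const (c : ℝ) : BM (fun _ : β => c) := ⟨measurable_const, |c|, fun _ => le_refl _⟩

lemma BM.add {f g : β → ℝ} (hf : BM f) (hg : BM g) : BM (fun y => f y + g y) := by
  obtain ⟨c, hc⟩ := hf.2
  obtain ⟨d, hd⟩ := hg.2
  exact ⟨hf.1.add hg.1, c + d, fun x => (abs_add_le _ _).trans (add_le_add (hc x) (hd x))⟩

lemma BM.sub {f g : β → ℝ} (hf : BM f) (hg : BM g) : BM (fun y => f y - g y) := by
  obtain ⟨c, hc⟩ := hf.2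
  obtain ⟨d, hd⟩ := hg.2
  exact ⟨hf.1.sub hg.1, c + d, fun x => (abs_sub _ _).trans (add_le_add (hc x) (hd x))⟩

lemma BM.mul {f g : β → ℝ} (hf : BM f) (hg : BM g) : BM (fun y => f y * g y) := by
  obtain ⟨c, hc⟩ := hf.2
  obtain ⟨d, hd⟩ := hg.2
  refine ⟨hf.1.mul hg.1, c * d, fun x => ?_⟩
  rw [abs_mul]
  exact mul_le_mul (hc x) (hd x) (abs_nonneg _) ((abs_nonneg _).trans (hc x))

lemma BM.const_mul {f : β → ℝ} (c : ℝ) (hf : BM f) : BM (fun y => c * f y) :=
  (BM.const c).mul hf

lemma BM.sq {f : β → ℝ} (hf : BM f) : BM (fun y => f y ^ 2) := by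
  simp_rw [pow_two]; exact hf.mul hf

lemma BM.pow {f : β → ℝ} (hf : BM f) (n : ℕ) : BM (fun y => f y ^ n) := by
  induction n with
  | zero => simpa using BM.const 1
  | succ n ih => simp_rw [pow_succ]; exact ih.mul hf

lemma BM.sum {κ : Type*} {f : κ → β → ℝ} (s : Finset κ) (h : ∀ k ∈ s, BM (f k)) :
    BM (fun y => ∑ k ∈ s, f k y) := by
  classical
  induction s using Finset.induction_on with
  | empty => simpa using BM.const 0
  | insert a s ha ih =>
    simp_rw [Finset.sum_insert ha]
    exact (h a (Finset.mem_insert_self a s)).add (ih fun k hk => h k (Finset.mem_insert_of_mem hk))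

lemma BM.comp {f : β → ℝ} (hf : BM f) {g : γ → β} (hg : Measurable g) : BM (fun y => f (g y)) := by
  obtain ⟨c, hc⟩ := hf.2
  exact ⟨hf.1.comp hg, c, fun x => hc _⟩

lemma BM.pos {f : β → ℝ} (hf : BM f) : BM (fun y => max (f y) 0) := by
  obtain ⟨c, hc⟩ := hf.2
  refine ⟨hf.1.max measurable_const, c, fun x => ?_⟩
  rw [abs_of_nonneg (le_max_right _ _)]
  exact max_le ((le_abs_self _).trans (hc x)) ((abs_nonneg _).trans (hc x))

lemma BM.int_right {f : β × γ → ℝ} (hf : BM f) (ν : Measure γ) [IsProbabilityMeasure ν] :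
    BM (fun x => ∫ y, f (x, y) ∂ν) := by
  obtain ⟨c, hc⟩ := hf.2
  refine ⟨(hf.1.stronglyMeasurable.integral_prod_right' (ν := ν)).measurable, c, fun x => ?_⟩
  have := norm_integral_le_of_norm_le_const (μ := ν) (f := fun y => f (x, y)) (C := c)
    (Filter.Eventually.of_forall fun y => by rw [Real.norm_eq_abs]; exact hc _)
  simpa using this

lemma BM.int_left {f : β × γ → ℝ} (hf : BM f) (ν : Measure β) [IsProbabilityMeasure ν] :
    BM (fun y => ∫ x, f (x, y) ∂ν) := by
  have h : BM fun p : γ × β => f (p.2, p.1) := hf.comp (measurable_snd.prodMk measurable_fst)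
  exact h.int_right ν

lemma BM.swap {f : β × γ → ℝ} (hf : BM f) (ν : Measure β) (ν' : Measure γ) [IsProbabilityMeasure ν]
    [IsProbabilityMeasure ν'] : ∫ x, ∫ y, f (x, y) ∂ν' ∂ν = ∫ y, ∫ x, f (x, y) ∂ν ∂ν' :=
  integral_integral_swap (f := fun x y => f (x, y)) (hf.integrable (ν.prod ν'))

end BM

/-! ### The Efron-Stein inequality -/

variable {α : Type*} [MeasurableSpace α]

/-- The product measure. -/
noncomputable abbrev Pn (μ : Measure α) (n : ℕ) : Measure (Fin n → α) := Measure.pi fun _ => μ

lemma measurable_cons (n : ℕ) :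
    Measurable fun p : α × (Fin n → α) => (Fin.cons p.1 p.2 : Fin (n + 1) → α) := by
  rw [measurable_pi_iff]
  intro i
  refine Fin.cases ?_ (fun j => ?_) i
  · simp only [Fin.cons_zero]; exact measurable_fst
  · simp only [Fin.cons_succ]; exact (measurable_pi_apply j).comp measurable_snd

lemma int_cons (μ : Measure α) [IsProbabilityMeasure μ] (n : ℕ) (F : (Fin (n + 1) → α) → ℝ)
    (hF : BM F) : ∫ z, F z ∂(Pn μ (n + 1)) = ∫ x, ∫ a, F (Fin.cons a x) ∂μ ∂(Pn μ n) := by
  have h1 := (measurePreserving_piFinSuccAbove (fun _ : Fin (n + 1) => μ) 0).symm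
  have h2 := h1.integral_comp' F
  rw [← h2]
  have h3 : BM fun p : α × (Fin n → α) => F (Fin.cons p.1 p.2) := hF.comp (measurable_cons n)
  have h4 : ∀ p : α × (Fin n → α),
      F ((MeasurableEquiv.piFinSuccAbove (fun _ : Fin (n + 1) => α) 0).symm p) =
        F (Fin.cons p.1 p.2) := by
    intro p
    congr 1
    exact Fin.insertNth_zero' p.1 p.2
  simp_rw [h4]
  exact integral_prod_symm _ (h3.integrable _)

lemma var_eq (μ : Measure α) [IsProbabilityMeasure μ] (f : α → ℝ) (hf : BM f) :
    ∫ a, f a ^ 2 ∂μ - (∫ a, f a ∂μ) ^ 2 = ∫ a, ∫ b, (max (f a - f b) 0) ^ 2 ∂μ ∂μ := by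
  have h1 : BM fun p : α × α => f p.1 := hf.comp measurable_fst
  have h2 : BM fun p : α × α => f p.2 := hf.comp measurable_snd
  have h3 : BM fun p : α × α => (max (f p.1 - f p.2) 0) ^ 2 := (h1.sub h2).pos.sq
  have h4 : BM fun p : α × α => (max (f p.2 - f p.1) 0) ^ 2 := (h2.sub h1).pos.sq
  have h5 : ∫ a, ∫ b, (max (f a - f b) 0) ^ 2 ∂μ ∂μ = ∫ a, ∫ b, (max (f b - f a) 0) ^ 2 ∂μ ∂μ :=
    h3.swap μ μ
  have h6 : ∫ a, ∫ b, ((max (f a - f b) 0) ^ 2 + (max (f b - f a) 0) ^ 2) ∂μ ∂μ =
      ∫ a, ∫ b, (max (f a - f b) 0) ^ 2 ∂μ ∂μ + ∫ a, ∫ b, (max (f b - f a) 0) ^ 2 ∂μ ∂μ := by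
    rw [← integral_add (h3.int_right μ |>.integrable μ) (h4.int_right μ |>.integrable μ)]
    congr 1
    funext a
    exact integral_add ((h3.comp (measurable_const.prodMk measurable_id)).integrable μ)
      ((h4.comp (measurable_const.prodMk measurable_id)).integrable μ)
  have h7 : ∀ a b, (max (f a - f b) 0) ^ 2 + (max (f b - f a) 0) ^ 2 = f a ^ 2 - 2 * f a * f b +
      f b ^ 2 := by
    intro a b
    rcases le_total (f a) (f b) with h | h
    · rw [max_eq_right (by linarith), max_eq_left (by linarith)]; ring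
    · rw [max_eq_left (by linarith), max_eq_right (by linarith)]; ring
  simp_rw [h7] at h6
  have h8 : ∀ a, ∫ b, (f a ^ 2 - 2 * f a * f b + f b ^ 2) ∂μ =
      f a ^ 2 - 2 * (∫ b, f b ∂μ) * f a + ∫ b, f b ^ 2 ∂μ := by
    intro a
    rw [integral_add (((BM.const _).sub (hf.const_mul _)).integrable μ) (hf.sq.integrable μ),
      integral_sub (integrable_const _) ((hf.const_mul _).integrable μ), integral_const_mul]
    simp only [integral_const, probReal_univ, smul_eq_mul, one_mul]
    ring
  simp_rw [h8] at h6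
  rw [integral_add ((hf.sq.sub (hf.const_mul _)).integrable μ) (integrable_const _),
    integral_sub (hf.sq.integrable μ) ((hf.const_mul _).integrable μ), integral_const_mul,
    ← h5] at h6
  simp only [integral_const, probReal_univ, smul_eq_mul, one_mul] at h6
  linarith

/-- Jensen's inequality for the square of the positive part. -/
lemma jensen_pos (μ : Measure α) [IsProbabilityMeasure μ] (f : α → ℝ) (hf : BM f) :
    (max (∫ a, f a ∂μ) 0) ^ 2 ≤ ∫ a, (max (f a) 0) ^ 2 ∂μ := by
  have h1 : max (∫ a, f a ∂μ) 0 ≤ ∫ a, max (f a) 0 ∂μ := by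
    apply max_le
    · exact integral_mono (hf.integrable μ) (hf.pos.integrable μ) fun a => le_max_left _ _
    · exact integral_nonneg fun a => le_max_right _ _
  have h2 : (∫ a, max (f a) 0 ∂μ) ^ 2 ≤ ∫ a, (max (f a) 0) ^ 2 ∂μ := by
    have := var_eq μ _ hf.pos
    have h3 : 0 ≤ ∫ a, ∫ b, (max (max (f a) 0 - max (f b) 0) 0) ^ 2 ∂μ ∂μ :=
      integral_nonneg fun a => integral_nonneg fun b => sq_nonneg _
    linarith
  exact (pow_le_pow_left₀ (le_max_right _ _) h1 2).trans h2

/-- The Efron-Stein sum. -/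
noncomputable def ES (μ : Measure α) (n : ℕ) (F : (Fin n → α) → ℝ) (i : Fin n) : ℝ :=
  ∫ x, ∫ y, (max (F x - F (Function.update x i y)) 0) ^ 2 ∂μ ∂(Pn μ n)

lemma measurable_update_pair (n : ℕ) (i : Fin n) :
    Measurable fun p : (Fin n → α) × α => Function.update p.1 i p.2 := by
  rw [measurable_pi_iff]
  intro j
  by_cases h : j = i
  · subst h
    simp only [Function.update_self]
    exact measurable_snd
  · simp only [Function.update_of_ne h]
    exact (measurable_pi_apply j).comp measurable_fst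

/-- The Efron-Stein inequality. -/
theorem efron_stein (μ : Measure α) [IsProbabilityMeasure μ] (n : ℕ) (F : (Fin n → α) → ℝ)
    (hF : BM F) : ∫ x, F x ^ 2 ∂(Pn μ n) - (∫ x, F x ∂(Pn μ n)) ^ 2 ≤ ∑ i, ES μ n F i := by
  induction n with
  | zero =>
    have h1 : ∀ x : Fin 0 → α, F x = F Fin.elim0 := fun x => by
      congr 1; exact Subsingleton.elim _ _
    simp_rw [h1]
    simp
  | succ n ih =>
    -- the partially integrated function
    have hFc : BM fun p : α × (Fin n → α) => F (Fin.cons p.1 p.2) := hF.comp (measurable_cons n)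
    have hFc' : BM fun p : (Fin n → α) × α => F (Fin.cons p.2 p.1) :=
      hFc.comp (measurable_snd.prodMk measurable_fst)
    set g : (Fin n → α) → ℝ := fun x => ∫ a, F (Fin.cons a x) ∂μ with hg
    have hgB : BM g := hFc'.int_right μ
    have hsec : ∀ x, BM fun a => F (Fin.cons a x) := fun x =>
      hFc'.comp (measurable_const.prodMk measurable_id)
    have h1 := int_cons μ n (fun z => F z ^ 2) hF.sq
    have h2 := int_cons μ n F hF
    rw [h1, h2]
    have ihg := ih g hgB
    have hg2 : BM fun x => ∫ a, F (Fin.cons a x) ^ 2 ∂μ := hFc'.sq.int_right μ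
    -- the first variable
    have h3 : ∫ x, (∫ a, F (Fin.cons a x) ^ 2 ∂μ - g x ^ 2) ∂(Pn μ n) = ES μ (n + 1) F 0 := by
      have e1 : ∀ x, ∫ a, F (Fin.cons a x) ^ 2 ∂μ - g x ^ 2 =
          ∫ a, ∫ b, (max (F (Fin.cons a x) - F (Fin.cons b x)) 0) ^ 2 ∂μ ∂μ := fun x =>
        var_eq μ _ (hsec x)
      simp_rw [e1]
      unfold ES
      have hB : BM fun p : (Fin (n + 1) → α) × α =>
          (max (F p.1 - F (Function.update p.1 0 p.2)) 0) ^ 2 :=
        ((hF.comp measurable_fst).sub (hF.comp (measurable_update_pair (n + 1) 0))).pos.sq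
      rw [int_cons μ n _ (hB.int_right μ)]
      congr 1
      funext x
      congr 1
      funext a
      congr 1
      funext b
      rw [Fin.update_cons_zero]
    -- the other variables
    have h4 : ∀ i : Fin n, ES μ n g i ≤ ES μ (n + 1) F i.succ := by
      intro i
      unfold ES
      have hB : BM fun p : (Fin (n + 1) → α) × α =>
          (max (F p.1 - F (Function.update p.1 i.succ p.2)) 0) ^ 2 :=
        ((hF.comp measurable_fst).sub (hF.comp (measurable_update_pair (n + 1) i.succ))).pos.sq
      rw [int_cons μ n _ (hB.int_right μ)]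
      have hgg : BM fun p : (Fin n → α) × α => (max (g p.1 - g (Function.update p.1 i p.2)) 0) ^ 2 :=
        ((hgB.comp measurable_fst).sub (hgB.comp (measurable_update_pair n i))).pos.sq
      have hrhs : BM fun x : Fin n → α => ∫ a, ∫ y, (max (F (Fin.cons a x) -
          F (Function.update (Fin.cons a x : Fin (n + 1) → α) i.succ y)) 0) ^ 2 ∂μ ∂μ := by
        have b1 : BM fun z : Fin (n + 1) → α =>
          ∫ y, (max (F z - F (Function.update z i.succ y)) 0) ^ 2 ∂μ := hB.int_right μ
        have b2 : BM fun p : (Fin n → α) × α => ∫ y, (max (F (Fin.cons p.2 p.1) -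
          F (Function.update (Fin.cons p.2 p.1 : Fin (n + 1) → α) i.succ y)) 0) ^ 2 ∂μ :=
          b1.comp ((measurable_cons n).comp (measurable_snd.prodMk measurable_fst))
        exact b2.int_right μ
      apply integral_mono ((hgg.int_right μ).integrable _) (hrhs.integrable _)
      intro x
      have hab : BM fun p : α × α => (max (F (Fin.cons p.1 x) -
          F (Fin.cons p.1 (Function.update x i p.2))) 0) ^ 2 := by
        have m1 : Measurable fun p : α × α => (Fin.cons p.1 x : Fin (n + 1) → α) :=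
          (measurable_cons n).comp (measurable_fst.prodMk measurable_const)
        have m2 : Measurable fun p : α × α =>
            (Fin.cons p.1 (Function.update x i p.2) : Fin (n + 1) → α) :=
          (measurable_cons n).comp (measurable_fst.prodMk
            ((measurable_update_pair n i).comp (measurable_const.prodMk measurable_snd)))
        exact ((hF.comp m1).sub (hF.comp m2)).pos.sq
      have e2 : ∀ a y, F (Function.update (Fin.cons a x : Fin (n + 1) → α) i.succ y) =
          F (Fin.cons a (Function.update x i y)) := by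
        intro a y
        rw [Fin.cons_update]
      simp_rw [e2]
      have e3 := hab.swap μ μ
      simp only at e3
      rw [e3]
      have hba : BM fun p : α × α => (max (F (Fin.cons p.2 x) -
          F (Fin.cons p.2 (Function.update x i p.1))) 0) ^ 2 :=
        hab.comp (measurable_snd.prodMk measurable_fst)
      apply integral_mono ((hgg.comp (measurable_const.prodMk measurable_id)).integrable μ)
        ((hba.int_right μ).integrable μ)
      intro y
      have e4 : g x - g (Function.update x i y) =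
          ∫ a, (F (Fin.cons a x) - F (Fin.cons a (Function.update x i y))) ∂μ := by
        rw [integral_sub ((hsec x).integrable μ) ((hsec _).integrable μ)]
      simp only [id]
      rw [e4]
      exact jensen_pos μ _ ((hsec x).sub (hsec _))
    rw [Fin.sum_univ_succ, ← h3, integral_sub (hg2.integrable _) (hgB.sq.integrable _)]
    have h5 : ∑ i : Fin n, ES μ n g i ≤ ∑ i : Fin n, ES μ (n + 1) F i.succ :=
      Finset.sum_le_sum fun i _ => h4 i
    linarith

end Pool.Agent.H37
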