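import Mathlib

set_option autoImplicit false
set_option linter.unusedSectionVars false

open MeasureTheory ProbabilityTheory Real Filter Topology

namespace Pool.Agent.H37

lemma norm_exp_sub_one_le (y : ℝ) : ‖Complex.exp (y * Complex.I) - 1‖ ≤ |y| := by
  have := @Real.norm_exp_I_mul_ofReal_sub_one_le y
  rw [mul_comm] at this
  exact this

lemma norm_charFun_sub_one_le (μ : Measure ℝ) [IsProbabilityMeasure μ]
    (hint : Integrable (fun x => x ^ 2) μ) (s : ℝ) :
    ‖charFun μ s - 1‖ ≤ |s| * ((1 + ∫ x, x ^ 2 ∂μ) / 2) := by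
  have i1 : Integrable (fun x : ℝ => Complex.exp (s * x * Complex.I)) μ := by
    apply Integrable.of_bound (by fun_prop) 1
    apply Eventually.of_forall
    intro x
    have : (s * x * Complex.I : ℂ) = ((s * x : ℝ) : ℂ) * Complex.I := by push_cast; ring
    rw [this, Complex.norm_exp_ofReal_mul_I]
  have h1 : charFun μ s - 1 = ∫ x, (Complex.exp (s * x * Complex.I) - 1) ∂μ := by
    rw [integral_sub i1 (integrable_const _), charFun_apply_real]
    simp
  rw [h1]
  refine (norm_integral_le_integral_norm _).trans ?_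
  have h2 : ∫ x, ‖Complex.exp (s * x * Complex.I) - 1‖ ∂μ ≤ ∫ x, |s| * ((1 + x ^ 2) / 2) ∂μ := by
    apply integral_mono (i1.sub (integrable_const _)).norm
    · exact (((integrable_const (1 : ℝ)).add hint).div_const 2).const_mul _
    · intro x
      have : (s * x * Complex.I : ℂ) = ((s * x : ℝ) : ℂ) * Complex.I := by push_cast; ring
      show ‖Complex.exp (s * x * Complex.I) - 1‖ ≤ |s| * ((1 + x ^ 2) / 2)
      rw [this]
      refine (norm_exp_sub_one_le _).trans ?_
      rw [abs_mul]
      apply mul_le_mul_of_nonneg_left _ (abs_nonneg _)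
      nlinarith [sq_nonneg (|x| - 1), sq_abs x]
  refine h2.trans (le_of_eq ?_)
  rw [integral_const_mul, integral_div, integral_add (integrable_const _) hint]
  simp

/-- The truncation. -/
noncomputable def tr (R x : ℝ) : ℝ := max (-R) (min R x)

lemma continuous_tr (R : ℝ) : Continuous (tr R) := by unfold tr; fun_prop

lemma abs_tr_le {R : ℝ} (hR : 0 ≤ R) (x : ℝ) : |tr R x| ≤ R := by
  unfold tr
  rw [abs_le]
  exact ⟨le_max_left _ _, max_le (by linarith) (min_le_left _ _)⟩

lemma abs_tr_le' {R : ℝ} (hR : 0 ≤ R) (x : ℝ) : |tr R x| ≤ |x| := by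
  unfold tr
  rw [abs_le]
  constructor
  · rcases le_total R x with h | h
    · rw [min_eq_left h, max_eq_right (by linarith)]
      linarith [abs_nonneg x]
    · rw [min_eq_right h]
      exact (neg_abs_le x).trans (le_max_right _ _)
  · apply max_le
    · linarith [abs_nonneg x]
    · exact (min_le_right _ _).trans (le_abs_self x)

lemma abs_tr_sub_le {R : ℝ} (hR : 0 < R) (x : ℝ) : |tr R x - x| ≤ x ^ 2 / R := by
  unfold tr
  rw [le_div_iff₀ hR]
  rcases le_total R x with h | h
  · rw [min_eq_left h, max_eq_right (by linarith), abs_of_nonpos (by linarith)]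
    nlinarith
  · rw [min_eq_right h]
    rcases le_total (-R) x with h' | h'
    · rw [max_eq_right h']
      simp only [sub_self, abs_zero, zero_mul]
      positivity
    · rw [max_eq_left h', abs_of_nonneg (by linarith)]
      nlinarith

/-- Existence of a weak limit, and its first moment. -/
theorem exists_limit (p : ℕ → ProbabilityMeasure ℝ) (c : ℝ)
    (hint : ∀ n, Integrable (fun x : ℝ => x ^ 2) (p n : Measure ℝ))
    (hmom : ∀ᶠ n in atTop, ∫ x, x ^ 2 ∂(p n : Measure ℝ) ≤ c)
    (hmean : ∀ n, ∫ x, x ∂(p n : Measure ℝ) = 0)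
    (hφ : ∀ s, ∃ a, Tendsto (fun n => charFun (p n : Measure ℝ) s) atTop (𝓝 a)) :
    ∃ q : ProbabilityMeasure ℝ, Tendsto p atTop (𝓝 q) ∧
      Integrable (fun x : ℝ => x ^ 2) (q : Measure ℝ) ∧ Integrable (fun x : ℝ => x) (q : Measure ℝ) ∧
      ∫ x, x ∂(q : Measure ℝ) = 0 := by
  choose φ hφ using hφ
  -- continuity of the limit at the origin
  have hφ0 : φ 0 = 1 := by
    have h1 : Tendsto (fun n => charFun (p n : Measure ℝ) 0) atTop (𝓝 1) := by
      simp
    exact tendsto_nhds_unique (hφ 0) h1
  have hφb : ∀ s, ‖φ s - 1‖ ≤ |s| * ((1 + c) / 2) := by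
    intro s
    have h1 : Tendsto (fun n => ‖charFun (p n : Measure ℝ) s - 1‖) atTop (𝓝 ‖φ s - 1‖) :=
      ((hφ s).sub_const 1).norm
    apply le_of_tendsto h1
    filter_upwards [hmom] with n hn
    refine (norm_charFun_sub_one_le _ (hint n) s).trans ?_
    apply mul_le_mul_of_nonneg_left _ (abs_nonneg _)
    linarith
  have hcont : ContinuousAt φ 0 := by
    unfold ContinuousAt
    rw [hφ0, tendsto_iff_norm_sub_tendsto_zero]
    apply squeeze_zero (fun s => norm_nonneg _) hφb
    have : Tendsto (fun s : ℝ => |s| * ((1 + c) / 2)) (𝓝 0) (𝓝 (|0| * ((1 + c) / 2))) := by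
      apply Continuous.tendsto
      fun_prop
    simpa using this
  have htight : IsTightMeasureSet (Set.range fun n => (p n : Measure ℝ)) :=
    isTightMeasureSet_of_tendsto_charFun hcont hφ
  have hcomp : IsCompact (closure (Set.range p)) := by
    apply isCompact_closure_of_isTightMeasureSet
    convert htight using 1
    ext μ
    simp
  -- a cluster point
  set U : Ultrafilter ℕ := Ultrafilter.of atTop with hU
  have hUle : (U : Filter ℕ) ≤ atTop := Ultrafilter.of_le atTop
  obtain ⟨q, -, hq⟩ := hcomp.ultrafilter_le_nhds (Ultrafilter.map p U) (by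
    rw [Ultrafilter.coe_map]
    refine le_trans (Filter.map_mono hUle) ?_
    rw [Filter.le_principal_iff, Filter.mem_map]
    exact Filter.univ_mem' fun n => subset_closure ⟨n, rfl⟩)
  have hq' : Tendsto p (U : Filter ℕ) (𝓝 q) := hq
  have hchar : ∀ s, charFun (q : Measure ℝ) s = φ s := by
    intro s
    have h1 : Tendsto (fun n => charFun (p n : Measure ℝ) s) (U : Filter ℕ)
        (𝓝 (φ s)) := (hφ s).mono_left hUle
    have h2 : Tendsto (fun n => charFun (p n : Measure ℝ) s) (U : Filter ℕ)
        (𝓝 (charFun (q : Measure ℝ) s)) := by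
      rw [ProbabilityMeasure.tendsto_iff_forall_integral_rclike_tendsto ℂ] at hq'
      simp_rw [charFun_eq_integral_innerProbChar]
      exact hq' _
    exact tendsto_nhds_unique h2 h1
  have hlim : Tendsto p atTop (𝓝 q) := by
    rw [ProbabilityMeasure.tendsto_iff_tendsto_charFun]
    intro s
    rw [hchar]
    exact hφ s
  -- the second moment
  have hc : 0 ≤ c := by
    obtain ⟨n, hn⟩ := hmom.exists
    exact (integral_nonneg fun x => sq_nonneg _).trans hn
  have hsq : ∫⁻ x, ENNReal.ofReal (x ^ 2) ∂(q : Measure ℝ) ≤ ENNReal.ofReal c := by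
    have h1 := lintegral_le_liminf_lintegral_of_forall_isOpen_measure_le_liminf_measure
      (μ := (q : Measure ℝ)) (μs := fun n => (p n : Measure ℝ)) (f := fun x : ℝ => x ^ 2)
      (by fun_prop) (fun x => sq_nonneg x)
      (fun U hU => ProbabilityMeasure.le_liminf_measure_open_of_tendsto hlim hU)
    refine h1.trans ?_
    have h2 : ∀ᶠ n in atTop, ∫⁻ x, ENNReal.ofReal (x ^ 2) ∂(p n : Measure ℝ) ≤ ENNReal.ofReal c := by
      filter_upwards [hmom] with n hn
      rw [← ofReal_integral_eq_lintegral_ofReal (hint n)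
        (Eventually.of_forall fun x => sq_nonneg x)]
      exact ENNReal.ofReal_le_ofReal hn
    exact Filter.liminf_le_of_frequently_le' h2.frequently
  have hq2 : Integrable (fun x : ℝ => x ^ 2) (q : Measure ℝ) := by
    refine ⟨by fun_prop, ?_⟩
    rw [hasFiniteIntegral_iff_ofReal (Eventually.of_forall fun x => sq_nonneg x)]
    exact hsq.trans_lt ENNReal.ofReal_lt_top
  have hq1 : Integrable (fun x : ℝ => x) (q : Measure ℝ) := by
    apply Integrable.mono' (((integrable_const (1 : ℝ)).add hq2).div_const 2) (by fun_prop)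
    apply Eventually.of_forall
    intro x
    rw [Real.norm_eq_abs]
    simp only [Pi.add_apply]
    nlinarith [sq_nonneg (|x| - 1), sq_abs x]
  -- truncated means
  have htr : ∀ R : ℝ, 0 < R → |∫ x, tr R x ∂(q : Measure ℝ)| ≤ c / R := by
    intro R hR
    let f : BoundedContinuousFunction ℝ ℝ :=
      BoundedContinuousFunction.ofNormedAddCommGroup (tr R) (continuous_tr R) R
        (fun x => by rw [Real.norm_eq_abs]; exact abs_tr_le hR.le x)
    have h1 := (ProbabilityMeasure.tendsto_iff_forall_integral_tendsto.mp hlim) f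
    have h2 : Tendsto (fun n => |∫ x, tr R x ∂(p n : Measure ℝ)|) atTop
        (𝓝 |∫ x, tr R x ∂(q : Measure ℝ)|) := h1.abs
    apply le_of_tendsto h2
    filter_upwards [hmom] with n hn
    have i1 : Integrable (tr R) (p n : Measure ℝ) := by
      apply Integrable.of_bound (continuous_tr R).aestronglyMeasurable R
      exact Eventually.of_forall fun x => by rw [Real.norm_eq_abs]; exact abs_tr_le hR.le x
    have i2 : Integrable (fun x : ℝ => x) (p n : Measure ℝ) := by
      apply Integrable.mono' (((integrable_const (1 : ℝ)).add (hint n)).div_const 2) (by fun_prop)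
      apply Eventually.of_forall
      intro x
      rw [Real.norm_eq_abs]
      simp only [Pi.add_apply]
      nlinarith [sq_nonneg (|x| - 1), sq_abs x]
    have h3 : ∫ x, tr R x ∂(p n : Measure ℝ) = ∫ x, (tr R x - x) ∂(p n : Measure ℝ) := by
      rw [integral_sub i1 i2, hmean n, sub_zero]
    rw [h3]
    refine abs_integral_le_integral_abs.trans ?_
    have h4 : ∫ x, |tr R x - x| ∂(p n : Measure ℝ) ≤ ∫ x, x ^ 2 / R ∂(p n : Measure ℝ) := by
      apply integral_mono (i1.sub i2).abs ((hint n).div_const R)
      intro x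
      exact abs_tr_sub_le hR x
    rw [integral_div] at h4
    exact h4.trans (div_le_div_of_nonneg_right hn hR.le)
  have hmean0 : ∫ x, x ∂(q : Measure ℝ) = 0 := by
    have h1 : Tendsto (fun j : ℕ => ∫ x, tr ((j : ℝ) + 1) x ∂(q : Measure ℝ)) atTop
        (𝓝 (∫ x, x ∂(q : Measure ℝ))) := by
      apply tendsto_integral_of_dominated_convergence (fun x => |x|)
      · intro j
        exact (continuous_tr _).aestronglyMeasurable
      · exact hq1.abs
      · intro j
        apply Eventually.of_forall
        intro x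
        rw [Real.norm_eq_abs]
        exact abs_tr_le' (by positivity) x
      · apply Eventually.of_forall
        intro x
        apply tendsto_const_nhds.congr'
        filter_upwards [eventually_ge_atTop ⌈|x|⌉₊] with j hj
        have h2 : |x| ≤ (j : ℝ) + 1 := by
          have := Nat.le_of_ceil_le hj
          linarith
        unfold tr
        rw [min_eq_right ((le_abs_self x).trans h2), max_eq_right]
        linarith [neg_abs_le x]
    have h2 : Tendsto (fun j : ℕ => c / ((j : ℝ) + 1)) atTop (𝓝 0) :=
      tendsto_const_nhds.div_atTop (tendsto_atTop_add_const_right _ _ tendsto_natCast_atTop_atTop)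
    have h3 : Tendsto (fun j : ℕ => ∫ x, tr ((j : ℝ) + 1) x ∂(q : Measure ℝ)) atTop (𝓝 0) := by
      rw [tendsto_zero_iff_abs_tendsto_zero]
      exact squeeze_zero (fun j => abs_nonneg _) (fun j => htr _ (by positivity)) h2
    exact tendsto_nhds_unique h1 h3
  exact ⟨q, hlim, hq2, hq1, hmean0⟩

end Pool.Agent.H37
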