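import Pool.Agent.H37.Ledoux.Cosine

set_option autoImplicit false

open MeasureTheory Real

namespace Pool.Agent.H37

/-! ### Bounded measurable functions on the square -/

/-- Measurable functions which are bounded on the square. -/
def Bdd (f : E → ℝ) : Prop := Measurable f ∧ ∃ c, ∀ x ∈ Q, |f x| ≤ c

lemma Bdd.integrable {f : E → ℝ} (h : Bdd f) : Integrable f P := by
  obtain ⟨c, hc⟩ := h.2
  exact integrable_of_bound h.1 c hc

lemma Bdd.const (c : ℝ) : Bdd (fun _ => c) := ⟨measurable_const, |c|, fun _ _ => le_refl _⟩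

lemma Bdd.add {f g : E → ℝ} (hf : Bdd f) (hg : Bdd g) : Bdd (fun y => f y + g y) := by
  obtain ⟨c, hc⟩ := hf.2
  obtain ⟨d, hd⟩ := hg.2
  exact ⟨hf.1.add hg.1, c + d, fun x hx => (abs_add_le _ _).trans (add_le_add (hc x hx) (hd x hx))⟩

lemma Bdd.sub {f g : E → ℝ} (hf : Bdd f) (hg : Bdd g) : Bdd (fun y => f y - g y) := by
  obtain ⟨c, hc⟩ := hf.2
  obtain ⟨d, hd⟩ := hg.2
  exact ⟨hf.1.sub hg.1, c + d, fun x hx => (abs_sub _ _).trans (add_le_add (hc x hx) (hd x hx))⟩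

lemma Bdd.mul {f g : E → ℝ} (hf : Bdd f) (hg : Bdd g) : Bdd (fun y => f y * g y) := by
  obtain ⟨c, hc⟩ := hf.2
  obtain ⟨d, hd⟩ := hg.2
  refine ⟨hf.1.mul hg.1, c * d, fun x hx => ?_⟩
  rw [abs_mul]
  exact mul_le_mul (hc x hx) (hd x hx) (abs_nonneg _) ((abs_nonneg _).trans (hc x hx))

lemma Bdd.const_mul {f : E → ℝ} (c : ℝ) (hf : Bdd f) : Bdd (fun y => c * f y) :=
  (Bdd.const c).mul hf

lemma Bdd.sq {f : E → ℝ} (hf : Bdd f) : Bdd (fun y => f y ^ 2) := by
  simp_rw [pow_two]; exact hf.mul hf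

lemma Bdd.sum {κ : Type*} {f : κ → E → ℝ} (s : Finset κ) (h : ∀ k ∈ s, Bdd (f k)) :
    Bdd (fun y => ∑ k ∈ s, f k y) := by
  classical
  induction s using Finset.induction_on with
  | empty => simpa using Bdd.const 0
  | insert a s ha ih =>
    simp_rw [Finset.sum_insert ha]
    exact (h a (Finset.mem_insert_self a s)).add (ih fun k hk => h k (Finset.mem_insert_of_mem hk))

lemma Bdd.of_continuous {f : E → ℝ} (hf : Continuous f) : Bdd f := by
  obtain ⟨c, hc⟩ := isCompact_Q.exists_bound_of_continuousOn hf.continuousOn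
  exact ⟨hf.measurable, c, fun x hx => by simpa [Real.norm_eq_abs] using hc x hx⟩

/-! ### Bessel's inequality -/

lemma integral_sq_sub_sum {κ : Type*} [DecidableEq κ] (s : Finset κ) (u : κ → E → ℝ)
    (hu : ∀ k ∈ s, Bdd (u k))
    (orth : ∀ k ∈ s, ∀ l ∈ s, ∫ y, u k y * u l y ∂P = if k = l then 1 else 0)
    (a : κ → ℝ) : ∫ y, (∑ k ∈ s, a k * u k y) ^ 2 ∂P = ∑ k ∈ s, a k ^ 2 := by
  have h1 : (fun y => (∑ k ∈ s, a k * u k y) ^ 2) =
      fun y => ∑ k ∈ s, ∑ l ∈ s, (a k * a l) * (u k y * u l y) := by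
    funext y
    rw [pow_two, Finset.sum_mul_sum]
    apply Finset.sum_congr rfl
    intro k _
    apply Finset.sum_congr rfl
    intro l _
    ring
  rw [h1, integral_finsetSum]
  · apply Finset.sum_congr rfl
    intro k hk
    rw [integral_finsetSum]
    · have h2 : ∀ l ∈ s, ∫ y, (a k * a l) * (u k y * u l y) ∂P =
          if k = l then a k * a l else 0 := by
        intro l hl
        rw [integral_const_mul, orth k hk l hl]
        split_ifs <;> simp
      rw [Finset.sum_congr rfl h2, Finset.sum_ite_eq, if_pos hk]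
      ring
    · intro l hl
      exact (((hu k hk).mul (hu l hl)).const_mul _).integrable
  · intro k hk
    exact (Bdd.sum s fun l hl => ((hu k hk).mul (hu l hl)).const_mul _).integrable

lemma bessel {κ : Type*} [DecidableEq κ] (s : Finset κ) (u : κ → E → ℝ)
    (hu : ∀ k ∈ s, Bdd (u k))
    (orth : ∀ k ∈ s, ∀ l ∈ s, ∫ y, u k y * u l y ∂P = if k = l then 1 else 0)
    (f : E → ℝ) (hf : Bdd f) :
    ∑ k ∈ s, (∫ y, f y * u k y ∂P) ^ 2 ≤ ∫ y, f y ^ 2 ∂P := by
  set a : κ → ℝ := fun k => ∫ y, f y * u k y ∂P with ha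
  have h0 : 0 ≤ ∫ y, (f y - ∑ k ∈ s, a k * u k y) ^ 2 ∂P := integral_nonneg fun y => sq_nonneg _
  have hsumB : Bdd fun y => ∑ k ∈ s, a k * u k y := Bdd.sum s fun k hk => (hu k hk).const_mul _
  have h1 : (fun y => (f y - ∑ k ∈ s, a k * u k y) ^ 2) = fun y => f y ^ 2 -
      2 * (f y * ∑ k ∈ s, a k * u k y) + (∑ k ∈ s, a k * u k y) ^ 2 := by
    funext y; ring
  have h2 : ∫ y, f y * ∑ k ∈ s, a k * u k y ∂P = ∑ k ∈ s, a k ^ 2 := by
    have : (fun y => f y * ∑ k ∈ s, a k * u k y) = fun y => ∑ k ∈ s, a k * (f y * u k y) := by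
      funext y
      rw [Finset.mul_sum]
      apply Finset.sum_congr rfl
      intro k _
      ring
    rw [this, integral_finsetSum]
    · apply Finset.sum_congr rfl
      intro k _
      rw [integral_const_mul, pow_two]
    · intro k hk
      exact ((hf.mul (hu k hk)).const_mul _).integrable
  have e1 : Integrable (fun y => f y ^ 2 - 2 * (f y * ∑ k ∈ s, a k * u k y)) P :=
    (hf.sq.sub ((hf.mul hsumB).const_mul 2)).integrable
  have e2 : Integrable (fun y => f y ^ 2) P := hf.sq.integrable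
  have e3 : Integrable (fun y => 2 * (f y * ∑ k ∈ s, a k * u k y)) P :=
    ((hf.mul hsumB).const_mul 2).integrable
  rw [h1, integral_add e1 hsumB.sq.integrable, integral_sub e2 e3,
    integral_const_mul, h2, integral_sq_sub_sum s u hu orth a] at h0
  linarith

/-! ### The planar cosine system -/

/-- The normalised eigenfunctions of the Neumann Laplacian. -/
noncomputable def e (k : ℕ × ℕ) (y : E) : ℝ := C k.1 y.1 * C k.2 y.2

/-- The normalised first partial derivatives. -/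
noncomputable def s1 (k : ℕ × ℕ) (y : E) : ℝ := S k.1 y.1 * C k.2 y.2

/-- The normalised second partial derivatives. -/
noncomputable def s2 (k : ℕ × ℕ) (y : E) : ℝ := C k.1 y.1 * S k.2 y.2

/-- The eigenvalues. -/
noncomputable def lam (k : ℕ × ℕ) : ℝ := π ^ 2 * ((k.1 : ℝ) ^ 2 + (k.2 : ℝ) ^ 2)

lemma lam_nonneg (k : ℕ × ℕ) : 0 ≤ lam k := by unfold lam; positivity

lemma lam_pos {k : ℕ × ℕ} (hk : k ≠ 0) : 0 < lam k := by
  unfold lam
  have : (0 : ℝ) < (k.1 : ℝ) ^ 2 + (k.2 : ℝ) ^ 2 := by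
    by_contra hcon
    push Not at hcon
    have h1 : (k.1 : ℝ) = 0 := by nlinarith [sq_nonneg (k.1 : ℝ), sq_nonneg (k.2 : ℝ)]
    have h2 : (k.2 : ℝ) = 0 := by nlinarith [sq_nonneg (k.1 : ℝ), sq_nonneg (k.2 : ℝ)]
    apply hk
    apply Prod.ext
    · exact_mod_cast h1
    · exact_mod_cast h2
  positivity

@[fun_prop]
lemma continuous_e (k : ℕ × ℕ) : Continuous (e k) := by unfold e; fun_prop

@[fun_prop]
lemma continuous_s1 (k : ℕ × ℕ) : Continuous (s1 k) := by unfold s1; fun_prop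

@[fun_prop]
lemma continuous_s2 (k : ℕ × ℕ) : Continuous (s2 k) := by unfold s2; fun_prop

lemma bdd_e (k : ℕ × ℕ) : Bdd (e k) := Bdd.of_continuous (by fun_prop)
lemma bdd_s1 (k : ℕ × ℕ) : Bdd (s1 k) := Bdd.of_continuous (by fun_prop)
lemma bdd_s2 (k : ℕ × ℕ) : Bdd (s2 k) := Bdd.of_continuous (by fun_prop)

lemma abs_e_le (k : ℕ × ℕ) (y : E) : |e k y| ≤ 2 := by
  unfold e
  rw [abs_mul]
  calc |C k.1 y.1| * |C k.2 y.2| ≤ √2 * √2 :=
        mul_le_mul (abs_C_le _ _) (abs_C_le _ _) (abs_nonneg _) (Real.sqrt_nonneg _)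
    _ = 2 := sqrt_two_mul_self

lemma e_zero (y : E) : e 0 y = 1 := by simp [e, C]

lemma int_prod_mul (f g : ℝ → ℝ) : ∫ y, f y.1 * g y.2 ∂P = (∫ t, f t ∂nu) * ∫ t, g t ∂nu := by
  rw [P_eq_prod]
  exact integral_prod_mul f g

lemma int_e_mul_e (k l : ℕ × ℕ) : ∫ y, e k y * e l y ∂P = if k = l then 1 else 0 := by
  have h1 : (fun y : E => e k y * e l y) =
      fun y => (C k.1 y.1 * C l.1 y.1) * (C k.2 y.2 * C l.2 y.2) := by
    funext y; unfold e; ring
  rw [h1, int_prod_mul (fun t => C k.1 t * C l.1 t) (fun t => C k.2 t * C l.2 t), int_C_mul_C,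
    int_C_mul_C]
  by_cases h : k = l
  · simp [h]
  · rw [if_neg h]
    by_cases h1 : k.1 = l.1
    · have h2 : k.2 ≠ l.2 := fun h2 => h (Prod.ext h1 h2)
      simp [h2]
    · simp [h1]

lemma int_s1_mul_s1 (k l : ℕ × ℕ) (hk : k.1 ≠ 0) :
    ∫ y, s1 k y * s1 l y ∂P = if k = l then 1 else 0 := by
  have h1 : (fun y : E => s1 k y * s1 l y) =
      fun y => (S k.1 y.1 * S l.1 y.1) * (C k.2 y.2 * C l.2 y.2) := by
    funext y; unfold s1; ring
  rw [h1, int_prod_mul (fun t => S k.1 t * S l.1 t) (fun t => C k.2 t * C l.2 t),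
    int_S_mul_S _ _ hk, int_C_mul_C]
  by_cases h : k = l
  · simp [h]
  · rw [if_neg h]
    by_cases h1 : k.1 = l.1
    · have h2 : k.2 ≠ l.2 := fun h2 => h (Prod.ext h1 h2)
      simp [h2]
    · simp [h1]

lemma int_s2_mul_s2 (k l : ℕ × ℕ) (hk : k.2 ≠ 0) :
    ∫ y, s2 k y * s2 l y ∂P = if k = l then 1 else 0 := by
  have h1 : (fun y : E => s2 k y * s2 l y) =
      fun y => (C k.1 y.1 * C l.1 y.1) * (S k.2 y.2 * S l.2 y.2) := by
    funext y; unfold s2; ring
  rw [h1, int_prod_mul (fun t => C k.1 t * C l.1 t) (fun t => S k.2 t * S l.2 t),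
    int_S_mul_S _ _ hk, int_C_mul_C]
  by_cases h : k = l
  · simp [h]
  · rw [if_neg h]
    by_cases h1 : k.1 = l.1
    · have h2 : k.2 ≠ l.2 := fun h2 => h (Prod.ext h1 h2)
      simp [h2]
    · simp [h1]

lemma int_e (k : ℕ × ℕ) : ∫ y, e k y ∂P = if k = 0 then 1 else 0 := by
  have := int_e_mul_e k 0
  simp only [e_zero, mul_one] at this
  exact this

/-! ### Fejer sums -/

/-- The multipliers of the planar Fejer sum. -/
noncomputable def mult (N : ℕ) (k : ℕ × ℕ) : ℝ := fw N k.1 * fw N k.2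

/-- The index set of the planar Fejer sum. -/
def box (N : ℕ) : Finset (ℕ × ℕ) := Finset.range N ×ˢ Finset.range N

/-- The planar Fejer sum. -/
noncomputable def fejer (N : ℕ) (f : E → ℝ) (x : E) : ℝ :=
  ∑ k ∈ box N, mult N k * (∫ y, f y * e k y ∂P) * e k x

lemma fw_nonneg {N d : ℕ} (h : d ∈ Finset.range N) : 0 ≤ fw N d := by
  rw [Finset.mem_range] at h
  unfold fw
  have hN : (0 : ℝ) < N := by exact_mod_cast (Nat.zero_lt_of_lt h)
  have : (d : ℝ) / N ≤ 1 := by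
    rw [div_le_one hN]; exact_mod_cast h.le
  linarith

lemma fw_le_one (N d : ℕ) : fw N d ≤ 1 := by
  unfold fw
  have : (0 : ℝ) ≤ (d : ℝ) / N := by positivity
  linarith

lemma mult_nonneg {N : ℕ} {k : ℕ × ℕ} (h : k ∈ box N) : 0 ≤ mult N k := by
  rw [box, Finset.mem_product] at h
  exact mul_nonneg (fw_nonneg h.1) (fw_nonneg h.2)

lemma mult_le_one {N : ℕ} {k : ℕ × ℕ} (h : k ∈ box N) : mult N k ≤ 1 := by
  rw [box, Finset.mem_product] at h
  exact mul_le_one₀ (fw_le_one _ _) (fw_nonneg h.2) (fw_le_one _ _)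

lemma one_sub_mult_le {N : ℕ} {k : ℕ × ℕ} (h : k ∈ box N) :
    1 - mult N k ≤ ((k.1 : ℝ) + k.2) / N := by
  unfold mult fw
  have h1 : (0 : ℝ) ≤ (k.1 : ℝ) / N := by positivity
  have h2 : (0 : ℝ) ≤ (k.2 : ℝ) / N := by positivity
  rw [add_div]
  nlinarith [mul_nonneg h1 h2]

lemma fejer_kernel (N : ℕ) (f : E → ℝ) (hf : Bdd f) (x : E) :
    fejer N f x = ∫ y, f y * (KN N x.1 y.1 * KN N x.2 y.2) ∂P := by
  have h1 : (fun y : E => f y * (KN N x.1 y.1 * KN N x.2 y.2)) =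
      fun y => ∑ k ∈ box N, (mult N k * e k x) * (f y * e k y) := by
    funext y
    unfold KN box mult e
    rw [Finset.sum_mul_sum, Finset.sum_product, Finset.mul_sum]
    apply Finset.sum_congr rfl
    intro i _
    rw [Finset.mul_sum]
    apply Finset.sum_congr rfl
    intro j _
    ring
  rw [h1, integral_finsetSum]
  · unfold fejer
    apply Finset.sum_congr rfl
    intro k _
    rw [integral_const_mul]
    ring
  · intro k _
    exact ((hf.mul (bdd_e k)).const_mul _).integrable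

lemma fejer_error (N : ℕ) (hN : 0 < N) (f : E → ℝ) (hf : Bdd f)
    (hlip : ∀ x ∈ Q, ∀ y ∈ Q, |f y - f x| ≤ 2 * (|y.1 - x.1| + |y.2 - x.2|)) (x : E) (hx : x ∈ Q) :
    |fejer N f x - f x| ≤ 4 / √(2 * N) := by
  have hKc : Continuous fun y : E => KN N x.1 y.1 * KN N x.2 y.2 := by fun_prop
  have hKb : Bdd fun y : E => KN N x.1 y.1 * KN N x.2 y.2 := Bdd.of_continuous hKc
  have hK0 : ∀ y : E, 0 ≤ KN N x.1 y.1 * KN N x.2 y.2 := fun y =>
    mul_nonneg (KN_nonneg N hN _ _) (KN_nonneg N hN _ _)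
  have hK1 : ∫ y : E, KN N x.1 y.1 * KN N x.2 y.2 ∂P = 1 := by
    rw [int_prod_mul (fun t => KN N x.1 t) (fun t => KN N x.2 t), int_KN N hN, int_KN N hN, mul_one]
  have h1 : fejer N f x - f x = ∫ y, (f y - f x) * (KN N x.1 y.1 * KN N x.2 y.2) ∂P := by
    have e1 : (fun y : E => (f y - f x) * (KN N x.1 y.1 * KN N x.2 y.2)) =
        fun y => f y * (KN N x.1 y.1 * KN N x.2 y.2) - f x * (KN N x.1 y.1 * KN N x.2 y.2) := by
      funext y; ring
    rw [e1, integral_sub (hf.mul hKb).integrable (hKb.const_mul _).integrable, integral_const_mul,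
      hK1, fejer_kernel N f hf x, mul_one]
  rw [h1]
  have hxI := (mem_Q x).mp hx
  have h2 : |∫ y, (f y - f x) * (KN N x.1 y.1 * KN N x.2 y.2) ∂P| ≤
      ∫ y, |(f y - f x) * (KN N x.1 y.1 * KN N x.2 y.2)| ∂P := abs_integral_le_integral_abs
  have h3 : ∫ y, |(f y - f x) * (KN N x.1 y.1 * KN N x.2 y.2)| ∂P ≤
      ∫ y : E, (2 * ((|y.1 - x.1| * KN N x.1 y.1) * KN N x.2 y.2) +
        2 * (KN N x.1 y.1 * (|y.2 - x.2| * KN N x.2 y.2))) ∂P := by
    apply integral_mono_Q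
    · exact ((hf.sub (Bdd.const _)).mul hKb).integrable.abs
    · exact (Bdd.of_continuous (by fun_prop)).integrable
    · intro y hy
      rw [abs_mul, abs_of_nonneg (hK0 y)]
      have := mul_le_mul_of_nonneg_right (hlip x hx y hy) (hK0 y)
      linarith
  have h4 : ∫ y : E, (2 * ((|y.1 - x.1| * KN N x.1 y.1) * KN N x.2 y.2) +
        2 * (KN N x.1 y.1 * (|y.2 - x.2| * KN N x.2 y.2))) ∂P =
      2 * (∫ t, |t - x.1| * KN N x.1 t ∂nu) + 2 * (∫ t, |t - x.2| * KN N x.2 t ∂nu) := by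
    rw [integral_add, integral_const_mul, integral_const_mul,
      int_prod_mul (fun t => |t - x.1| * KN N x.1 t) (fun t => KN N x.2 t),
      int_prod_mul (fun t => KN N x.1 t) (fun t => |t - x.2| * KN N x.2 t),
      int_KN N hN, int_KN N hN, mul_one, one_mul]
    · exact (Bdd.of_continuous (by fun_prop)).integrable
    · exact (Bdd.of_continuous (by fun_prop)).integrable
  have h5 := first_moment N hN x.1 ⟨hxI.1.1, hxI.1.2⟩
  have h6 := first_moment N hN x.2 ⟨hxI.2.1, hxI.2.2⟩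
  have h7 : 4 / √(2 * (N : ℝ)) = 4 * (1 / √(2 * N)) := by ring
  rw [h7]
  linarith

end Pool.Agent.H37
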