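import Pool.Agent.H37.Ledoux.Displacement
import Pool.Agent.H37.Ledoux.Planar

set_option autoImplicit false
set_option linter.unusedSectionVars false

open MeasureTheory Real

namespace Pool.Agent.H37

variable {ι : Type} [Fintype ι] [Nonempty ι]

/-! ### Integration by parts -/

lemma deriv_eq_of_le {f : ℝ → ℝ} {x g : ℝ} (hd : DifferentiableAt ℝ f x)
    (h : ∀ s, f (x + s) ≤ f x + g * s + s ^ 2) : deriv f x = g := by
  have hf : HasDerivAt f (deriv f x) (x + 0) := by rw [add_zero]; exact hd.hasDerivAt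
  have h0 : HasDerivAt (fun s : ℝ => f (x + s)) (deriv f x) 0 := by
    have := hf.comp_const_add x 0
    exact this
  have h1 : HasDerivAt (fun s => f x + g * s + s ^ 2 - f (x + s)) (g - deriv f x) 0 := by
    have e1 : HasDerivAt (fun s : ℝ => f x + g * s) g 0 := by
      simpa using ((hasDerivAt_id (0 : ℝ)).const_mul g).const_add (f x)
    have e2 : HasDerivAt (fun s : ℝ => s ^ 2) 0 0 := by
      simpa using (hasDerivAt_pow 2 (0 : ℝ))
    exact ((e1.add e2).sub h0).congr_deriv (by ring)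
  have h2 : IsLocalMin (fun s => f x + g * s + s ^ 2 - f (x + s)) 0 := by
    apply Filter.Eventually.of_forall
    intro s
    have := h s
    simp only [mul_zero, add_zero, ne_eq, OfNat.ofNat_ne_zero, not_false_eq_true, zero_pow, sub_self]
    linarith
  have := h2.hasDerivAt_eq_zero h1
  linarith

lemma lipschitz_S (j : ℕ) : LipschitzWith (Real.toNNReal (√2 * (π * j))) (S j) := by
  apply LipschitzWith.of_dist_le_mul
  intro x y
  rw [Real.coe_toNNReal _ (by positivity), Real.dist_eq, Real.dist_eq]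
  unfold S
  rw [← mul_sub, abs_mul, abs_of_nonneg (Real.sqrt_nonneg 2), mul_assoc (√2) (π * j)]
  apply mul_le_mul_of_nonneg_left _ (Real.sqrt_nonneg 2)
  calc |sin (π * j * x) - sin (π * j * y)| ≤ |π * j * x - π * j * y| := abs_sin_sub_sin_le _ _
    _ = π * j * |x - y| := by
      rw [← mul_sub, abs_mul, abs_of_nonneg (by positivity)]

lemma parts (f g : ℝ → ℝ) (K : NNReal) (hf : LipschitzOnWith K f (Set.Icc 0 1))
    (h : ∀ t ∈ Set.Icc (0 : ℝ) 1, ∀ s, f (t + s) ≤ f t + g t * s + s ^ 2) (j : ℕ) :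
    π * j * ∫ t, f t * C j t ∂nu = -∫ t, g t * S j t ∂nu := by
  have hab : Set.uIcc (0 : ℝ) 1 = Set.Icc 0 1 := Set.uIcc_of_le zero_le_one
  have h1 : AbsolutelyContinuousOnInterval f 0 1 := by
    apply LipschitzOnWith.absolutelyContinuousOnInterval (K := K)
    rw [hab]; exact hf
  have h2 : AbsolutelyContinuousOnInterval (S j) 0 1 :=
    (lipschitz_S j).lipschitzOnWith.absolutelyContinuousOnInterval
  have h3 := h1.integral_mul_deriv_eq_deriv_mul h2
  rw [S_zero_right, S_one_right] at h3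
  rw [nu_integral, nu_integral, ← intervalIntegral.integral_const_mul]
  have h4 : ∫ t in (0 : ℝ)..1, π * j * (f t * C j t) = ∫ t in (0 : ℝ)..1, f t * deriv (S j) t := by
    apply intervalIntegral.integral_congr
    intro t _
    simp only
    rw [(hasDerivAt_S j t).deriv]
    unfold C
    by_cases hj : j = 0
    · subst hj; simp
    · simp only [hj, if_false]; ring
  have h5 : ∫ t in (0 : ℝ)..1, deriv f t * S j t = ∫ t in (0 : ℝ)..1, g t * S j t := by
    apply intervalIntegral.integral_congr_ae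
    filter_upwards [h1.ae_differentiableAt] with t ht htm
    have htm' : t ∈ Set.uIcc (0 : ℝ) 1 := Set.uIoc_subset_uIcc htm
    have hd := ht htm'
    rw [hab] at htm'
    rw [deriv_eq_of_le hd (h t htm')]
  rw [h4, h3, h5]
  ring

/-! ### The potential -/

lemma Opt.super {X : ι → E} (o : Opt X) (y : E) (s t : ℝ) :
    psi X o.b (y.1 + s, y.2 + t) ≤ psi X o.b y + 2 * (y.1 - (o.T y).1) * s +
      2 * (y.2 - (o.T y).2) * t + (s ^ 2 + t ^ 2) := by
  have h1 := o.argmin y
  have h2 := psi_le X o.b (y.1 + s, y.2 + t) (o.idx y)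
  have e : sqd (y.1 + s, y.2 + t) (X (o.idx y)) = sqd y (X (o.idx y)) +
      2 * (y.1 - (X (o.idx y)).1) * s + 2 * (y.2 - (X (o.idx y)).2) * t + (s ^ 2 + t ^ 2) := by
    unfold sqd; ring
  unfold Opt.T
  linarith

/-- The Fourier coefficients of the potential. -/
noncomputable def Opt.c {X : ι → E} (o : Opt X) (k : ℕ × ℕ) : ℝ := ∫ y, psi X o.b y * e k y ∂P

/-- First component of the gradient of the potential. -/
noncomputable def Opt.g1 {X : ι → E} (o : Opt X) (y : E) : ℝ := 2 * (y.1 - (o.T y).1)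

/-- Second component of the gradient of the potential. -/
noncomputable def Opt.g2 {X : ι → E} (o : Opt X) (y : E) : ℝ := 2 * (y.2 - (o.T y).2)

lemma Opt.bdd_g1 {X : ι → E} (o : Opt X) (hX : ∀ i, X i ∈ Q) : Bdd o.g1 := by
  refine ⟨?_, 2, fun y hy => ?_⟩
  · unfold Opt.g1
    have := o.measurable_T
    fun_prop
  · unfold Opt.g1
    have hT := (mem_Q _).mp (o.T_mem hX y)
    rw [mem_Q] at hy
    rw [abs_le]
    constructor <;> linarith [hy.1.1, hy.1.2, hT.1.1, hT.1.2]

lemma Opt.bdd_g2 {X : ι → E} (o : Opt X) (hX : ∀ i, X i ∈ Q) : Bdd o.g2 := by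
  refine ⟨?_, 2, fun y hy => ?_⟩
  · unfold Opt.g2
    have := o.measurable_T
    fun_prop
  · unfold Opt.g2
    have hT := (mem_Q _).mp (o.T_mem hX y)
    rw [mem_Q] at hy
    rw [abs_le]
    constructor <;> linarith [hy.2.1, hy.2.2, hT.2.1, hT.2.2]

lemma bdd_psi (X : ι → E) (b : ι → ℝ) : Bdd (psi X b) := Bdd.of_continuous (continuous_psi X b)

lemma ae_mem_I : ∀ᵐ t ∂nu, t ∈ Set.Icc (0 : ℝ) 1 := by
  unfold nu
  exact ae_restrict_mem measurableSet_Icc

lemma Opt.parts1 {X : ι → E} (o : Opt X) (hX : ∀ i, X i ∈ Q) (k : ℕ × ℕ) :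
    π * k.1 * o.c k = -∫ y, o.g1 y * s1 k y ∂P := by
  unfold Opt.c
  have i1 : Integrable (fun y => psi X o.b y * e k y) (nu.prod nu) := by
    rw [← P_eq_prod]; exact ((bdd_psi X o.b).mul (bdd_e k)).integrable
  have i2 : Integrable (fun y => o.g1 y * s1 k y) (nu.prod nu) := by
    rw [← P_eq_prod]; exact ((o.bdd_g1 hX).mul (bdd_s1 k)).integrable
  rw [P_eq_prod, integral_prod_symm _ i1, integral_prod_symm _ i2, ← integral_const_mul,
    ← integral_neg]
  apply integral_congr_ae
  filter_upwards [ae_mem_I] with s hs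
  have h1 : ∫ t, psi X o.b (t, s) * e k (t, s) ∂nu =
      (∫ t, psi X o.b (t, s) * C k.1 t ∂nu) * C k.2 s := by
    rw [← integral_mul_const]
    congr 1
    funext t
    unfold e
    ring
  have h2 : ∫ t, o.g1 (t, s) * s1 k (t, s) ∂nu =
      (∫ t, o.g1 (t, s) * S k.1 t ∂nu) * C k.2 s := by
    rw [← integral_mul_const]
    congr 1
    funext t
    unfold s1
    ring
  have h3 := parts (fun t => psi X o.b (t, s)) (fun t => o.g1 (t, s)) 2 (by
      apply LipschitzOnWith.of_dist_le_mul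
      intro t ht t' ht'
      rw [Real.dist_eq, Real.dist_eq]
      have := o.lip_abs hX (t', s) (t, s) ⟨ht', hs⟩ ⟨ht, hs⟩
      simp only [sub_self, abs_zero, add_zero] at this
      exact this) (by
      intro t _ u
      have := o.super (t, s) u 0
      simp only [add_zero, mul_zero, ne_eq, OfNat.ofNat_ne_zero, not_false_eq_true, zero_pow] at this
      exact this) k.1
  rw [h1, h2, ← mul_assoc, h3]
  ring

lemma Opt.parts2 {X : ι → E} (o : Opt X) (hX : ∀ i, X i ∈ Q) (k : ℕ × ℕ) :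
    π * k.2 * o.c k = -∫ y, o.g2 y * s2 k y ∂P := by
  unfold Opt.c
  have i1 : Integrable (fun y => psi X o.b y * e k y) (nu.prod nu) := by
    rw [← P_eq_prod]; exact ((bdd_psi X o.b).mul (bdd_e k)).integrable
  have i2 : Integrable (fun y => o.g2 y * s2 k y) (nu.prod nu) := by
    rw [← P_eq_prod]; exact ((o.bdd_g2 hX).mul (bdd_s2 k)).integrable
  rw [P_eq_prod, integral_prod _ i1, integral_prod _ i2, ← integral_const_mul,
    ← integral_neg]
  apply integral_congr_ae
  filter_upwards [ae_mem_I] with s hs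
  have h1 : ∫ t, psi X o.b (s, t) * e k (s, t) ∂nu =
      (∫ t, psi X o.b (s, t) * C k.2 t ∂nu) * C k.1 s := by
    rw [← integral_mul_const]
    congr 1
    funext t
    unfold e
    ring
  have h2 : ∫ t, o.g2 (s, t) * s2 k (s, t) ∂nu =
      (∫ t, o.g2 (s, t) * S k.2 t ∂nu) * C k.1 s := by
    rw [← integral_mul_const]
    congr 1
    funext t
    unfold s2
    ring
  have h3 := parts (fun t => psi X o.b (s, t)) (fun t => o.g2 (s, t)) 2 (by
      apply LipschitzOnWith.of_dist_le_mul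
      intro t ht t' ht'
      rw [Real.dist_eq, Real.dist_eq]
      have := o.lip_abs hX (s, t') (s, t) ⟨hs, ht'⟩ ⟨hs, ht⟩
      simp only [sub_self, abs_zero, zero_add] at this
      exact this) (by
      intro t _ u
      have := o.super (s, t) 0 u
      simp only [add_zero, mul_zero, ne_eq, OfNat.ofNat_ne_zero, not_false_eq_true, zero_pow,
        zero_add] at this
      exact this) k.2
  rw [h1, h2, ← mul_assoc, h3]
  ring

/-- The energy identity bound. -/
lemma Opt.energy {X : ι → E} (o : Opt X) (hX : ∀ i, X i ∈ Q) (s : Finset (ℕ × ℕ)) :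
    ∑ k ∈ s, lam k * o.c k ^ 2 ≤ 4 * TT X := by
  classical
  have hg1 : ∫ y, o.g1 y ^ 2 ∂P + ∫ y, o.g2 y ^ 2 ∂P = 4 * TT X := by
    rw [← integral_add (o.bdd_g1 hX).sq.integrable (o.bdd_g2 hX).sq.integrable, o.cost',
      ← integral_const_mul]
    congr 1
    funext y
    unfold Opt.g1 Opt.g2 sqd
    ring
  have b1 := bessel (s.filter fun k => k.1 ≠ 0) s1 (fun k _ => bdd_s1 k)
    (fun k hk l _ => int_s1_mul_s1 k l (Finset.mem_filter.mp hk).2) o.g1 (o.bdd_g1 hX)
  have b2 := bessel (s.filter fun k => k.2 ≠ 0) s2 (fun k _ => bdd_s2 k)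
    (fun k hk l _ => int_s2_mul_s2 k l (Finset.mem_filter.mp hk).2) o.g2 (o.bdd_g2 hX)
  have c1 : ∑ k ∈ s, (π * k.1 * o.c k) ^ 2 =
      ∑ k ∈ s.filter (fun k => k.1 ≠ 0), (∫ y, o.g1 y * s1 k y ∂P) ^ 2 := by
    rw [Finset.sum_filter]
    apply Finset.sum_congr rfl
    intro k _
    split_ifs with h
    · rw [o.parts1 hX, neg_sq]
    · push Not at h
      rw [h]; simp
  have c2 : ∑ k ∈ s, (π * k.2 * o.c k) ^ 2 =
      ∑ k ∈ s.filter (fun k => k.2 ≠ 0), (∫ y, o.g2 y * s2 k y ∂P) ^ 2 := by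
    rw [Finset.sum_filter]
    apply Finset.sum_congr rfl
    intro k _
    split_ifs with h
    · rw [o.parts2 hX, neg_sq]
    · push Not at h
      rw [h]; simp
  have c3 : ∑ k ∈ s, lam k * o.c k ^ 2 =
      ∑ k ∈ s, (π * k.1 * o.c k) ^ 2 + ∑ k ∈ s, (π * k.2 * o.c k) ^ 2 := by
    rw [← Finset.sum_add_distrib]
    apply Finset.sum_congr rfl
    intro k _
    unfold lam
    ring
  rw [c3, c1, c2]
  linarith

/-! ### Taylor expansion of the basis -/

lemma cos_taylor (a d : ℝ) : |cos (a + d) - cos a + d * sin a| ≤ d ^ 2 := by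
  have h := Convex.norm_image_sub_le_of_norm_hasDerivWithin_le
    (f := fun s => cos (a + s) + s * sin a) (f' := fun s => -sin (a + s) + sin a) (C := |d|)
    (s := Set.uIcc 0 d) (x := 0) (y := d) (by
      intro s _
      have h1 : HasDerivAt (fun s => cos (a + s)) (-sin (a + s)) s := by
        have := (hasDerivAt_cos (a + s)).comp_const_add a s
        exact this
      have h2 : HasDerivAt (fun s => s * sin a) (sin a) s := by
        simpa using (hasDerivAt_id s).mul_const (sin a)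
      exact (h1.add h2).hasDerivWithinAt) (by
      intro s hs
      rw [Real.norm_eq_abs]
      have h1 : |(-sin (a + s) + sin a)| = |sin a - sin (a + s)| := by congr 1; ring
      rw [h1]
      have h2 := abs_sin_sub_sin_le a (a + s)
      have h3 : |a - (a + s)| = |s| := by rw [← abs_neg]; congr 1; ring
      rw [h3] at h2
      have h4 : |s| ≤ |d| := by
        rcases Set.mem_uIcc.mp hs with h | h
        · rw [abs_of_nonneg h.1, abs_of_nonneg (h.1.trans h.2)]; exact h.2
        · rw [abs_of_nonpos h.2, abs_of_nonpos (h.1.trans h.2)]; linarith [h.1]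
      exact h2.trans h4) (convex_uIcc 0 d) (Set.left_mem_uIcc) (Set.right_mem_uIcc)
  simp only [add_zero, zero_mul, sub_zero, Real.norm_eq_abs] at h
  have h1 : cos (a + d) - cos a + d * sin a = cos (a + d) + d * sin a - cos a := by ring
  rw [h1]
  calc |cos (a + d) + d * sin a - cos a| ≤ |d| * |d| := h
    _ = d ^ 2 := by rw [abs_mul_abs_self, pow_two]

/-- The normalising constants. -/
noncomputable def nc (j : ℕ) : ℝ := if j = 0 then 1 else √2

lemma C_eq (j : ℕ) (t : ℝ) : C j t = nc j * cos (π * j * t) := by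
  unfold C nc
  by_cases h : j = 0
  · subst h; simp
  · simp [h]

lemma nc_nonneg (j : ℕ) : 0 ≤ nc j := by
  unfold nc; split_ifs
  · norm_num
  · exact Real.sqrt_nonneg 2

lemma nc_le (j : ℕ) : nc j ≤ √2 := by
  unfold nc; split_ifs
  · rw [Real.le_sqrt (by norm_num) (by norm_num)]; norm_num
  · exact le_refl _

lemma nc_mul_S (j : ℕ) (t : ℝ) : nc j * (π * j * sin (π * j * t)) = π * j * S j t := by
  unfold nc S
  by_cases h : j = 0
  · subst h; simp
  · simp only [h, if_false]; ring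

lemma nc_mul_nc_le (i j : ℕ) : nc i * nc j ≤ 2 := by
  calc nc i * nc j ≤ √2 * √2 := mul_le_mul (nc_le i) (nc_le j) (nc_nonneg j) (Real.sqrt_nonneg 2)
    _ = 2 := sqrt_two_mul_self

lemma e_eq (k : ℕ × ℕ) (y : E) : e k y = nc k.1 * nc k.2 / 2 *
    (cos (π * k.1 * y.1 + π * k.2 * y.2) + cos (π * k.1 * y.1 - π * k.2 * y.2)) := by
  unfold e
  rw [C_eq, C_eq, cos_add, cos_sub]
  ring

/-- Second order Taylor expansion of the basis functions. -/
lemma e_taylor (k : ℕ × ℕ) (x y : E) :
    |e k x - e k y + π * k.1 * s1 k y * (x.1 - y.1) + π * k.2 * s2 k y * (x.2 - y.2)| ≤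
      2 * lam k * sqd x y := by
  set a := π * k.1 * y.1 with ha
  set b := π * k.2 * y.2 with hb
  set u := π * k.1 * (x.1 - y.1) with hu
  set v := π * k.2 * (x.2 - y.2) with hv
  have e1 : π * k.1 * x.1 = a + u := by rw [ha, hu]; ring
  have e2 : π * k.2 * x.2 = b + v := by rw [hb, hv]; ring
  have h1 := cos_taylor (a + b) (u + v)
  have h2 := cos_taylor (a - b) (u - v)
  have key : e k x - e k y + π * k.1 * s1 k y * (x.1 - y.1) + π * k.2 * s2 k y * (x.2 - y.2) =
      nc k.1 * nc k.2 / 2 * ((cos ((a + b) + (u + v)) - cos (a + b) + (u + v) * sin (a + b)) +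
        (cos ((a - b) + (u - v)) - cos (a - b) + (u - v) * sin (a - b))) := by
    have hs1 : π * k.1 * s1 k y = nc k.1 * nc k.2 * (π * k.1 * (sin a * cos b)) := by
      unfold s1
      rw [C_eq, ← hb]
      have := nc_mul_S k.1 y.1
      rw [← ha] at this
      linear_combination (-nc k.2 * cos b) * this
    have hs2 : π * k.2 * s2 k y = nc k.1 * nc k.2 * (π * k.2 * (cos a * sin b)) := by
      unfold s2
      rw [C_eq, ← ha]
      have := nc_mul_S k.2 y.2
      rw [← hb] at this
      linear_combination (-nc k.1 * cos a) * this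
    rw [e_eq, e_eq, e1, e2, ← ha, ← hb, hs1, hs2]
    have e3 : a + u + (b + v) = (a + b) + (u + v) := by ring
    have e4 : a + u - (b + v) = (a - b) + (u - v) := by ring
    rw [e3, e4, sin_add a b, sin_sub a b]
    have e5 : nc k.1 * nc k.2 * (π * k.1 * (sin a * cos b)) * (x.1 - y.1) =
      nc k.1 * nc k.2 * (u * (sin a * cos b)) := by rw [hu]; ring
    have e6 : nc k.1 * nc k.2 * (π * k.2 * (cos a * sin b)) * (x.2 - y.2) =
      nc k.1 * nc k.2 * (v * (cos a * sin b)) := by rw [hv]; ring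
    rw [e5, e6]
    ring
  rw [key, abs_mul, abs_of_nonneg (by
    have := nc_nonneg k.1; have := nc_nonneg k.2; positivity : 0 ≤ nc k.1 * nc k.2 / 2)]
  have h3 : |(cos ((a + b) + (u + v)) - cos (a + b) + (u + v) * sin (a + b)) +
        (cos ((a - b) + (u - v)) - cos (a - b) + (u - v) * sin (a - b))| ≤
        2 * (u ^ 2 + v ^ 2) := by
    refine (abs_add_le _ _).trans ?_
    nlinarith
  have h4 : u ^ 2 + v ^ 2 ≤ lam k * sqd x y := by
    unfold lam sqd
    rw [hu, hv]
    have : (0:ℝ) ≤ (π * k.1 * (x.2 - y.2)) ^ 2 + (π * k.2 * (x.1 - y.1)) ^ 2 := by positivity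
    nlinarith
  calc nc k.1 * nc k.2 / 2 * _ ≤ 1 * (2 * (u ^ 2 + v ^ 2)) := by
        apply mul_le_mul _ h3 (abs_nonneg _) (by norm_num)
        have := nc_mul_nc_le k.1 k.2
        linarith
    _ ≤ 2 * lam k * sqd x y := by linarith

/-- The basis functions are Lipschitz. -/
lemma e_sub_sq_le (k : ℕ × ℕ) (x y : E) : (e k x - e k y) ^ 2 ≤ 4 * lam k * sqd x y := by
  set a := π * k.1 * y.1 with ha
  set b := π * k.2 * y.2 with hb
  set u := π * k.1 * (x.1 - y.1) with hu
  set v := π * k.2 * (x.2 - y.2) with hv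
  have e1 : π * k.1 * x.1 = a + u := by rw [ha, hu]; ring
  have e2 : π * k.2 * x.2 = b + v := by rw [hb, hv]; ring
  have h1 : |cos (a + u + (b + v)) - cos (a + b)| ≤ |u + v| := by
    refine (abs_cos_sub_cos_le _ _).trans (le_of_eq ?_)
    congr 1; ring
  have h2 : |cos (a + u - (b + v)) - cos (a - b)| ≤ |u - v| := by
    refine (abs_cos_sub_cos_le _ _).trans (le_of_eq ?_)
    congr 1; ring
  have h3 : e k x - e k y = nc k.1 * nc k.2 / 2 * ((cos (a + u + (b + v)) - cos (a + b)) +
      (cos (a + u - (b + v)) - cos (a - b))) := by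
    rw [e_eq, e_eq, e1, e2, ← ha, ← hb]
    ring
  rw [h3, mul_pow]
  have h4 : (nc k.1 * nc k.2 / 2) ^ 2 ≤ 1 := by
    have h5 := nc_mul_nc_le k.1 k.2
    have h6 := mul_nonneg (nc_nonneg k.1) (nc_nonneg k.2)
    rw [sq_le_one_iff₀ (by positivity)]
    linarith
  have h7 : ((cos (a + u + (b + v)) - cos (a + b)) + (cos (a + u - (b + v)) - cos (a - b))) ^ 2 ≤
      4 * (u ^ 2 + v ^ 2) := by
    have g1 : (cos (a + u + (b + v)) - cos (a + b)) ^ 2 ≤ (u + v) ^ 2 := sq_le_sq.mpr h1
    have g2 : (cos (a + u - (b + v)) - cos (a - b)) ^ 2 ≤ (u - v) ^ 2 := sq_le_sq.mpr h2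
    nlinarith [sq_nonneg ((cos (a + u + (b + v)) - cos (a + b)) -
      (cos (a + u - (b + v)) - cos (a - b)))]
  have h8 : u ^ 2 + v ^ 2 ≤ lam k * sqd x y := by
    unfold lam sqd
    rw [hu, hv]
    have : (0:ℝ) ≤ (π * k.1 * (x.2 - y.2)) ^ 2 + (π * k.2 * (x.1 - y.1)) ^ 2 := by positivity
    nlinarith
  calc (nc k.1 * nc k.2 / 2) ^ 2 * _ ≤ 1 * (4 * (u ^ 2 + v ^ 2)) :=
        mul_le_mul h4 h7 (sq_nonneg _) (by norm_num)
    _ ≤ 4 * lam k * sqd x y := by linarith

/-! ### Linearisation -/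

/-- The empirical averages of the basis functions. -/
noncomputable def av (X : ι → E) (k : ℕ × ℕ) : ℝ := (∑ i, e k (X i)) / Fintype.card ι

lemma Opt.int_e_T {X : ι → E} (o : Opt X) (k : ℕ × ℕ) : ∫ y, e k (o.T y) ∂P = av X k :=
  o.push fun i => e k (X i)

lemma Opt.bdd_comp {X : ι → E} (o : Opt X) (F : ι → ℝ) : Bdd fun y => F (o.idx y) :=
  ⟨o.measurable_comp F, ∑ i, |F i|, fun y _ =>
    Finset.single_le_sum (f := fun i => |F i|) (fun i _ => abs_nonneg _) (Finset.mem_univ (o.idx y))⟩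

lemma Opt.bdd_sqd {X : ι → E} (o : Opt X) (hX : ∀ i, X i ∈ Q) : Bdd fun y => sqd y (o.T y) :=
  ⟨measurable_sqd measurable_id o.measurable_T, 2, fun y hy => by
    rw [abs_of_nonneg (sqd_nonneg _ _)]
    exact sqd_le_two hy (hX _)⟩

/-- Linearisation: the Fourier coefficients of the potential are essentially
`-2 av k / lam k`. -/
lemma Opt.lin {X : ι → E} (o : Opt X) (hX : ∀ i, X i ∈ Q) (k : ℕ × ℕ) (hk : k ≠ 0) :
    |o.c k + 2 * av X k / lam k| ≤ 4 * TT X := by
  have hl := lam_pos hk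
  have hb : Bdd fun y => e k (o.T y) := o.bdd_comp fun i => e k (X i)
  have h1 : ∫ y, (e k (o.T y) - e k y + (-(π * k.1 / 2)) * (o.g1 y * s1 k y) +
      (-(π * k.2 / 2)) * (o.g2 y * s2 k y)) ∂P = av X k + lam k * o.c k / 2 := by
    rw [integral_add ((((hb.sub (bdd_e k)).add (((o.bdd_g1 hX).mul (bdd_s1 k)).const_mul _))).integrable)
      ((((o.bdd_g2 hX).mul (bdd_s2 k)).const_mul _).integrable),
      integral_add (hb.sub (bdd_e k)).integrable
      ((((o.bdd_g1 hX).mul (bdd_s1 k)).const_mul _).integrable),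
      integral_sub hb.integrable (bdd_e k).integrable, integral_const_mul, integral_const_mul,
      o.int_e_T, int_e, if_neg hk]
    have p1 := o.parts1 hX k
    have p2 := o.parts2 hX k
    unfold lam
    linear_combination (-(π * k.1 / 2)) * p1 + (-(π * k.2 / 2)) * p2
  have h2 : |av X k + lam k * o.c k / 2| ≤ 2 * lam k * TT X := by
    rw [← h1, o.cost', ← integral_const_mul]
    refine abs_integral_le_integral_abs.trans ?_
    apply integral_mono_Q
    · exact (((hb.sub (bdd_e k)).add (((o.bdd_g1 hX).mul (bdd_s1 k)).const_mul _)).add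
        (((o.bdd_g2 hX).mul (bdd_s2 k)).const_mul _)).integrable.abs
    · exact ((o.bdd_sqd hX).const_mul _).integrable
    · intro y _
      have := e_taylor k (o.T y) y
      rw [sqd_comm] at this
      refine le_trans (le_of_eq ?_) this
      congr 1
      unfold Opt.g1 Opt.g2
      ring
  have h3 : o.c k + 2 * av X k / lam k = (2 / lam k) * (av X k + lam k * o.c k / 2) := by
    field_simp
    ring
  rw [h3, abs_mul, abs_of_pos (by positivity)]
  calc 2 / lam k * |av X k + lam k * o.c k / 2| ≤ 2 / lam k * (2 * lam k * TT X) :=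
        mul_le_mul_of_nonneg_left h2 (by positivity)
    _ = 4 * TT X := by field_simp; ring

lemma Opt.c_zero {X : ι → E} (o : Opt X) : o.c 0 = 0 := by
  unfold Opt.c
  simp only [e_zero, mul_one]
  exact o.mean

/-- A crude bound on the Fourier coefficients. -/
lemma Opt.abs_c_le {X : ι → E} (o : Opt X) (hX : ∀ i, X i ∈ Q) (k : ℕ × ℕ) : |o.c k| ≤ 8 := by
  unfold Opt.c
  refine abs_integral_le_integral_abs.trans ?_
  have : ∫ y, |psi X o.b y * e k y| ∂P ≤ ∫ _y, (8 : ℝ) ∂P := by
    apply integral_mono_Q ((bdd_psi X o.b).mul (bdd_e k)).integrable.abs (integrable_const _)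
    intro y hy
    rw [abs_mul]
    calc |psi X o.b y| * |e k y| ≤ 4 * 2 :=
          mul_le_mul (o.psi_bound hX y hy) (abs_e_le k y) (abs_nonneg _) (by norm_num)
      _ = 8 := by norm_num
  simpa using this

end Pool.Agent.H37
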