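import Pool.Agent.H37.Ledoux.Asymp
import Pool.Agent.H37.Ledoux.Clt
import Pool.Agent.H37.Ledoux.Limit

set_option autoImplicit false
set_option linter.unusedSectionVars false

open MeasureTheory ProbabilityTheory Real Filter Topology

namespace Pool.Agent.H37

/-- The rescaled and centred cost. -/
noncomputable def VV (n : ℕ) (X : Fin (n + 1) → E) : ℝ :=
  ((n : ℝ) + 1) * (TT (prs X) - ∫ Y, TT (prs Y) ∂(Pn P (n + 1)))

lemma BM_VV (n : ℕ) : BM (VV n) := (BM_TT.sub (BM.const _)).const_mul _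

lemma int_VV (n : ℕ) : ∫ X, VV n X ∂(Pn P (n + 1)) = 0 := by
  unfold VV
  rw [integral_const_mul, integral_sub (BM_TT.integrable _) (integrable_const _)]
  simp

lemma BM_WK (n : ℕ) (K : Finset (ℕ × ℕ)) : BM (WK n K) := by
  unfold WK
  apply BM.sum
  intro k _
  simp_rw [div_eq_mul_inv]
  exact (((BM_av n k).sq.const_mul _).sub (BM.const _)).mul (BM.const _)

lemma WK_eq' (n : ℕ) (K : Finset (ℕ × ℕ)) (X : Fin (n + 1) → E) :
    WK n K X = ((n : ℝ) + 1) * Xi X K - LL K := by
  unfold WK Xi LL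
  rw [Finset.mul_sum, ← Finset.sum_sub_distrib]
  apply Finset.sum_congr rfl
  intro k _
  ring

lemma int_Xi_prs (n : ℕ) (K : Finset (ℕ × ℕ)) (hK : 0 ∉ K) :
    ∫ X, Xi (prs X) K ∂(Pn P (n + 1)) = LL K / ((n : ℝ) + 1) := by
  rw [← int_Xi n K hK]
  apply integral_congr_ae
  filter_upwards [ae_mem (n + 1)] with X hX
  rw [prs_of_mem hX]

lemma VV_sub_WK (n : ℕ) (K : Finset (ℕ × ℕ)) (hK : 0 ∉ K) :
    ∀ᵐ X ∂(Pn P (n + 1)), VV n X - WK n K X =
      FK K (prs X) - ∫ Y, FK K (prs Y) ∂(Pn P (n + 1)) := by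
  have hm : (0 : ℝ) < (n : ℝ) + 1 := by positivity
  have h1 : ∫ Y : Fin (n + 1) → E, FK K (prs Y) ∂(Pn P (n + 1)) =
      ((n : ℝ) + 1) * ∫ Y, TT (prs Y) ∂(Pn P (n + 1)) - LL K := by
    unfold FK
    rw [integral_const_mul, integral_sub (BM_TT.integrable _)
      (((BM_Xi n K).comp measurable_prs).integrable _), int_Xi_prs n K hK]
    simp only [Fintype.card_fin]
    push_cast
    field_simp
  filter_upwards [ae_mem (n + 1)] with X hX
  rw [h1, WK_eq', prs_of_mem hX]
  unfold VV FK
  rw [prs_of_mem hX]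
  simp only [Fintype.card_fin]
  push_cast
  ring

lemma int_sq_VV_sub_WK (n : ℕ) (K : Finset (ℕ × ℕ)) (hK : 0 ∉ K) :
    ∫ X, (VV n X - WK n K X) ^ 2 ∂(Pn P (n + 1)) = VK n K := by
  set c := ∫ Y, FK K (prs Y) ∂(Pn P (n + 1)) with hc
  have h1 : ∫ X, (VV n X - WK n K X) ^ 2 ∂(Pn P (n + 1)) =
      ∫ X, (FK K (prs X) - c) ^ 2 ∂(Pn P (n + 1)) := by
    apply integral_congr_ae
    filter_upwards [VV_sub_WK n K hK] with X hX
    rw [hX]
  rw [h1]
  have hF := BM_FK n K
  have h2 : ∀ X : Fin (n + 1) → E, (FK K (prs X) - c) ^ 2 = FK K (prs X) ^ 2 -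
      (2 * c) * FK K (prs X) + c ^ 2 := by
    intro X; ring
  simp_rw [h2]
  rw [integral_add ((hF.sq.sub (hF.const_mul _)).integrable _) (integrable_const _),
    integral_sub (hF.sq.integrable _) ((hF.const_mul _).integrable _), integral_const_mul, ← hc]
  unfold VK
  rw [← hc]
  simp only [integral_const, probReal_univ, smul_eq_mul, one_mul]
  ring

lemma norm_exp_sub_exp_le (a b : ℝ) :
    ‖Complex.exp (a * Complex.I) - Complex.exp (b * Complex.I)‖ ≤ |a - b| := by
  have h1 : Complex.exp (a * Complex.I) - Complex.exp (b * Complex.I) =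
      Complex.exp (b * Complex.I) * (Complex.exp (((a - b : ℝ) : ℂ) * Complex.I) - 1) := by
    rw [mul_sub, ← Complex.exp_add, mul_one]
    congr 2
    push_cast
    ring
  rw [h1, norm_mul, Complex.norm_exp_ofReal_mul_I, one_mul]
  exact norm_exp_sub_one_le _

/-- Comparison of the characteristic functions. -/
lemma char_compare (n : ℕ) (K : Finset (ℕ × ℕ)) (hK : 0 ∉ K) (s : ℝ) :
    ‖(∫ X, Complex.exp (s * VV n X * Complex.I) ∂(Pn P (n + 1))) -
      ∫ X, Complex.exp (s * WK n K X * Complex.I) ∂(Pn P (n + 1))‖ ≤ |s| * √(VK n K) := by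
  have hV := BM_VV n
  have hW := BM_WK n K
  have gen : ∀ f : (Fin (n + 1) → E) → ℝ, BM f →
      Integrable (fun X => Complex.exp (s * f X * Complex.I)) (Pn P (n + 1)) := by
    intro f hf
    have hm := hf.1
    apply Integrable.of_bound (by fun_prop) 1
    apply Eventually.of_forall
    intro x
    have : (s * f x * Complex.I : ℂ) = ((s * f x : ℝ) : ℂ) * Complex.I := by push_cast; ring
    rw [this, Complex.norm_exp_ofReal_mul_I]
  rw [← integral_sub (gen _ hV) (gen _ hW)]
  refine (norm_integral_le_integral_norm _).trans ?_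
  have hd : BM fun X => |VV n X - WK n K X| := by
    obtain ⟨hm, c, hc⟩ := hV.sub hW
    exact ⟨hm.abs, c, fun X => by rw [abs_abs]; exact hc X⟩
  have h1 : ∫ X, ‖Complex.exp (s * VV n X * Complex.I) - Complex.exp (s * WK n K X * Complex.I)‖
      ∂(Pn P (n + 1)) ≤ ∫ X, |s| * |VV n X - WK n K X| ∂(Pn P (n + 1)) := by
    apply integral_mono ((gen _ hV).sub (gen _ hW)).norm ((hd.const_mul _).integrable _)
    intro X
    show ‖Complex.exp (s * VV n X * Complex.I) - Complex.exp (s * WK n K X * Complex.I)‖ ≤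
      |s| * |VV n X - WK n K X|
    have e1 : (s * VV n X * Complex.I : ℂ) = ((s * VV n X : ℝ) : ℂ) * Complex.I := by
      push_cast; ring
    have e2 : (s * WK n K X * Complex.I : ℂ) = ((s * WK n K X : ℝ) : ℂ) * Complex.I := by
      push_cast; ring
    rw [e1, e2, ← abs_mul, mul_sub]
    exact norm_exp_sub_exp_le _ _
  rw [integral_const_mul] at h1
  refine h1.trans ?_
  apply mul_le_mul_of_nonneg_left _ (abs_nonneg _)
  apply Real.le_sqrt_of_sq_le
  rw [← int_sq_VV_sub_WK n K hK]
  have h2 := var_eq (Pn P (n + 1)) _ hd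
  have h3 : 0 ≤ ∫ a, ∫ b, (max (|VV n a - WK n K a| - |VV n b - WK n K b|) 0) ^ 2
      ∂(Pn P (n + 1)) ∂(Pn P (n + 1)) := integral_nonneg fun a => integral_nonneg fun b => sq_nonneg _
  simp only [sq_abs] at h2
  linarith

/-- Convergence of the characteristic functions. -/
lemma char_conv (s : ℝ) :
    ∃ a, Tendsto (fun n => ∫ X, Complex.exp (s * VV n X * Complex.I) ∂(Pn P (n + 1))) atTop
      (𝓝 a) := by
  apply cauchySeq_tendsto_of_complete
  rw [Metric.cauchySeq_iff]
  intro ε hε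
  -- the parameter
  set δ : ℝ := (ε / (4 * (|s| + 1))) ^ 2 with hδ
  have hs : 0 < |s| + 1 := by positivity
  have hδ0 : 0 < δ := by positivity
  obtain ⟨K, hK, hvar⟩ := var_small δ hδ0
  have hb := (tendsto_WK K hK s).cauchySeq
  rw [Metric.cauchySeq_iff] at hb
  obtain ⟨N1, hN1⟩ := hb (ε / 4) (by linarith)
  obtain ⟨N2, hN2⟩ := eventually_atTop.mp hvar
  have hclose : ∀ n ≥ N2, dist (∫ X, Complex.exp (s * VV n X * Complex.I) ∂(Pn P (n + 1)))
      (∫ X, Complex.exp (s * WK n K X * Complex.I) ∂(Pn P (n + 1))) ≤ ε / 4 := by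
    intro n hn
    rw [dist_eq_norm]
    refine (char_compare n K hK s).trans ?_
    have h1 : √(VK n K) ≤ ε / (4 * (|s| + 1)) := by
      rw [Real.sqrt_le_left (by positivity)]
      exact hN2 n hn
    calc |s| * √(VK n K) ≤ (|s| + 1) * (ε / (4 * (|s| + 1))) :=
          mul_le_mul (by linarith) h1 (Real.sqrt_nonneg _) hs.le
      _ = ε / 4 := by field_simp
  refine ⟨max N1 N2, fun m hm n hn => ?_⟩
  have hm1 : N1 ≤ m := (le_max_left _ _).trans hm
  have hm2 : N2 ≤ m := (le_max_right _ _).trans hm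
  have hn1 : N1 ≤ n := (le_max_left _ _).trans hn
  have hn2 : N2 ≤ n := (le_max_right _ _).trans hn
  have h1 := hclose m hm2
  have h2 := hclose n hn2
  rw [dist_comm] at h2
  have h3 := hN1 m hm1 n hn1
  have h4 := dist_triangle4 (∫ X, Complex.exp (s * VV m X * Complex.I) ∂(Pn P (m + 1)))
    (∫ X, Complex.exp (s * WK m K X * Complex.I) ∂(Pn P (m + 1)))
    (∫ X, Complex.exp (s * WK n K X * Complex.I) ∂(Pn P (n + 1)))
    (∫ X, Complex.exp (s * VV n X * Complex.I) ∂(Pn P (n + 1)))
  linarith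

/-- The law of the rescaled and centred cost. -/
noncomputable def lawV (n : ℕ) : ProbabilityMeasure ℝ :=
  ⟨(Pn P (n + 1)).map (VV n), Measure.isProbabilityMeasure_map (BM_VV n).1.aemeasurable⟩

lemma charFun_lawV (n : ℕ) (s : ℝ) : charFun (lawV n : Measure ℝ) s =
    ∫ X, Complex.exp (s * VV n X * Complex.I) ∂(Pn P (n + 1)) := by
  rw [charFun_apply_real]
  exact integral_map (BM_VV n).1.aemeasurable (by fun_prop)

lemma int_lawV (n : ℕ) (f : ℝ → ℝ) (hf : Measurable f) :
    ∫ x, f x ∂(lawV n : Measure ℝ) = ∫ X, f (VV n X) ∂(Pn P (n + 1)) :=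
  integral_map (BM_VV n).1.aemeasurable hf.aestronglyMeasurable

lemma int_VV_sq (n : ℕ) : ∫ X, VV n X ^ 2 ∂(Pn P (n + 1)) = VK n ∅ := by
  have h := int_sq_VV_sub_WK n ∅ (Finset.notMem_empty 0)
  simpa [WK] using h

/-- The limit theorem on the product space. -/
theorem main_limit : ∃ q : ProbabilityMeasure ℝ, Tendsto lawV atTop (𝓝 q) ∧
    Integrable (fun x : ℝ => x ^ 2) (q : Measure ℝ) ∧ Integrable (fun x : ℝ => x) (q : Measure ℝ) ∧
    ∫ x, x ∂(q : Measure ℝ) = 0 := by
  obtain ⟨c, hc⟩ := var_bounded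
  apply exists_limit lawV c
  · intro n
    have h1 : Integrable (fun x : ℝ => x ^ 2) ((Pn P (n + 1)).map (VV n)) := by
      rw [integrable_map_measure (by fun_prop) (BM_VV n).1.aemeasurable]
      exact (BM_VV n).sq.integrable _
    exact h1
  · filter_upwards [hc] with n hn
    rw [int_lawV n (fun x => x ^ 2) (by fun_prop), int_VV_sq]
    exact hn
  · intro n
    rw [int_lawV n (fun x => x) measurable_id, int_VV]
  · intro s
    obtain ⟨a, ha⟩ := char_conv s
    refine ⟨a, ha.congr fun n => ?_⟩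
    rw [charFun_lawV]

/-- Identification of the limit by the Gaussian chaos. -/
lemma charFun_gK_sub_le (q : ProbabilityMeasure ℝ) (hq : Tendsto lawV atTop (𝓝 q))
    (K : Finset (ℕ × ℕ)) (hK : 0 ∉ K) (s : ℝ) :
    ‖charFun (q : Measure ℝ) s - charFun (gK K) s‖ ≤ |s| * √(240 * tail K) := by
  have h1 := (ProbabilityMeasure.tendsto_iff_tendsto_charFun.mp hq) s
  simp_rw [charFun_lawV] at h1
  have h2 := tendsto_WK K hK s
  have h3 := (h1.sub h2).norm
  set A := (5484 + 3840 * SK K + 1032 * K.card + 288 * K.card * LL K ^ 2 + 3 * CK K ^ 2) with hA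
  have h4 : Tendsto (fun n => |s| * √(240 * tail K + A * ww n)) atTop
      (𝓝 (|s| * √(240 * tail K + A * 0))) := by
    apply Tendsto.const_mul
    apply Tendsto.sqrt
    exact (tendsto_ww.const_mul A).const_add _
  rw [mul_zero, add_zero] at h4
  apply le_of_tendsto_of_tendsto h3 h4
  filter_upwards [eventually_subset_box K] with n hn
  refine (char_compare n K hK s).trans ?_
  apply mul_le_mul_of_nonneg_left _ (abs_nonneg _)
  exact Real.sqrt_le_sqrt (var_final n K hK hn)

lemma tendsto_tail_box : Tendsto (fun j => tail ((box j).erase 0)) atTop (𝓝 0) := by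
  have h1 : ∀ j, tail ((box j).erase 0) = tail (box j) := by
    intro j
    unfold tail
    congr 1
    apply Finset.sum_subset (Finset.erase_subset _ _)
    intro k hk hk'
    have : k = 0 := by
      by_contra h
      exact hk' (Finset.mem_erase.mpr ⟨h, hk⟩)
    rw [this, lam_zero]
    simp
  simp_rw [h1]
  have h2 : Tendsto box atTop atTop := by
    apply tendsto_atTop_finset_of_monotone
    · intro a b hab
      unfold box
      exact Finset.product_subset_product (Finset.range_mono hab) (Finset.range_mono hab)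
    · intro k
      refine ⟨k.1 + k.2 + 1, ?_⟩
      unfold box
      rw [Finset.mem_product, Finset.mem_range, Finset.mem_range]
      omega
  have h3 := summable_inv_lam_sq.hasSum
  unfold HasSum at h3
  have h4 := (h3.comp h2).const_sub (∑' k, 1 / lam k ^ 2)
  rw [sub_self] at h4
  exact h4

/-- The limit law is the weak limit of the partial sums of the Gaussian chaos. -/
theorem chaos_limit (q : ProbabilityMeasure ℝ) (hq : Tendsto lawV atTop (𝓝 q)) (s : ℝ) :
    Tendsto (fun j => charFun (gK ((box j).erase 0)) s) atTop (𝓝 (charFun (q : Measure ℝ) s)) := by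
  rw [tendsto_iff_norm_sub_tendsto_zero]
  have h1 : ∀ j, ‖charFun (gK ((box j).erase 0)) s - charFun (q : Measure ℝ) s‖ ≤
      |s| * √(240 * tail ((box j).erase 0)) := by
    intro j
    rw [norm_sub_rev]
    exact charFun_gK_sub_le q hq _ (Finset.notMem_erase 0 _) s
  apply squeeze_zero (fun j => norm_nonneg _) h1
  have h2 : Tendsto (fun j => |s| * √(240 * tail ((box j).erase 0))) atTop
      (𝓝 (|s| * √(240 * 0))) :=
    ((tendsto_tail_box.const_mul 240).sqrt).const_mul _
  simpa using h2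

end Pool.Agent.H37
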