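import Pool.Agent.H37.Ledoux.Bounds
import Pool.Agent.H37.Ledoux.EfronStein

set_option autoImplicit false
set_option linter.unusedSectionVars false

open MeasureTheory Real

namespace Pool.Agent.H37

/-! ### Moments of sums over a product space -/

section Sums

variable {α : Type*} [MeasurableSpace α]

/-- The sum of `h` over the sample. -/
def Sm (h : α → ℝ) (n : ℕ) (x : Fin n → α) : ℝ := ∑ i, h (x i)

lemma BM_Sm {h : α → ℝ} (hh : BM h) (n : ℕ) : BM (Sm h n) :=
  BM.sum Finset.univ fun i _ => hh.comp (measurable_pi_apply i)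

lemma Sm_cons (h : α → ℝ) (n : ℕ) (a : α) (x : Fin n → α) :
    Sm h (n + 1) (Fin.cons a x) = h a + Sm h n x := by
  unfold Sm
  rw [Fin.sum_univ_succ]
  simp

lemma int_Sm (μ : Measure α) [IsProbabilityMeasure μ] {h : α → ℝ} (hh : BM h)
    (h0 : ∫ a, h a ∂μ = 0) (n : ℕ) : ∫ x, Sm h n x ∂(Pn μ n) = 0 := by
  induction n with
  | zero => simp [Sm]
  | succ n ih =>
    rw [int_cons μ n _ (BM_Sm hh (n + 1))]
    simp_rw [Sm_cons]
    have h1 : ∀ x : Fin n → α, ∫ a, (h a + Sm h n x) ∂μ = Sm h n x := by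
      intro x
      rw [integral_add (hh.integrable μ) (integrable_const _), h0]
      simp
    simp_rw [h1]
    exact ih

lemma int_Sm_sq (μ : Measure α) [IsProbabilityMeasure μ] {h : α → ℝ} (hh : BM h)
    (h0 : ∫ a, h a ∂μ = 0) (h2 : ∫ a, h a ^ 2 ∂μ = 1) (n : ℕ) :
    ∫ x, Sm h n x ^ 2 ∂(Pn μ n) = n := by
  induction n with
  | zero => simp [Sm]
  | succ n ih =>
    rw [int_cons μ n _ (BM_Sm hh (n + 1)).sq]
    simp_rw [Sm_cons]
    have h1 : ∀ x : Fin n → α, ∫ a, (h a + Sm h n x) ^ 2 ∂μ = 1 + Sm h n x ^ 2 := by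
      intro x
      have e1 : ∀ a, (h a + Sm h n x) ^ 2 = h a ^ 2 + (2 * Sm h n x) * h a + Sm h n x ^ 2 := by
        intro a; ring
      simp_rw [e1]
      rw [integral_add ((hh.sq.add (hh.const_mul _)).integrable μ) (integrable_const _),
        integral_add (hh.sq.integrable μ) ((hh.const_mul _).integrable μ), integral_const_mul,
        h0, h2]
      simp
    simp_rw [h1]
    rw [integral_add (integrable_const _) ((BM_Sm hh n).sq.integrable _), ih]
    simp only [integral_const, probReal_univ, smul_eq_mul, one_mul]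
    push_cast
    ring

lemma int_Sm_four (μ : Measure α) [IsProbabilityMeasure μ] {h : α → ℝ} (hh : BM h)
    (h0 : ∫ a, h a ∂μ = 0) (h2 : ∫ a, h a ^ 2 ∂μ = 1) (hb : ∀ a, |h a| ≤ 2) (n : ℕ) :
    ∫ x, Sm h n x ^ 4 ∂(Pn μ n) ≤ 3 * (n : ℝ) ^ 2 + n := by
  induction n with
  | zero => simp [Sm]
  | succ n ih =>
    have h4 : ∫ a, h a ^ 4 ∂μ ≤ 4 := by
      have : ∫ a, h a ^ 4 ∂μ ≤ ∫ a, 4 * h a ^ 2 ∂μ := by
        apply integral_mono ((hh.pow 4).integrable μ) ((hh.sq.const_mul 4).integrable μ)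
        intro a
        have h3 : h a ^ 2 ≤ 4 := by
          have := pow_le_pow_left₀ (abs_nonneg _) (hb a) 2
          rw [sq_abs] at this
          linarith
        simp only
        nlinarith [sq_nonneg (h a)]
      rw [integral_const_mul, h2] at this
      linarith
    rw [int_cons μ n _ ((BM_Sm hh (n + 1)).pow 4)]
    simp_rw [Sm_cons]
    have h1 : ∀ x : Fin n → α, ∫ a, (h a + Sm h n x) ^ 4 ∂μ = ∫ a, h a ^ 4 ∂μ +
        (4 * ∫ a, h a ^ 3 ∂μ) * Sm h n x + 6 * Sm h n x ^ 2 + Sm h n x ^ 4 := by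
      intro x
      have e1 : ∀ a, (h a + Sm h n x) ^ 4 = h a ^ 4 + (4 * Sm h n x) * h a ^ 3 +
          (6 * Sm h n x ^ 2) * h a ^ 2 + (4 * Sm h n x ^ 3) * h a + Sm h n x ^ 4 := by
        intro a; ring
      simp_rw [e1]
      have b3 := (hh.pow 3).const_mul (4 * Sm h n x)
      have b2 := hh.sq.const_mul (6 * Sm h n x ^ 2)
      have b1 := hh.const_mul (4 * Sm h n x ^ 3)
      rw [integral_add (((((hh.pow 4).add b3).add b2).add b1).integrable μ) (integrable_const _),
        integral_add ((((hh.pow 4).add b3).add b2).integrable μ) (b1.integrable μ),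
        integral_add (((hh.pow 4).add b3).integrable μ) (b2.integrable μ),
        integral_add ((hh.pow 4).integrable μ) (b3.integrable μ), integral_const_mul,
        integral_const_mul, integral_const_mul, h0, h2]
      simp only [integral_const, probReal_univ, smul_eq_mul, one_mul]
      ring
    simp_rw [h1]
    have bS := BM_Sm hh n
    rw [integral_add ((((BM.const _).add (bS.const_mul _)).add (bS.sq.const_mul _)).integrable _)
        ((bS.pow 4).integrable _),
      integral_add (((BM.const _).add (bS.const_mul _)).integrable _)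
        ((bS.sq.const_mul _).integrable _),
      integral_add (integrable_const _) ((bS.const_mul _).integrable _), integral_const_mul,
      integral_const_mul, int_Sm μ hh h0, int_Sm_sq μ hh h0 h2]
    simp only [integral_const, probReal_univ, smul_eq_mul, one_mul]
    push_cast
    linarith

end Sums

/-! ### Moments of the empirical averages -/

lemma BM_e (k : ℕ × ℕ) : BM (e k) := ⟨(continuous_e k).measurable, 2, abs_e_le k⟩

lemma av_eq (n : ℕ) (X : Fin (n + 1) → E) (k : ℕ × ℕ) :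
    av X k = Sm (e k) (n + 1) X / ((n : ℝ) + 1) := by
  unfold av Sm
  simp

lemma BM_av (n : ℕ) (k : ℕ × ℕ) : BM fun X : Fin (n + 1) → E => av X k := by
  simp_rw [av_eq, div_eq_mul_inv]
  exact (BM_Sm (BM_e k) (n + 1)).mul (BM.const _)

lemma int_e' {k : ℕ × ℕ} (hk : k ≠ 0) : ∫ y, e k y ∂P = 0 := by rw [int_e, if_neg hk]

lemma int_e_sq (k : ℕ × ℕ) : ∫ y, e k y ^ 2 ∂P = 1 := by
  have := int_e_mul_e k k
  rw [if_pos rfl] at this
  simp_rw [pow_two]
  exact this

lemma int_av_sq (n : ℕ) {k : ℕ × ℕ} (hk : k ≠ 0) :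
    ∫ X, av X k ^ 2 ∂(Pn P (n + 1)) = 1 / ((n : ℝ) + 1) := by
  simp_rw [av_eq, div_pow]
  rw [integral_div, int_Sm_sq P (BM_e k) (int_e' hk) (int_e_sq k)]
  push_cast
  field_simp

lemma int_av_four (n : ℕ) {k : ℕ × ℕ} (hk : k ≠ 0) :
    ∫ X, av X k ^ 4 ∂(Pn P (n + 1)) ≤ 4 / ((n : ℝ) + 1) ^ 2 := by
  simp_rw [av_eq, div_pow]
  rw [integral_div, div_le_div_iff₀ (by positivity) (by positivity)]
  have := int_Sm_four P (BM_e k) (int_e' hk) (int_e_sq k) (abs_e_le k) (n + 1)
  have h1 : 3 * ((n + 1 : ℕ) : ℝ) ^ 2 + ((n + 1 : ℕ) : ℝ) ≤ 4 * ((n : ℝ) + 1) ^ 2 := by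
    push_cast
    nlinarith [(Nat.cast_nonneg n : (0 : ℝ) ≤ n)]
  have h2 : (∫ X, Sm (e k) (n + 1) X ^ 4 ∂(Pn P (n + 1))) ≤ 4 * ((n : ℝ) + 1) ^ 2 := this.trans h1
  have h3 : (0 : ℝ) ≤ ((n : ℝ) + 1) ^ 2 := by positivity
  calc (∫ X, Sm (e k) (n + 1) X ^ 4 ∂(Pn P (n + 1))) * ((n : ℝ) + 1) ^ 2 ≤
        4 * ((n : ℝ) + 1) ^ 2 * ((n : ℝ) + 1) ^ 2 := mul_le_mul_of_nonneg_right h2 h3
    _ = 4 * ((n : ℝ) + 1) ^ 4 := by ring

/-- The sum of the inverse eigenvalues. -/
noncomputable def LL (s : Finset (ℕ × ℕ)) : ℝ := ∑ k ∈ s, 1 / lam k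

lemma LL_nonneg (s : Finset (ℕ × ℕ)) : 0 ≤ LL s :=
  Finset.sum_nonneg fun k _ => div_nonneg zero_le_one (lam_nonneg k)

lemma BM_Xi (n : ℕ) (s : Finset (ℕ × ℕ)) : BM fun X : Fin (n + 1) → E => Xi X s := by
  unfold Xi
  apply BM.sum
  intro k _
  simp_rw [div_eq_mul_inv]
  exact (BM_av n k).sq.mul (BM.const _)

lemma int_Xi (n : ℕ) (s : Finset (ℕ × ℕ)) (hs : 0 ∉ s) :
    ∫ X, Xi X s ∂(Pn P (n + 1)) = LL s / ((n : ℝ) + 1) := by
  unfold Xi LL
  rw [integral_finsetSum, Finset.sum_div]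
  · apply Finset.sum_congr rfl
    intro k hk
    rw [integral_div, int_av_sq n (fun h => hs (h ▸ hk))]
    field_simp
  · intro k _
    exact ((BM_av n k).sq.mul (BM.const (lam k)⁻¹)).integrable _

lemma int_Xi_sq (n : ℕ) (s : Finset (ℕ × ℕ)) (hs : 0 ∉ s) :
    ∫ X, Xi X s ^ 2 ∂(Pn P (n + 1)) ≤ 4 * LL s ^ 2 / ((n : ℝ) + 1) ^ 2 := by
  have b4 : ∀ k, BM fun X : Fin (n + 1) → E => av X k ^ 4 / lam k := fun k => by
    simp_rw [div_eq_mul_inv]
    exact ((BM_av n k).pow 4).mul (BM.const _)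
  have h1 : ∀ X : Fin (n + 1) → E, Xi X s ^ 2 ≤ LL s * ∑ k ∈ s, av X k ^ 4 / lam k := by
    intro X
    unfold Xi LL
    apply Finset.sum_sq_le_sum_mul_sum_of_sq_eq_mul
    · intro k _; exact div_nonneg zero_le_one (lam_nonneg k)
    · intro k _; exact div_nonneg (by positivity) (lam_nonneg k)
    · intro k _
      rw [div_pow]
      ring
  have h2 : ∫ X, Xi X s ^ 2 ∂(Pn P (n + 1)) ≤
      ∫ X, LL s * ∑ k ∈ s, av X k ^ 4 / lam k ∂(Pn P (n + 1)) := by
    apply integral_mono ((BM_Xi n s).sq.integrable _)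
      (((BM.sum s fun k _ => b4 k).const_mul _).integrable _)
    exact h1
  refine h2.trans ?_
  rw [integral_const_mul, integral_finsetSum _ (fun k _ => (b4 k).integrable _)]
  have h3 : ∑ k ∈ s, ∫ X, av X k ^ 4 / lam k ∂(Pn P (n + 1)) ≤
      ∑ k ∈ s, (4 / ((n : ℝ) + 1) ^ 2) * (1 / lam k) := by
    apply Finset.sum_le_sum
    intro k hk
    rw [integral_div, div_eq_mul_one_div]
    exact mul_le_mul_of_nonneg_right (int_av_four n (fun h => hs (h ▸ hk)))
      (div_nonneg zero_le_one (lam_nonneg k))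
  rw [← Finset.mul_sum] at h3
  have h4 := mul_le_mul_of_nonneg_left h3 (LL_nonneg s)
  refine h4.trans (le_of_eq ?_)
  unfold LL
  ring

/-! ### Almost sure properties of the sample -/

lemma Pn_eq (n : ℕ) : Pn P n = (volume : Measure (Fin n → E)).restrict
    (Set.univ.pi fun _ => Q) := by
  rw [volume_pi, Measure.restrict_pi_pi]
  rfl

lemma ae_mem (n : ℕ) : ∀ᵐ X ∂(Pn P n), ∀ i, X i ∈ Q := by
  rw [Pn_eq]
  have : MeasurableSet (Set.univ.pi fun _ : Fin n => Q) :=
    MeasurableSet.univ_pi fun _ => measurableSet_Q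
  filter_upwards [ae_restrict_mem this] with X hX i
  exact hX i (Set.mem_univ i)

lemma ae_ne (n : ℕ) (i j : Fin n) (hij : i ≠ j) : ∀ᵐ X ∂(Pn P n), X i ≠ X j := by
  rw [Pn_eq]
  apply ae_restrict_of_ae
  let s : Submodule ℝ (Fin n → E) :=
    { carrier := {X | X i = X j}
      add_mem' := fun {a b} ha hb => by
        have ha' : a i = a j := ha
        have hb' : b i = b j := hb
        show a i + b i = a j + b j
        rw [ha', hb']
      zero_mem' := rfl
      smul_mem' := fun c a ha => by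
        have ha' : a i = a j := ha
        show c • a i = c • a j
        rw [ha'] }
  have hs : s ≠ ⊤ := by
    intro h
    have h1 : (Function.update 0 i ((1, 0) : E) : Fin n → E) ∈ s := by rw [h]; trivial
    have h2 : (Function.update 0 i ((1, 0) : E) : Fin n → E) i =
      (Function.update 0 i ((1, 0) : E) : Fin n → E) j := h1
    rw [Function.update_self, Function.update_of_ne (Ne.symm hij)] at h2
    have := congr_arg Prod.fst h2
    simp at this
  have h3 := Measure.addHaar_submodule (volume : Measure (Fin n → E)) s hs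
  rw [ae_iff]
  simp only [ne_eq, not_not]
  exact h3

lemma ae_inj (n : ℕ) : ∀ᵐ X ∂(Pn P n), Function.Injective X := by
  have h1 : ∀ᵐ X ∂(Pn P n), ∀ i j, i ≠ j → X i ≠ X j := by
    rw [ae_all_iff]
    intro i
    rw [ae_all_iff]
    intro j
    by_cases hij : i = j
    · exact Filter.Eventually.of_forall fun X h => absurd hij h
    · filter_upwards [ae_ne n i j hij] with X hX _
      exact hX
  filter_upwards [h1] with X hX i j hij
  by_contra h
  exact hX i j h hij

lemma ae_opt (n : ℕ) : ∀ᵐ X ∂(Pn P (n + 1)), (∀ i, X i ∈ Q) ∧ Nonempty (Opt X) := by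
  filter_upwards [ae_mem (n + 1), ae_inj (n + 1)] with X h1 h2
  exact ⟨h1, exists_opt X h1 h2⟩

/-! ### Measurability and boundedness of the cost -/

variable {ι : Type} [Fintype ι] [Nonempty ι]

lemma continuous_G_left (b : ι → ℝ) : Continuous fun X : ι → E => G X b := by
  unfold G P
  apply Continuous.sub _ continuous_const
  apply continuous_parametric_integral_of_continuous _ isCompact_Q
  have : (Function.uncurry fun (X : ι → E) (y : E) => psi X b y) =
      (fun p : (ι → E) × (ι → ℝ) × E => psi p.1 p.2.1 p.2.2) ∘ fun q => (q.1, b, q.2) := rfl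
  rw [this]
  exact continuous_psi_joint.comp (by fun_prop)

lemma measurable_TT : Measurable fun X : ι → E => TT X := by
  apply LowerSemicontinuous.measurable
  exact lowerSemicontinuous_ciSup (fun X => G_bddAbove X)
    fun b => (continuous_G_left b).lowerSemicontinuous

lemma TT_le_two (X : ι → E) (hX : ∀ i, X i ∈ Q) : TT X ≤ 2 := by
  apply ciSup_le
  intro b
  have hn := card_pos' (ι := ι)
  have h1 : ∫ y, psi X b y ∂P ≤ ∫ _y, (2 + (∑ i, b i) / Fintype.card ι) ∂P := by
    apply integral_mono_Q (integrable_psi X b) (integrable_const _)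
    intro y hy
    have h2 : ∑ _i : ι, psi X b y ≤ ∑ i, (2 + b i) := by
      apply Finset.sum_le_sum
      intro i _
      have := psi_le X b y i
      have := sqd_le_two hy (hX i)
      linarith
    rw [Finset.sum_add_distrib] at h2
    simp only [Finset.sum_const, Finset.card_univ, nsmul_eq_mul] at h2
    have h3 : (Fintype.card ι : ℝ) * psi X b y ≤
        Fintype.card ι * (2 + (∑ i, b i) / Fintype.card ι) := by
      rw [mul_add, mul_div_cancel₀ _ hn.ne']
      linarith
    exact le_of_mul_le_mul_left h3 hn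
  simp only [integral_const, probReal_univ, smul_eq_mul, one_mul] at h1
  unfold G
  linarith

/-- The projection onto the square. -/
noncomputable def pr (x : E) : E := (max 0 (min 1 x.1), max 0 (min 1 x.2))

lemma pr_mem (x : E) : pr x ∈ Q := by
  rw [mem_Q]
  unfold pr
  refine ⟨⟨le_max_left _ _, max_le zero_le_one (min_le_left _ _)⟩,
    ⟨le_max_left _ _, max_le zero_le_one (min_le_left _ _)⟩⟩

lemma pr_of_mem {x : E} (hx : x ∈ Q) : pr x = x := by
  rw [mem_Q] at hx
  unfold pr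
  rw [min_eq_right hx.1.2, min_eq_right hx.2.2, max_eq_right hx.1.1, max_eq_right hx.2.1]

lemma continuous_pr : Continuous pr := by unfold pr; fun_prop

/-- The projected sample. -/
noncomputable def prs (X : ι → E) : ι → E := fun i => pr (X i)

lemma prs_mem (X : ι → E) (i : ι) : prs X i ∈ Q := pr_mem _

lemma prs_of_mem {X : ι → E} (hX : ∀ i, X i ∈ Q) : prs X = X := by
  funext i; exact pr_of_mem (hX i)

lemma measurable_prs : Measurable fun X : ι → E => prs X := by
  unfold prs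
  rw [measurable_pi_iff]
  intro i
  exact continuous_pr.measurable.comp (measurable_pi_apply i)

lemma BM_TT : BM fun X : ι → E => TT (prs X) := by
  refine ⟨measurable_TT.comp measurable_prs, 2, fun X => ?_⟩
  rw [abs_of_nonneg (TT_nonneg _)]
  exact TT_le_two _ (prs_mem X)

lemma BM_FK (n : ℕ) (K : Finset (ℕ × ℕ)) :
    BM fun X : Fin (n + 1) → E => FK K (prs X) := by
  unfold FK
  exact (BM_TT.sub ((BM_Xi n K).comp measurable_prs)).const_mul _

/-- The second moment of the cost. -/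
lemma int_TT_sq (n N : ℕ) (hN : 0 < N) :
    ∫ X, TT (prs X) ^ 2 ∂(Pn P (n + 1)) ≤
      128 * LL ((box N).erase 0) ^ 2 / ((n : ℝ) + 1) ^ 2 + 64 / N := by
  have hN' : (0 : ℝ) < N := by exact_mod_cast hN
  have h1 : ∫ X, TT (prs X) ^ 2 ∂(Pn P (n + 1)) ≤
      ∫ X, (32 * Xi X ((box N).erase 0) ^ 2 + 64 / N) ∂(Pn P (n + 1)) := by
    apply integral_mono_ae (BM_TT.sq.integrable _)
      ((((BM_Xi n _).sq.const_mul 32).add (BM.const _)).integrable _)
    filter_upwards [ae_opt n] with X hX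
    obtain ⟨hQ, ⟨o⟩⟩ := hX
    rw [prs_of_mem hQ]
    have h2 := o.akt hQ N hN
    have h3 := pow_le_pow_left₀ (TT_nonneg X) h2 2
    refine h3.trans ?_
    have h4 : (8 / √(2 * (N : ℝ))) ^ 2 = 32 / N := by
      rw [div_pow, Real.sq_sqrt (by positivity)]
      field_simp
      norm_num
    have h5 : (64 : ℝ) / N = 2 * (32 / N) := by ring
    rw [h5, ← h4]
    nlinarith [sq_nonneg (4 * Xi X ((box N).erase 0) - 8 / √(2 * (N : ℝ)))]
  rw [integral_add (((BM_Xi n _).sq.const_mul 32).integrable _) (integrable_const _),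
    integral_const_mul] at h1
  simp only [integral_const, probReal_univ, smul_eq_mul, one_mul] at h1
  have h6 := int_Xi_sq n ((box N).erase 0) (Finset.notMem_erase 0 _)
  have h7 : 128 * LL ((box N).erase 0) ^ 2 / ((n : ℝ) + 1) ^ 2 =
    32 * (4 * LL ((box N).erase 0) ^ 2 / ((n : ℝ) + 1) ^ 2) := by ring
  rw [h7]
  linarith

end Pool.Agent.H37
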