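import Pool.Agent.H37.Ledoux.Basic

set_option autoImplicit false
set_option linter.unusedSectionVars false

open MeasureTheory

namespace Pool.Agent.H37

variable {ι : Type} [Fintype ι] [Nonempty ι]

/-- The transform of the weights `b`: the lower envelope of the functions `|y - X i|^2 + b i`. -/
noncomputable def psi (X : ι → E) (b : ι → ℝ) (y : E) : ℝ := ⨅ i, (sqd y (X i) + b i)

lemma psi_le (X : ι → E) (b : ι → ℝ) (y : E) (i : ι) : psi X b y ≤ sqd y (X i) + b i :=
  ciInf_le (Set.finite_range _).bddBelow i

lemma le_psi {X : ι → E} {b : ι → ℝ} {y : E} {r : ℝ} (h : ∀ i, r ≤ sqd y (X i) + b i) :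
    r ≤ psi X b y := le_ciInf h

lemma exists_eq_psi (X : ι → E) (b : ι → ℝ) (y : E) : ∃ i, psi X b y = sqd y (X i) + b i := by
  obtain ⟨i, hi⟩ := exists_eq_ciInf_of_finite (f := fun i => sqd y (X i) + b i)
  exact ⟨i, hi.symm⟩

lemma continuous_psi_joint :
    Continuous fun p : (ι → E) × (ι → ℝ) × E => psi p.1 p.2.1 p.2.2 := by
  have h : (fun p : (ι → E) × (ι → ℝ) × E => psi p.1 p.2.1 p.2.2) = fun p =>
      Finset.univ.inf' Finset.univ_nonempty (fun i => sqd p.2.2 (p.1 i) + p.2.1 i) := by
    funext p
    rw [Finset.inf'_univ_eq_ciInf]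
    rfl
  rw [h]
  apply Continuous.finset_inf'_apply
  intro i _
  fun_prop

lemma continuous_psi (X : ι → E) (b : ι → ℝ) : Continuous (psi X b) := by
  have : psi X b = (fun p : (ι → E) × (ι → ℝ) × E => psi p.1 p.2.1 p.2.2) ∘ fun y => (X, b, y) := rfl
  rw [this]
  exact continuous_psi_joint.comp (by fun_prop)

lemma psi_add_const (X : ι → E) (b : ι → ℝ) (t : ℝ) (y : E) :
    psi X (fun i => b i + t) y = psi X b y + t := by
  apply le_antisymm
  · obtain ⟨i, hi⟩ := exists_eq_psi X b y
    rw [hi]
    have := psi_le X (fun i => b i + t) y i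
    linarith
  · apply le_psi
    intro i
    have := psi_le X b y i
    linarith

lemma integrable_psi (X : ι → E) (b : ι → ℝ) : Integrable (psi X b) P := by
  have hc := continuous_psi X b
  obtain ⟨C, hC⟩ := isCompact_Q.exists_bound_of_continuousOn hc.continuousOn
  exact integrable_of_bound hc.measurable C (fun x hx => by simpa [Real.norm_eq_abs] using hC x hx)

lemma integrable_sqd_const (x : E) : Integrable (fun y => sqd y x) P := by
  have hc : Continuous fun y => sqd y x := by fun_prop
  obtain ⟨C, hC⟩ := isCompact_Q.exists_bound_of_continuousOn hc.continuousOn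
  exact integrable_of_bound hc.measurable C (fun x hx => by simpa [Real.norm_eq_abs] using hC x hx)

/-- The dual functional. -/
noncomputable def G (X : ι → E) (b : ι → ℝ) : ℝ :=
  ∫ y, psi X b y ∂P - (∑ i, b i) / Fintype.card ι

lemma card_pos' : (0 : ℝ) < Fintype.card ι := by exact_mod_cast Fintype.card_pos

lemma G_add_const (X : ι → E) (b : ι → ℝ) (t : ℝ) : G X (fun i => b i + t) = G X b := by
  unfold G
  simp_rw [psi_add_const]
  rw [integral_add (integrable_psi X b) (integrable_const t), Finset.sum_add_distrib]
  simp only [integral_const, probReal_univ, smul_eq_mul, one_mul, Finset.sum_const,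
    Finset.card_univ, nsmul_eq_mul]
  have := card_pos' (ι := ι)
  field_simp
  ring

lemma psi_sub_le (X : ι → E) (b b' : ι → ℝ) (ε : ℝ) (h : ∀ i, b i ≤ b' i + ε) (y : E) :
    psi X b y ≤ psi X b' y + ε := by
  obtain ⟨i, hi⟩ := exists_eq_psi X b' y
  have := psi_le X b y i
  have := h i
  linarith

lemma G_le_add (X : ι → E) (b b' : ι → ℝ) (ε : ℝ) (h : ∀ i, |b i - b' i| ≤ ε) :
    G X b ≤ G X b' + 2 * ε := by
  unfold G
  have h1 : ∫ y, psi X b y ∂P ≤ ∫ y, psi X b' y ∂P + ε := by
    have : ∫ y, psi X b y ∂P ≤ ∫ y, (psi X b' y + ε) ∂P := by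
      apply integral_mono (integrable_psi X b) ((integrable_psi X b').add (integrable_const ε))
      intro y
      exact psi_sub_le X b b' ε (fun i => by have := (abs_le.mp (h i)).2; linarith) y
    rw [integral_add (integrable_psi X b') (integrable_const ε)] at this
    simpa using this
  have h2 : (∑ i, b' i) / Fintype.card ι ≤ (∑ i, b i) / Fintype.card ι + ε := by
    have hc := card_pos' (ι := ι)
    rw [div_add' _ _ _ hc.ne', div_le_div_iff_of_pos_right hc]
    have : ∑ i, b' i ≤ ∑ i, (b i + ε) := by
      apply Finset.sum_le_sum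
      intro i _
      have := (abs_le.mp (h i)).1
      linarith
    rw [Finset.sum_add_distrib] at this
    simp only [Finset.sum_const, Finset.card_univ, nsmul_eq_mul] at this
    linarith
  linarith

lemma continuous_G (X : ι → E) : Continuous (G X) := by
  rw [Metric.continuous_iff]
  intro b ε hε
  refine ⟨ε / 4, by linarith, fun b' hb' => ?_⟩
  rw [dist_pi_lt_iff (by linarith)] at hb'
  have h1 := G_le_add X b b' (ε / 4) (fun i => by
    have := (hb' i).le; rw [Real.dist_eq, abs_sub_comm] at this; exact this)
  have h2 := G_le_add X b' b (ε / 4) (fun i => by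
    have := (hb' i).le; rw [Real.dist_eq] at this; exact this)
  rw [Real.dist_eq, abs_lt]
  constructor <;> linarith

lemma G_bddAbove (X : ι → E) : BddAbove (Set.range (G X)) := by
  refine ⟨∑ i, ∫ y, sqd y (X i) ∂P, ?_⟩
  rintro _ ⟨b, rfl⟩
  obtain ⟨j, hj⟩ := Finite.exists_min b
  have h1 : ∫ y, psi X b y ∂P ≤ ∫ y, (sqd y (X j) + b j) ∂P :=
    integral_mono (integrable_psi X b) ((integrable_sqd_const _).add (integrable_const _))
      (fun y => psi_le X b y j)
  rw [integral_add (integrable_sqd_const _) (integrable_const _)] at h1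
  have h2 : b j ≤ (∑ i, b i) / Fintype.card ι := by
    rw [le_div_iff₀ card_pos']
    have : ∑ _i : ι, b j ≤ ∑ i, b i := Finset.sum_le_sum fun i _ => hj i
    simpa [mul_comm] using this
  have h3 : ∫ y, sqd y (X j) ∂P ≤ ∑ i, ∫ y, sqd y (X i) ∂P :=
    Finset.single_le_sum (f := fun i => ∫ y, sqd y (X i) ∂P)
      (fun i _ => integral_nonneg fun y => sqd_nonneg _ _) (Finset.mem_univ j)
  simp only [integral_const, probReal_univ, smul_eq_mul, one_mul] at h1
  unfold G
  linarith

/-- The dual transport cost between the empirical measure of `X` and the uniform measure. -/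
noncomputable def TT (X : ι → E) : ℝ := ⨆ b, G X b

lemma G_le_TT (X : ι → E) (b : ι → ℝ) : G X b ≤ TT X := le_ciSup (G_bddAbove X) b

lemma G_zero_nonneg (X : ι → E) : 0 ≤ G X 0 := by
  unfold G
  simp only [Pi.zero_apply, Finset.sum_const_zero, zero_div, sub_zero]
  apply integral_nonneg
  intro y
  apply le_psi
  intro i
  simpa using sqd_nonneg y (X i)

lemma TT_nonneg (X : ι → E) : 0 ≤ TT X := (G_zero_nonneg X).trans (G_le_TT X 0)

lemma exists_max (X : ι → E) (hX : ∀ i, X i ∈ Q) : ∃ b, ∀ b', G X b' ≤ G X b := by
  set n : ℝ := (Fintype.card ι : ℝ) with hn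
  have hn0 : 0 < n := card_pos'
  have hcomp : IsCompact (Set.Icc (0 : ι → ℝ) (fun _ => 2 * n)) := isCompact_Icc
  have hne : (Set.Icc (0 : ι → ℝ) (fun _ => 2 * n)).Nonempty :=
    ⟨0, le_refl _, fun i => by simp only [Pi.zero_apply]; positivity⟩
  obtain ⟨b, hb, hmax⟩ := hcomp.exists_isMaxOn hne (continuous_G X).continuousOn
  refine ⟨b, fun b' => ?_⟩
  obtain ⟨j, hj⟩ := Finite.exists_min b'
  have h0 : G X 0 ≤ G X b := hmax ⟨le_refl _, fun i => by simp only [Pi.zero_apply]; positivity⟩
  rw [← G_add_const X b' (-(b' j))]
  by_cases hin : ∀ i, b' i + -(b' j) ≤ 2 * n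
  · apply hmax
    refine ⟨fun i => ?_, fun i => hin i⟩
    have := hj i
    simp only [Pi.zero_apply]
    linarith
  · push Not at hin
    obtain ⟨k, hk⟩ := hin
    have h1 : G X (fun i => b' i + -(b' j)) ≤ 0 := by
      unfold G
      have h2 : ∫ y, psi X (fun i => b' i + -(b' j)) y ∂P ≤ 2 := by
        have : ∫ y, psi X (fun i => b' i + -(b' j)) y ∂P ≤ ∫ _y, (2 : ℝ) ∂P := by
          apply integral_mono_Q (integrable_psi X _) (integrable_const _)
          intro y hy
          have h3 := psi_le X (fun i => b' i + -(b' j)) y j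
          have h4 := sqd_le_two hy (hX j)
          linarith
        simpa using this
      have h5 : 2 ≤ (∑ i, (b' i + -(b' j))) / Fintype.card ι := by
        rw [le_div_iff₀ card_pos']
        have : b' k + -(b' j) ≤ ∑ i, (b' i + -(b' j)) :=
          Finset.single_le_sum (f := fun i => b' i + -(b' j))
            (fun i _ => by
              have := hj i
              show 0 ≤ b' i + -(b' j)
              linarith) (Finset.mem_univ k)
        linarith
      linarith
    linarith [G_zero_nonneg X]

/-- Optimality: each closed cell has mass at least `1/n`. -/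
lemma cell_ge (X : ι → E) (b : ι → ℝ) (hb : ∀ b', G X b' ≤ G X b) (i : ι) :
    (Fintype.card ι : ℝ)⁻¹ ≤ P.real {y | sqd y (X i) + b i ≤ psi X b y} := by
  classical
  -- the enlarged cells
  set A : ℕ → Set E := fun k => {y | sqd y (X i) + b i < psi X b y + 1 / ((k : ℝ) + 1)} with hA
  have hAmeas : ∀ k, MeasurableSet (A k) := fun k =>
    measurableSet_lt (by fun_prop) ((continuous_psi X b).measurable.add_const _)
  have key : ∀ k, (Fintype.card ι : ℝ)⁻¹ ≤ P.real (A k) := by
    intro k
    set t : ℝ := 1 / ((k : ℝ) + 1) with ht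
    have ht0 : 0 < t := by positivity
    set b' : ι → ℝ := fun j => if j = i then b j - t else b j with hb'
    have h1 : ∀ y, psi X b y - (A k).indicator (fun _ => t) y ≤ psi X b' y := by
      intro y
      apply le_psi
      intro j
      by_cases hj : j = i
      · subst hj
        simp only [hb', if_true]
        by_cases hy : y ∈ A k
        · rw [Set.indicator_of_mem hy]
          have := psi_le X b y j
          linarith
        · rw [Set.indicator_of_notMem hy]
          have : ¬ (sqd y (X j) + b j < psi X b y + t) := hy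
          linarith
      · simp only [hb', hj, if_false]
        have h2 := psi_le X b y j
        have h3 : 0 ≤ (A k).indicator (fun _ => t) y := Set.indicator_nonneg (fun _ _ => ht0.le) y
        linarith
    have hint : Integrable ((A k).indicator (fun _ => t)) P :=
      (integrable_const t).indicator (hAmeas k)
    have h2 : ∫ y, psi X b y ∂P - P.real (A k) * t ≤ ∫ y, psi X b' y ∂P := by
      have := integral_mono ((integrable_psi X b).sub hint) (integrable_psi X b') h1
      rw [integral_sub' (integrable_psi X b) hint, integral_indicator_const _ (hAmeas k)] at this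
      simpa using this
    have h3 : ∑ j, b' j = ∑ j, b j - t := by
      have : ∀ j, b' j = b j - (if j = i then t else 0) := by
        intro j
        by_cases hj : j = i <;> simp [hb', hj]
      simp_rw [this]
      rw [Finset.sum_sub_distrib]
      simp
    have h4 := hb b'
    unfold G at h4
    rw [h3, sub_div] at h4
    have h5 : t / Fintype.card ι ≤ P.real (A k) * t := by linarith
    rw [div_eq_mul_inv, mul_comm] at h5
    exact le_of_mul_le_mul_right h5 ht0
  have hanti : Antitone A := by
    intro k l hkl y hy
    have : (1 : ℝ) / ((l : ℝ) + 1) ≤ 1 / ((k : ℝ) + 1) := by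
      apply one_div_le_one_div_of_le (by positivity)
      have : (k : ℝ) ≤ l := by exact_mod_cast hkl
      linarith
    have hy' : sqd y (X i) + b i < psi X b y + 1 / ((l : ℝ) + 1) := hy
    show sqd y (X i) + b i < psi X b y + 1 / ((k : ℝ) + 1)
    linarith
  have hinter : ⋂ k, A k = {y | sqd y (X i) + b i ≤ psi X b y} := by
    ext y
    simp only [Set.mem_iInter, Set.mem_ofPred_eq, hA]
    constructor
    · intro h
      by_contra hcon
      push Not at hcon
      obtain ⟨k, hk⟩ := exists_nat_one_div_lt (sub_pos.mpr hcon)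
      have := h k
      linarith
    · intro h k
      have : (0 : ℝ) < 1 / ((k : ℝ) + 1) := by positivity
      linarith
  have hlim := tendsto_measure_iInter_atTop (μ := P) (s := A)
    (fun k => (hAmeas k).nullMeasurableSet) hanti ⟨0, measure_ne_top _ _⟩
  rw [hinter] at hlim
  have hlim' := (ENNReal.tendsto_toReal (measure_ne_top _ _)).comp hlim
  exact ge_of_tendsto' hlim' key

/-- A line in the plane is a null set. -/
lemma line_null (α β γ : ℝ) (h : α ≠ 0 ∨ β ≠ 0) :
    (volume : Measure E) {y | α * y.1 + β * y.2 = γ} = 0 := by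
  have hmeas : MeasurableSet {y : E | α * y.1 + β * y.2 = γ} :=
    measurableSet_eq_fun (by fun_prop) (by fun_prop)
  rw [Measure.volume_eq_prod, Measure.measure_prod_null hmeas]
  by_cases hβ : β = 0
  · have hα : α ≠ 0 := by
      rcases h with h | h
      · exact h
      · exact absurd hβ h
    have : ∀ᵐ x : ℝ ∂volume, x ≠ γ / α := by
      rw [ae_iff]
      simp
    filter_upwards [this] with x hx
    have : Prod.mk x ⁻¹' {y : E | α * y.1 + β * y.2 = γ} = ∅ := by
      ext z
      simp only [Set.mem_preimage, Set.mem_ofPred_eq, hβ, zero_mul, add_zero, Set.mem_empty_iff_false,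
        iff_false]
      intro hh
      apply hx
      field_simp
      linarith
    rw [this]
    simp
  · apply Filter.Eventually.of_forall
    intro x
    have : Prod.mk x ⁻¹' {y : E | α * y.1 + β * y.2 = γ} ⊆ {(γ - α * x) / β} := by
      intro z hz
      simp only [Set.mem_preimage, Set.mem_ofPred_eq] at hz
      rw [Set.mem_singleton_iff]
      field_simp
      linarith
    exact measure_mono_null this (by simp)

lemma tie_null (X : ι → E) (b : ι → ℝ) (i j : ι) (hij : X i ≠ X j) :
    P {y | sqd y (X i) + b i = sqd y (X j) + b j} = 0 := by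
  have h1 : {y : E | sqd y (X i) + b i = sqd y (X j) + b j} =
      {y : E | (2 * ((X j).1 - (X i).1)) * y.1 + (2 * ((X j).2 - (X i).2)) * y.2 =
        b j - b i + ((X j).1 ^ 2 + (X j).2 ^ 2) - ((X i).1 ^ 2 + (X i).2 ^ 2)} := by
    ext y
    simp only [Set.mem_ofPred_eq]
    unfold sqd
    constructor <;> intro h <;> linarith
  have h2 : (volume : Measure E) {y | sqd y (X i) + b i = sqd y (X j) + b j} = 0 := by
    rw [h1]
    apply line_null
    by_contra hcon
    push Not at hcon
    apply hij
    apply Prod.ext
    · linarith [hcon.1]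
    · linarith [hcon.2]
  have h3 : P {y | sqd y (X i) + b i = sqd y (X j) + b j} ≤ 0 := by
    rw [← h2]; exact Measure.restrict_apply_le Q _
  exact nonpos_iff_eq_zero.mp h3

/-- A measurable choice of the index of a minimiser. -/
lemma exists_argmin (f : ι → E → ℝ) (hf : ∀ i, Measurable (f i)) :
    ∃ idx : E → ι, (@Measurable E ι _ ⊤ idx) ∧ ∀ y i, f (idx y) y ≤ f i y := by
  classical
  have key : ∀ s : Finset ι, s.Nonempty → ∃ idx : E → ι, (@Measurable E ι _ ⊤ idx) ∧
      ∀ y, ∀ i ∈ s, f (idx y) y ≤ f i y := by
    intro s hs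
    induction hs using Finset.Nonempty.cons_induction with
    | singleton a => exact ⟨fun _ => a, measurable_const, fun y i hi => by
        rw [Finset.mem_singleton.mp hi]⟩
    | cons a s ha hs ih =>
      obtain ⟨idx, hidx, hmin⟩ := ih
      have hfm : Measurable fun y => f (idx y) y := by
        have : (fun y => f (idx y) y) = fun y => ∑ i, (idx ⁻¹' {i}).indicator (f i) y := by
          funext y
          rw [Finset.sum_eq_single (idx y)]
          · rw [Set.indicator_of_mem]; rfl
          · intro j _ hj
            rw [Set.indicator_of_notMem]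
            intro h
            exact hj (h : idx y = j).symm
          · intro h; exact absurd (Finset.mem_univ _) h
        rw [this]
        apply Finset.measurable_fun_sum
        intro i _
        exact (hf i).indicator (hidx (show @MeasurableSet ι ⊤ {i} from trivial))
      refine ⟨fun y => if f a y ≤ f (idx y) y then a else idx y, ?_, ?_⟩
      · exact Measurable.ite (measurableSet_le (hf a) hfm) measurable_const hidx
      · intro y i hi
        rw [Finset.mem_cons] at hi
        by_cases h : f a y ≤ f (idx y) y
        · simp only [h, if_true]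
          rcases hi with rfl | hi
          · exact le_refl _
          · exact h.trans (hmin y i hi)
        · simp only [h, if_false]
          rcases hi with rfl | hi
          · exact (not_le.mp h).le
          · exact hmin y i hi
  obtain ⟨idx, h1, h2⟩ := key Finset.univ Finset.univ_nonempty
  exact ⟨idx, h1, fun y i => h2 y i (Finset.mem_univ i)⟩

/-- The optimal data for the semi-discrete problem. -/
structure Opt (X : ι → E) where
  /-- the weights -/
  b : ι → ℝ
  /-- the index of the cell -/
  idx : E → ι
  meas : @Measurable E ι _ ⊤ idx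
  argmin : ∀ y, psi X b y = sqd y (X (idx y)) + b (idx y)
  push : ∀ F : ι → ℝ, ∫ y, F (idx y) ∂P = (∑ i, F i) / Fintype.card ι
  cost : TT X = ∫ y, sqd y (X (idx y)) ∂P
  mean : ∫ y, psi X b y ∂P = 0

lemma exists_opt (X : ι → E) (hX : ∀ i, X i ∈ Q) (hinj : Function.Injective X) :
    Nonempty (Opt X) := by
  classical
  obtain ⟨b0, hb0⟩ := exists_max X hX
  -- normalise
  set t : ℝ := -∫ y, psi X b0 y ∂P with ht
  set b : ι → ℝ := fun i => b0 i + t with hbdef
  have hb : ∀ b', G X b' ≤ G X b := fun b' => by rw [hbdef, G_add_const]; exact hb0 b'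
  have hmean : ∫ y, psi X b y ∂P = 0 := by
    simp_rw [hbdef, psi_add_const]
    rw [integral_add (integrable_psi X b0) (integrable_const t)]
    simp [ht]
  obtain ⟨idx, hidx, hmin⟩ := exists_argmin (fun i y => sqd y (X i) + b i)
    (fun i => by fun_prop)
  have hargmin : ∀ y, psi X b y = sqd y (X (idx y)) + b (idx y) := by
    intro y
    apply le_antisymm (psi_le X b y _)
    obtain ⟨i, hi⟩ := exists_eq_psi X b y
    rw [hi]
    exact hmin y i
  have hset : ∀ i, MeasurableSet (idx ⁻¹' {i}) := fun i =>
    hidx (show @MeasurableSet ι ⊤ {i} from trivial)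
  set n : ℝ := (Fintype.card ι : ℝ) with hn
  have hn0 : 0 < n := card_pos'
  -- each cell has mass at least 1/n
  have hge : ∀ i, n⁻¹ ≤ P.real (idx ⁻¹' {i}) := by
    intro i
    have h1 := cell_ge X b hb i
    have h2 : {y | sqd y (X i) + b i ≤ psi X b y} ⊆ idx ⁻¹' {i} ∪
        ⋃ j ∈ (Finset.univ.erase i), {y | sqd y (X i) + b i = sqd y (X j) + b j} := by
      intro y hy
      by_cases hyi : idx y = i
      · exact Or.inl hyi
      · right
        rw [Set.mem_iUnion₂]
        refine ⟨idx y, Finset.mem_erase.mpr ⟨hyi, Finset.mem_univ _⟩, ?_⟩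
        have h3 : sqd y (X i) + b i ≤ psi X b y := hy
        have h4 := psi_le X b y i
        have h5 := hargmin y
        show sqd y (X i) + b i = sqd y (X (idx y)) + b (idx y)
        linarith
    have h3 : P (⋃ j ∈ (Finset.univ.erase i), {y | sqd y (X i) + b i = sqd y (X j) + b j}) = 0 := by
      apply nonpos_iff_eq_zero.mp
      refine (measure_biUnion_finset_le _ _).trans ?_
      rw [Finset.sum_eq_zero]
      intro j hj
      apply tie_null
      intro h
      exact (Finset.mem_erase.mp hj).1 (hinj h).symm
    have h4 : P {y | sqd y (X i) + b i ≤ psi X b y} ≤ P (idx ⁻¹' {i}) := by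
      calc P {y | sqd y (X i) + b i ≤ psi X b y} ≤ P (idx ⁻¹' {i} ∪
            ⋃ j ∈ (Finset.univ.erase i), {y | sqd y (X i) + b i = sqd y (X j) + b j}) :=
            measure_mono h2
        _ ≤ P (idx ⁻¹' {i}) +
            P (⋃ j ∈ (Finset.univ.erase i), {y | sqd y (X i) + b i = sqd y (X j) + b j}) :=
            measure_union_le _ _
        _ = P (idx ⁻¹' {i}) := by rw [h3, add_zero]
    exact h1.trans (ENNReal.toReal_mono (measure_ne_top _ _) h4)
  have hsum : ∑ i, P.real (idx ⁻¹' {i}) = 1 := by
    have h1 : ∑ i, P.real (idx ⁻¹' {i}) = P.real (⋃ i ∈ (Finset.univ : Finset ι), idx ⁻¹' {i}) := by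
      rw [measureReal_biUnion_finset]
      · intro i _ j _ hij
        apply Set.disjoint_left.mpr
        intro y hy hy'
        apply hij
        have e1 : idx y = i := hy
        have e2 : idx y = j := hy'
        rw [← e1, ← e2]
      · intro i _
        exact hset i
    have h2 : ⋃ i ∈ (Finset.univ : Finset ι), idx ⁻¹' {i} = Set.univ := by
      ext y
      simp
    rw [h1, h2]
    simp
  have heq : ∀ i, P.real (idx ⁻¹' {i}) = n⁻¹ := by
    intro i
    by_contra hne
    have hlt : n⁻¹ < P.real (idx ⁻¹' {i}) := lt_of_le_of_ne (hge i) (Ne.symm hne)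
    have : ∑ _j : ι, n⁻¹ < ∑ j, P.real (idx ⁻¹' {j}) :=
      Finset.sum_lt_sum (fun j _ => hge j) ⟨i, Finset.mem_univ i, hlt⟩
    rw [hsum] at this
    simp only [Finset.sum_const, Finset.card_univ, nsmul_eq_mul] at this
    rw [← hn, mul_inv_cancel₀ hn0.ne'] at this
    exact lt_irrefl _ this
  have hpush : ∀ F : ι → ℝ, ∫ y, F (idx y) ∂P = (∑ i, F i) / Fintype.card ι := by
    intro F
    have h1 : (fun y => F (idx y)) = fun y => ∑ i, (idx ⁻¹' {i}).indicator (fun _ => F i) y := by
      funext y
      rw [Finset.sum_eq_single (idx y)]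
      · rw [Set.indicator_of_mem]; rfl
      · intro j _ hj
        rw [Set.indicator_of_notMem]
        intro h
        exact hj (h : idx y = j).symm
      · intro h; exact absurd (Finset.mem_univ _) h
    rw [h1, integral_finsetSum]
    · simp_rw [integral_indicator_const _ (hset _), heq, smul_eq_mul]
      rw [← Finset.mul_sum, div_eq_inv_mul]
    · intro i _
      exact (integrable_const _).indicator (hset i)
  have hcost : TT X = ∫ y, sqd y (X (idx y)) ∂P := by
    have h1 : TT X = G X b := by
      apply le_antisymm
      · exact ciSup_le hb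
      · exact G_le_TT X b
    have hX' : Measurable fun y => X (idx y) := (@measurable_from_top ι E _ X).comp hidx
    have hb' : Measurable fun y => b (idx y) := (@measurable_from_top ι ℝ _ b).comp hidx
    have h2 : ∫ y, psi X b y ∂P = ∫ y, sqd y (X (idx y)) ∂P + ∫ y, b (idx y) ∂P := by
      rw [← integral_add]
      · congr 1
        funext y
        exact hargmin y
      · apply integrable_of_bound (measurable_sqd measurable_id hX') 2
        intro y hy
        rw [abs_of_nonneg (sqd_nonneg _ _)]
        exact sqd_le_two hy (hX _)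
      · apply integrable_of_bound hb' (∑ i, |b i|)
        intro y _
        exact Finset.single_le_sum (f := fun i => |b i|) (fun i _ => abs_nonneg _)
          (Finset.mem_univ (idx y))
    rw [h1]
    unfold G
    rw [h2, hpush b]
    ring
  exact ⟨⟨b, idx, hidx, hargmin, hpush, hcost, hmean⟩⟩

end Pool.Agent.H37
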