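import Pool.Agent.H37.Ledoux.Moments

set_option autoImplicit false
set_option linter.unusedSectionVars false

open MeasureTheory Real Filter Topology
open scoped ENNReal

namespace Pool.Agent.H37

variable {ι : Type} [Fintype ι] [Nonempty ι]

/-- The empirical measure. -/
noncomputable def emp (X : ι → E) : Measure E :=
  (Fintype.card ι : ℝ≥0∞)⁻¹ • ∑ i, Measure.dirac (X i)

lemma emp_apply (X : ι → E) (A : Set E) (hA : MeasurableSet A) :
    emp X A = (Fintype.card ι : ℝ≥0∞)⁻¹ * ∑ i, A.indicator 1 (X i) := by
  unfold emp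
  rw [Measure.smul_apply, Measure.finsetSum_apply]
  simp only [Measure.dirac_apply' _ hA, smul_eq_mul]

lemma Opt.map_T {X : ι → E} (o : Opt X) : P.map o.T = emp X := by
  ext A hA
  rw [Measure.map_apply o.measurable_T hA, emp_apply X A hA]
  have h1 := o.push fun i => A.indicator (fun _ => (1 : ℝ)) (X i)
  have h2 : ∫ y, A.indicator (fun _ => (1 : ℝ)) (X (o.idx y)) ∂P = P.real (o.T ⁻¹' A) := by
    have : (fun y => A.indicator (fun _ => (1 : ℝ)) (X (o.idx y))) =
        (o.T ⁻¹' A).indicator (fun _ => (1 : ℝ)) := by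
      funext y
      by_cases hy : o.T y ∈ A
      · rw [Set.indicator_of_mem (show y ∈ o.T ⁻¹' A from hy)]
        exact Set.indicator_of_mem hy _
      · rw [Set.indicator_of_notMem (show y ∉ o.T ⁻¹' A from hy)]
        exact Set.indicator_of_notMem hy _
    rw [this, integral_indicator_const _ (o.measurable_T hA)]
    simp
  rw [h2] at h1
  have h3 : P (o.T ⁻¹' A) = ENNReal.ofReal (P.real (o.T ⁻¹' A)) := by
    rw [ofReal_measureReal]
  have hn := card_pos' (ι := ι)
  rw [h3, h1, ENNReal.ofReal_div_of_pos hn, ENNReal.ofReal_sum_of_nonneg, ENNReal.ofReal_natCast,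
    ENNReal.div_eq_inv_mul]
  · congr 1
    apply Finset.sum_congr rfl
    intro i _
    by_cases hi : X i ∈ A
    · rw [Set.indicator_of_mem hi, Set.indicator_of_mem hi]
      simp
    · rw [Set.indicator_of_notMem hi, Set.indicator_of_notMem hi]
      simp
  · intro i _
    exact Set.indicator_nonneg (fun _ _ => zero_le_one) _

/-- The transport cost as an extended real number. -/
noncomputable def tcost (μ ν : Measure E) : ℝ≥0∞ :=
  ⨅ γ ∈ {γ : Measure (E × E) | γ.map Prod.fst = μ ∧ γ.map Prod.snd = ν},
    ∫⁻ z, ENNReal.ofReal (sqd z.1 z.2) ∂γ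

lemma Opt.tcost_le {X : ι → E} (o : Opt X) (hX : ∀ i, X i ∈ Q) :
    tcost (emp X) P ≤ ENNReal.ofReal (TT X) := by
  have hm : Measurable fun y => (o.T y, y) := o.measurable_T.prodMk measurable_id
  have h1 : P.map (fun y => (o.T y, y)) ∈
      {γ : Measure (E × E) | γ.map Prod.fst = emp X ∧ γ.map Prod.snd = P} := by
    constructor
    · rw [Measure.map_map measurable_fst hm]
      exact o.map_T
    · rw [Measure.map_map measurable_snd hm]
      exact Measure.map_id
  unfold tcost
  refine (iInf₂_le _ h1).trans ?_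
  rw [lintegral_map (by fun_prop) hm, o.cost',
    ofReal_integral_eq_lintegral_ofReal (o.integrable_sqd hX)
      (Eventually.of_forall fun y => sqd_nonneg _ _)]
  apply lintegral_mono
  intro y
  simp only
  rw [sqd_comm]

/-- Weak duality. -/
lemma Opt.le_tcost {X : ι → E} (o : Opt X) (hX : ∀ i, X i ∈ Q) (hinj : Function.Injective X) :
    ENNReal.ofReal (TT X) ≤ tcost (emp X) P := by
  classical
  unfold tcost
  apply le_iInf₂
  rintro γ ⟨hγ1, hγ2⟩
  have hn := card_pos' (ι := ι)
  have hprob : IsProbabilityMeasure γ := by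
    constructor
    have : γ.map Prod.snd Set.univ = 1 := by rw [hγ2]; exact measure_univ
    rwa [Measure.map_apply measurable_snd MeasurableSet.univ] at this
  -- the second coordinate lies in the square
  have hae2 : ∀ᵐ z ∂γ, z.2 ∈ Q := by
    have h1 : ∀ᵐ y ∂(γ.map Prod.snd), y ∈ Q := by rw [hγ2]; exact ae_mem_Q
    exact ae_of_ae_map measurable_snd.aemeasurable h1
  -- the first coordinate is a sample point
  have hae1 : ∀ᵐ z ∂γ, ∃ i, z.1 = X i := by
    have h1 : ∀ᵐ x ∂(γ.map Prod.fst), ∃ i, x = X i := by
      rw [hγ1, ae_iff]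
      have hfin : (Set.range X).Finite := Set.finite_range X
      have hms : MeasurableSet {x : E | ¬ ∃ i, x = X i} := by
        have : {x : E | ¬ ∃ i, x = X i} = (Set.range X)ᶜ := by
          ext x
          simp only [Set.mem_ofPred_eq, Set.mem_compl_iff, Set.mem_range]
          constructor
          · rintro h ⟨i, hi⟩; exact h ⟨i, hi.symm⟩
          · rintro h ⟨i, hi⟩; exact h ⟨i, hi.symm⟩
        rw [this]
        exact hfin.measurableSet.compl
      rw [emp_apply X _ hms]
      have : ∑ i, ({x : E | ¬ ∃ i, x = X i} : Set E).indicator (1 : E → ℝ≥0∞) (X i) = 0 := by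
        apply Finset.sum_eq_zero
        intro i _
        apply Set.indicator_of_notMem
        simp only [Set.mem_ofPred_eq, not_not]
        exact ⟨i, rfl⟩
      rw [this, mul_zero]
    exact ae_of_ae_map measurable_fst.aemeasurable h1
  have hbd : ∀ᵐ z ∂γ, |sqd z.1 z.2| ≤ 2 := by
    filter_upwards [hae1, hae2] with z h1 h2
    obtain ⟨i, hi⟩ := h1
    rw [abs_of_nonneg (sqd_nonneg _ _), hi]
    exact sqd_le_two (hX i) h2
  have hint : Integrable (fun z : E × E => sqd z.1 z.2) γ := by
    apply Integrable.of_bound (by fun_prop) 2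
    filter_upwards [hbd] with z hz
    rw [Real.norm_eq_abs]; exact hz
  rw [← ofReal_integral_eq_lintegral_ofReal hint (Eventually.of_forall fun z => sqd_nonneg _ _)]
  apply ENNReal.ofReal_le_ofReal
  -- the weight function
  set β : E → ℝ := fun x => ∑ i, ({X i} : Set E).indicator (fun _ => o.b i) x with hβ
  have hβm : Measurable β := by
    apply Finset.measurable_fun_sum
    intro i _
    exact measurable_const.indicator (measurableSet_singleton _)
  have hβX : ∀ i, β (X i) = o.b i := by
    intro i
    simp only [hβ]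
    rw [Finset.sum_eq_single i]
    · rw [Set.indicator_of_mem (Set.mem_singleton _)]
    · intro j _ hj
      apply Set.indicator_of_notMem
      intro h
      exact hj (hinj (Set.mem_singleton_iff.mp h)).symm
    · intro h; exact absurd (Finset.mem_univ i) h
  have hβb : ∀ x, |β x| ≤ ∑ i, |o.b i| := by
    intro x
    refine (Finset.abs_sum_le_sum_abs _ _).trans (Finset.sum_le_sum fun i _ => ?_)
    by_cases h : x ∈ ({X i} : Set E)
    · rw [Set.indicator_of_mem h]
    · rw [Set.indicator_of_notMem h, abs_zero]; exact abs_nonneg _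
  have i1 : Integrable (fun z : E × E => β z.1) γ := by
    apply Integrable.of_bound (hβm.comp measurable_fst).aestronglyMeasurable (∑ i, |o.b i|)
    exact Eventually.of_forall fun z => by rw [Real.norm_eq_abs]; exact hβb _
  have i2 : Integrable (fun z : E × E => psi X o.b z.2) γ := by
    apply Integrable.of_bound
      ((continuous_psi X o.b).measurable.comp measurable_snd).aestronglyMeasurable 4
    filter_upwards [hae2] with z hz
    rw [Real.norm_eq_abs]
    exact o.psi_bound hX _ hz
  have h1 : ∫ z, (psi X o.b z.2 - β z.1) ∂γ ≤ ∫ z, sqd z.1 z.2 ∂γ := by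
    apply integral_mono_ae (i2.sub i1) hint
    filter_upwards [hae1] with z hz
    obtain ⟨i, hi⟩ := hz
    have := psi_le X o.b z.2 i
    show psi X o.b z.2 - β z.1 ≤ sqd z.1 z.2
    rw [hi, hβX, sqd_comm (X i)]
    linarith
  have h2 : ∫ z, psi X o.b z.2 ∂γ = 0 := by
    rw [← o.mean, ← hγ2]
    exact (integral_map measurable_snd.aemeasurable
      (continuous_psi X o.b).aestronglyMeasurable).symm
  have h3 : ∫ z, β z.1 ∂γ = (∑ i, o.b i) / Fintype.card ι := by
    have h4 : ∫ z, β z.1 ∂γ = ∫ x, β x ∂(emp X) := by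
      rw [← hγ1]
      exact (integral_map measurable_fst.aemeasurable hβm.aestronglyMeasurable).symm
    rw [h4]
    unfold emp
    rw [integral_smul_measure, integral_finsetSum_measure]
    · simp_rw [integral_dirac, hβX]
      rw [ENNReal.toReal_inv, ENNReal.toReal_natCast, smul_eq_mul, div_eq_inv_mul]
    · intro i _
      exact integrable_dirac (by rw [Real.enorm_eq_ofReal_abs]; exact ENNReal.ofReal_lt_top)
  rw [integral_sub i2 i1, h2, h3] at h1
  rw [o.TT_eq hX]
  linarith

lemma tcost_eq (X : ι → E) (hX : ∀ i, X i ∈ Q) (hinj : Function.Injective X) :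
    tcost (emp X) P = ENNReal.ofReal (TT X) := by
  obtain ⟨o⟩ := exists_opt X hX hinj
  exact le_antisymm (o.tcost_le hX) (o.le_tcost hX hinj)

end Pool.Agent.H37
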