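import Pool.Agent.H37.Ledoux.Moments

set_option autoImplicit false
set_option linter.unusedSectionVars false

open MeasureTheory Real Filter Topology

namespace Pool.Agent.H37

/-- The variance of the functional with the modes in `K` removed. -/
noncomputable def VK (n : ℕ) (K : Finset (ℕ × ℕ)) : ℝ :=
  ∫ X, FK K (prs X) ^ 2 ∂(Pn P (n + 1)) - (∫ X, FK K (prs X) ∂(Pn P (n + 1))) ^ 2

/-- Pointwise simplification of the error terms. -/
lemma err_simpl (m τ s M ΞK cK A R : ℝ) (hm : 1 ≤ m) (hτ : 0 ≤ τ) (hs : s = √m) (hM : 1 ≤ M)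
    (hcK : 0 ≤ cK)
    (hR : R ≤ A + 64 * cK * τ ^ 2 + 64 * M ^ 2 * τ ^ 2 + 8 * τ / (π ^ 2 * M ^ 2)) :
    m * (15 * R + 4224 * (τ * √τ) + 144 * cK * ΞK * τ) ≤
      15 * (m * A) + (960 * cK / m + 960 * M ^ 2 / m + 72 * cK / m) * (m ^ 2 * τ ^ 2) +
        (15 / M ^ 2 + 4224 / s) * (1 + m ^ 2 * τ ^ 2) + 72 * cK * m * ΞK ^ 2 := by
  have hm0 : 0 < m := by linarith
  have hs0 : 0 < s := by rw [hs]; exact Real.sqrt_pos.mpr hm0
  have hss : s ^ 2 = m := by rw [hs]; exact Real.sq_sqrt hm0.le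
  have hU : m * τ ≤ (1 + m ^ 2 * τ ^ 2) / 2 := by nlinarith [sq_nonneg (m * τ - 1)]
  -- the term with the square root
  have h1 : m * (τ * √τ) ≤ (1 + m ^ 2 * τ ^ 2) / s := by
    have e1 : √τ ≤ (1 / s + s * τ) / 2 := by
      have h2 : √τ ^ 2 = τ := Real.sq_sqrt hτ
      have h3 : 0 ≤ (1 - s * √τ) ^ 2 / s := by positivity
      have h4 : (1 - s * √τ) ^ 2 / s = 1 / s - 2 * √τ + s * √τ ^ 2 := by
        field_simp
        ring
      rw [h4, h2] at h3
      linarith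
    have e2 : m * (τ * √τ) ≤ m * (τ * ((1 / s + s * τ) / 2)) :=
      mul_le_mul_of_nonneg_left (mul_le_mul_of_nonneg_left e1 hτ) hm0.le
    have e3 : m * (τ * ((1 / s + s * τ) / 2)) = (m * τ) / (2 * s) + (m ^ 2 * τ ^ 2) / (2 * s) := by
      have : m * (τ * ((1 / s + s * τ) / 2)) = (m * τ) / (2 * s) + (m * s ^ 2 * τ ^ 2) / (2 * s) := by
        field_simp
      rw [this, hss]
      ring
    have e4 : (m * τ) / (2 * s) ≤ ((1 + m ^ 2 * τ ^ 2) / 2) / (2 * s) :=
      div_le_div_of_nonneg_right hU (by positivity)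
    have e5 : (1 + m ^ 2 * τ ^ 2) / s = ((1 + m ^ 2 * τ ^ 2) / 2) / (2 * s) +
        (m ^ 2 * τ ^ 2) / (2 * s) + (3 + m ^ 2 * τ ^ 2) / (4 * s) := by
      field_simp
      ring
    have e6 : 0 ≤ (3 + m ^ 2 * τ ^ 2) / (4 * s) := by positivity
    linarith
  -- the high modes term
  have h2 : m * (8 * τ / (π ^ 2 * M ^ 2)) ≤ (1 + m ^ 2 * τ ^ 2) / M ^ 2 := by
    have hpi : (9 : ℝ) ≤ π ^ 2 := by nlinarith [Real.pi_gt_three]
    have e1 : m * (8 * τ / (π ^ 2 * M ^ 2)) = 8 * (m * τ) / (π ^ 2 * M ^ 2) := by ring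
    rw [e1, div_le_div_iff₀ (by positivity) (by positivity)]
    have hM2 : 0 < M ^ 2 := by positivity
    have e2 : 8 * (m * τ) ≤ (1 + m ^ 2 * τ ^ 2) * π ^ 2 := by
      have : (1 + m ^ 2 * τ ^ 2) * 9 ≤ (1 + m ^ 2 * τ ^ 2) * π ^ 2 :=
        mul_le_mul_of_nonneg_left hpi (by positivity)
      have : 0 ≤ m ^ 2 * τ ^ 2 := by positivity
      linarith
    calc 8 * (m * τ) * M ^ 2 ≤ (1 + m ^ 2 * τ ^ 2) * π ^ 2 * M ^ 2 :=
          mul_le_mul_of_nonneg_right e2 hM2.le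
      _ = (1 + m ^ 2 * τ ^ 2) * (π ^ 2 * M ^ 2) := by ring
  -- the product term
  have h3 : m * (144 * cK * ΞK * τ) ≤ 72 * cK * m * ΞK ^ 2 + 72 * cK / m * (m ^ 2 * τ ^ 2) := by
    have e1 : 72 * cK / m * (m ^ 2 * τ ^ 2) = 72 * cK * m * τ ^ 2 := by field_simp
    rw [e1]
    have : 0 ≤ 72 * cK * m * (ΞK - τ) ^ 2 := by positivity
    nlinarith
  have h4 : m * R ≤ m * (A + 64 * cK * τ ^ 2 + 64 * M ^ 2 * τ ^ 2 + 8 * τ / (π ^ 2 * M ^ 2)) :=
    mul_le_mul_of_nonneg_left hR hm0.le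
  have e1 : 960 * cK / m * (m ^ 2 * τ ^ 2) = 15 * (m * (64 * cK * τ ^ 2)) := by
    field_simp; ring
  have e2 : 960 * M ^ 2 / m * (m ^ 2 * τ ^ 2) = 15 * (m * (64 * M ^ 2 * τ ^ 2)) := by
    field_simp; ring
  have e3 : (15 / M ^ 2 + 4224 / s) * (1 + m ^ 2 * τ ^ 2) =
      15 * ((1 + m ^ 2 * τ ^ 2) / M ^ 2) + 4224 * ((1 + m ^ 2 * τ ^ 2) / s) := by ring
  rw [add_mul, add_mul, e1, e2, e3]
  nlinarith

/-- The sum of squared indices. -/
noncomputable def SK (K : Finset (ℕ × ℕ)) : ℝ := ∑ k ∈ K, ((k.1 : ℝ) + k.2) ^ 2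

lemma SK_nonneg (K : Finset (ℕ × ℕ)) : 0 ≤ SK K := Finset.sum_nonneg fun k _ => sq_nonneg _

/-- The variance bound. -/
lemma var_bound (n : ℕ) (K : Finset (ℕ × ℕ)) (hK : 0 ∉ K) (M N : ℕ) (hM : 0 < M) (hMN : M ≤ N)
    (hKM : K ⊆ box M) (m u : ℝ) (hm : m = (n : ℝ) + 1)
    (hu : u = m ^ 2 * ∫ X, TT (prs X) ^ 2 ∂(Pn P (n + 1))) :
    VK n K ≤ 15 * (m * (16 / N + 256 * SK K / N ^ 2)) +
        240 * ∑ k ∈ (box M \ K).erase 0, 1 / lam k ^ 2 +
        (960 * K.card / m + 960 * M ^ 2 / m + 72 * K.card / m) * u +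
        (15 / M ^ 2 + 4224 / √m) * (1 + u) + 288 * K.card * LL K ^ 2 / m + 3 * CK K ^ 2 / m := by
  have hm1 : 1 ≤ m := by rw [hm]; linarith [(Nat.cast_nonneg n : (0 : ℝ) ≤ n)]
  have hm0 : 0 < m := by linarith
  have hM1 : (1 : ℝ) ≤ M := by exact_mod_cast hM
  set F : (Fin (n + 1) → E) → ℝ := fun X => FK K (prs X) with hF
  have hFB : BM F := BM_FK n K
  have h1 : VK n K ≤ ∑ i, ES P (n + 1) F i := efron_stein P (n + 1) F hFB
  -- exchange sum and integral
  have hB : ∀ i : Fin (n + 1), BM fun p : (Fin (n + 1) → E) × E =>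
      (max (F p.1 - F (Function.update p.1 i p.2)) 0) ^ 2 := fun i =>
    ((hFB.comp measurable_fst).sub (hFB.comp (measurable_update_pair (n + 1) i))).pos.sq
  have h2 : ∑ i, ES P (n + 1) F i = ∫ X, ∑ i, ∫ y, (max (F X - F (Function.update X i y)) 0) ^ 2 ∂P
      ∂(Pn P (n + 1)) := by
    rw [integral_finsetSum]
    · rfl
    · intro i _
      exact ((hB i).int_right P).integrable _
  -- the upper bound function
  set W : (Fin (n + 1) → E) → ℝ := fun X =>
    15 * (m * (16 / N + 256 * SK K / N ^ 2)) +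
      240 * ∑ k ∈ (box M \ K).erase 0, (m * av X k ^ 2) * (1 / lam k ^ 2) +
      (960 * K.card / m + 960 * M ^ 2 / m + 72 * K.card / m) * (m ^ 2 * TT (prs X) ^ 2) +
      (15 / M ^ 2 + 4224 / √m) * (1 + m ^ 2 * TT (prs X) ^ 2) + 72 * K.card * m * Xi X K ^ 2 +
      3 * CK K ^ 2 / m with hW
  have bT : BM fun X : Fin (n + 1) → E => m ^ 2 * TT (prs X) ^ 2 := BM_TT.sq.const_mul _
  have bA : BM fun X : Fin (n + 1) → E =>
      ∑ k ∈ (box M \ K).erase 0, (m * av X k ^ 2) * (1 / lam k ^ 2) :=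
    BM.sum _ fun k _ => ((BM_av n k).sq.const_mul m).mul (BM.const _)
  have b1 := (BM.const (β := Fin (n + 1) → E) (15 * (m * (16 / N + 256 * SK K / N ^ 2)))).add
    (bA.const_mul 240)
  have b2 := b1.add (bT.const_mul (960 * K.card / m + 960 * M ^ 2 / m + 72 * K.card / m))
  have b3 := b2.add (((BM.const 1).add bT).const_mul (15 / (M : ℝ) ^ 2 + 4224 / √m))
  have b4 := b3.add ((BM_Xi n K).sq.const_mul (72 * K.card * m))
  have bW : BM W := b4.add (BM.const (3 * CK K ^ 2 / m))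
  have h3 : ∫ X, ∑ i, ∫ y, (max (F X - F (Function.update X i y)) 0) ^ 2 ∂P ∂(Pn P (n + 1)) ≤
      ∫ X, W X ∂(Pn P (n + 1)) := by
    apply integral_mono_ae
      ((BM.sum Finset.univ fun i _ => (hB i).int_right P).integrable _) (bW.integrable _)
    filter_upwards [ae_opt n] with X hX
    obtain ⟨hQ, ⟨o⟩⟩ := hX
    have e1 : ∀ i, ∫ y, (max (F X - F (Function.update X i y)) 0) ^ 2 ∂P =
        ∫ y, (max (FK K X - FK K (Function.update X i y)) 0) ^ 2 ∂P := by
      intro i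
      apply integral_congr_Q
      intro y hy
      have hQ' : ∀ j, Function.update X i y j ∈ Q := by
        intro j
        by_cases hj : j = i
        · subst hj; rw [Function.update_self]; exact hy
        · rw [Function.update_of_ne hj]; exact hQ j
      simp only [hF]
      rw [prs_of_mem hQ, prs_of_mem hQ']
    simp_rw [e1]
    have e2 := o.es_bound hQ K
    have e3 := o.R_bound hQ K hK M N hM hMN hKM
    have hcard : (Fintype.card (Fin (n + 1)) : ℝ) = m := by rw [hm]; simp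
    rw [hcard] at e2
    have e4 : ∀ k, m * (16 * (av X k ^ 2 / lam k ^ 2)) = 16 * ((m * av X k ^ 2) * (1 / lam k ^ 2)) := by
      intro k; ring
    have e5 := err_simpl m (TT X) (√m) M (Xi X K) K.card
      (16 / N + 256 * SK K / N ^ 2 + 16 * ∑ k ∈ (box M \ K).erase 0, av X k ^ 2 / lam k ^ 2)
      (∫ y, (psi X o.b y - PsiK K X y) ^ 2 ∂P) hm1 (TT_nonneg X) rfl hM1 (Nat.cast_nonneg _) (by
        unfold SK
        linarith)
    have e6 : m * (16 * ∑ k ∈ (box M \ K).erase 0, av X k ^ 2 / lam k ^ 2) =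
        16 * ∑ k ∈ (box M \ K).erase 0, (m * av X k ^ 2) * (1 / lam k ^ 2) := by
      rw [Finset.mul_sum, Finset.mul_sum, Finset.mul_sum]
      apply Finset.sum_congr rfl
      intro k _
      exact e4 k
    simp only [hW]
    rw [prs_of_mem hQ]
    rw [mul_add m (16 / (N : ℝ) + 256 * SK K / N ^ 2), e6] at e5
    linarith
  have h4 : ∫ X, W X ∂(Pn P (n + 1)) = 15 * (m * (16 / N + 256 * SK K / N ^ 2)) +
        240 * ∑ k ∈ (box M \ K).erase 0, 1 / lam k ^ 2 +
        (960 * K.card / m + 960 * M ^ 2 / m + 72 * K.card / m) * u +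
        (15 / M ^ 2 + 4224 / √m) * (1 + u) +
        72 * K.card * m * ∫ X, Xi X K ^ 2 ∂(Pn P (n + 1)) + 3 * CK K ^ 2 / m := by
    have j0 : ∀ c : ℝ, ∫ _X : Fin (n + 1) → E, c ∂(Pn P (n + 1)) = c := fun c => by simp
    have j1 : ∫ X : Fin (n + 1) → E, m ^ 2 * TT (prs X) ^ 2 ∂(Pn P (n + 1)) = u := by
      rw [integral_const_mul, hu]
    have j2 : ∫ X : Fin (n + 1) → E,
        ∑ k ∈ (box M \ K).erase 0, (m * av X k ^ 2) * (1 / lam k ^ 2) ∂(Pn P (n + 1)) =
        ∑ k ∈ (box M \ K).erase 0, 1 / lam k ^ 2 := by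
      rw [integral_finsetSum]
      · apply Finset.sum_congr rfl
        intro k hk
        rw [integral_mul_const, integral_const_mul, int_av_sq n (Finset.mem_erase.mp hk).1, ← hm]
        field_simp
      · intro k _
        exact (((BM_av n k).sq.const_mul m).mul (BM.const _)).integrable _
    have j3 : ∀ c : ℝ, ∫ X : Fin (n + 1) → E, c * (m ^ 2 * TT (prs X) ^ 2) ∂(Pn P (n + 1)) =
        c * u := fun c => by rw [integral_const_mul, j1]
    have j4 : ∀ c : ℝ, ∫ X : Fin (n + 1) → E, c * (1 + m ^ 2 * TT (prs X) ^ 2) ∂(Pn P (n + 1)) =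
        c * (1 + u) := fun c => by
      rw [integral_const_mul, integral_add (integrable_const _) (bT.integrable _), j1, j0]
    simp only [hW]
    rw [integral_add (b4.integrable _) (integrable_const _),
      integral_add (b3.integrable _) (((BM_Xi n K).sq.const_mul (72 * K.card * m)).integrable _),
      integral_add (b2.integrable _)
        ((((BM.const 1).add bT).const_mul (15 / (M : ℝ) ^ 2 + 4224 / √m)).integrable _),
      integral_add (b1.integrable _) ((bT.const_mul _).integrable _),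
      integral_add (integrable_const _) ((bA.const_mul _).integrable _), j3, j4, j0, j0,
      integral_const_mul 240, j2, integral_const_mul (72 * (K.card : ℝ) * m)]
  have h5 := int_Xi_sq n K hK
  have h6 : 72 * K.card * m * ∫ X, Xi X K ^ 2 ∂(Pn P (n + 1)) ≤ 288 * K.card * LL K ^ 2 / m := by
    rw [← hm] at h5
    have := mul_le_mul_of_nonneg_left h5 (by positivity : (0 : ℝ) ≤ 72 * K.card * m)
    refine this.trans (le_of_eq ?_)
    field_simp
    ring
  rw [h2] at h1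
  linarith

end Pool.Agent.H37
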